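import Pool.Agent.Y479.PG.Plane

/-!
# The frontier of a periodic set, and the inequality in dimension one
-/

set_option autoImplicit false

open MeasureTheory Set Filter Topology

open scoped ENNReal NNReal

namespace Pool.Agent.Y479.PG

open Pool.Agent.H655R3.Per

lemma frontier_map {n : ℕ} (Ω : Set (E n)) (g : E n ≃ₜ E n)
    (h : ∀ x ∉ frontier Ω, (g x ∈ Ω ↔ x ∉ Ω)) (x : E n) (hx : x ∉ frontier Ω) :
    g x ∉ frontier Ω := by
  by_cases hi : x ∈ interior Ω
  · have h1 : g '' interior Ω ⊆ Ωᶜ := by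
      rintro _ ⟨y, hy, rfl⟩
      have hy1 : y ∉ frontier Ω := fun hf => hf.2 hy
      intro hgy
      exact ((h y hy1).1 hgy) (interior_subset hy)
    have h2 : g x ∈ interior Ωᶜ :=
      mem_interior.2 ⟨g '' interior Ω, h1, g.isOpenMap _ isOpen_interior, ⟨x, hi, rfl⟩⟩
    rw [interior_compl] at h2
    exact fun hf => h2 hf.1
  · have hc : x ∉ closure Ω := fun hc => hx ⟨hc, hi⟩
    have h1 : g '' (closure Ω)ᶜ ⊆ Ω := by
      rintro _ ⟨y, hy, rfl⟩
      have hy1 : y ∉ frontier Ω := fun hf => hy hf.1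
      exact (h y hy1).2 (fun hyΩ => hy (subset_closure hyΩ))
    have h2 : g x ∈ interior Ω :=
      mem_interior.2 ⟨g '' (closure Ω)ᶜ, h1, g.isOpenMap _ isClosed_closure.isOpen_compl,
        ⟨x, hc, rfl⟩⟩
    exact fun hf => hf.2 h2

section
variable {n : ℕ} {Ω : Set (E n)} (hΩ : IsPeriodic Ω)
include hΩ

lemma per_neg (x : E n) (hx : x ∉ frontier Ω) : -x ∉ frontier Ω :=
  frontier_map Ω (Homeomorph.neg (E n)) hΩ.2 x hx

lemma per_sub (i : Fin n) (x : E n) (hx : x ∉ frontier Ω) : x - v i ∉ frontier Ω := by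
  have := frontier_map Ω (Homeomorph.subRight (v i)) (fun x hx => hΩ.1 i x hx) x hx
  simpa using this

lemma per_add (i : Fin n) (x : E n) (hx : x ∉ frontier Ω) : x + v i ∉ frontier Ω := by
  have := per_neg hΩ _ (per_sub hΩ i _ (per_neg hΩ x hx))
  rwa [neg_sub, sub_neg_eq_add, add_comm] at this

lemma per_add_mem (i : Fin n) (x : E n) (hx : x ∉ frontier Ω) : (x + v i ∈ Ω ↔ x ∉ Ω) := by
  have := hΩ.1 i (x + v i) (per_add hΩ i x hx)
  rw [add_sub_cancel_right] at this
  tauto

lemma zero_mem_frontier : (0 : E n) ∈ frontier Ω := by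
  by_contra h
  have := hΩ.2 0 h
  rw [neg_zero] at this
  tauto

lemma frontier_neg (x : E n) : -x ∈ frontier Ω ↔ x ∈ frontier Ω := by
  constructor
  · intro h
    by_contra hx
    exact per_neg hΩ x hx h
  · intro h
    by_contra hx
    have := per_neg hΩ _ hx
    rw [neg_neg] at this
    exact this h

lemma frontier_add (i : Fin n) (x : E n) : x + v i ∈ frontier Ω ↔ x ∈ frontier Ω := by
  constructor
  · intro h
    by_contra hx
    exact per_add hΩ i x hx h
  · intro h
    by_contra hx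
    have := per_sub hΩ i _ hx
    rw [add_sub_cancel_right] at this
    exact this h

lemma frontier_add_zsmul (i : Fin n) (m : ℤ) (x : E n) :
    x + m • v i ∈ frontier Ω ↔ x ∈ frontier Ω := by
  induction m using Int.induction_on with
  | zero => simp
  | succ m ih => rw [← ih, add_smul, one_smul, ← add_assoc, frontier_add hΩ]
  | pred m ih =>
    rw [← ih, ← frontier_add hΩ i (x + (-(m : ℤ) - 1) • v i), add_assoc, sub_smul, one_smul,
      sub_add_cancel]

end

/-- In dimension one the inequality holds. -/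
theorem dim_one (Ω : Set (E 1)) (hΩ : IsPeriodic Ω) (ε : Fin 1 → ℝ)
    (hε : ∀ i, ε i = 1 ∨ ε i = -1) :
    gaussianSurfaceArea (halfSpace ε) ≤ gaussianSurfaceArea Ω := by
  unfold gaussianSurfaceArea
  apply lintegral_mono_set
  rw [halfSpace_frontier ε hε]
  rintro x ⟨k, hk⟩
  rw [Fin.sum_univ_one] at hk
  have hx : ∃ m : ℤ, x = (0 : E 1) + m • v 0 := by
    rcases hε 0 with h | h
    · refine ⟨k, ?_⟩
      ext i
      have : i = 0 := Subsingleton.elim _ _
      subst this
      simp [v]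
      rw [← hk, h]
      simp
    · refine ⟨-k, ?_⟩
      ext i
      have : i = 0 := Subsingleton.elim _ _
      subst this
      simp [v]
      rw [← hk, h]
      simp
  obtain ⟨m, rfl⟩ := hx
  rw [frontier_add_zsmul hΩ]
  exact zero_mem_frontier hΩ

end Pool.Agent.Y479.PG
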