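import Pool.Agent.Y479.PG.T2
import Pool.Agent.Y479.PG.Front

/-!
# The boundary of a periodic set of the plane meets every level curve
-/

set_option autoImplicit false

open MeasureTheory Set Filter Topology

open scoped ENNReal NNReal

namespace Pool.Agent.Y479.PG

open Pool.Agent.H655R3.Per

/-- a preconnected set meeting a set and its complement meets the frontier -/
lemma preconn_frontier {X : Type*} [TopologicalSpace X] (T Ω : Set X) (hT : IsPreconnected T)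
    (hd : ∀ z ∈ T, z ∉ frontier Ω) (a b : X) (ha : a ∈ T) (hb : b ∈ T) :
    a ∈ Ω ↔ b ∈ Ω := by
  have h1 : T ⊆ interior Ω ∪ interior Ωᶜ := by
    intro z hz
    by_cases hi : z ∈ interior Ω
    · exact Or.inl hi
    · right
      rw [interior_compl]
      intro hc
      exact hd z hz ⟨hc, hi⟩
  have h2 : Disjoint (interior Ω) (interior Ωᶜ) :=
    disjoint_compl_right.mono interior_subset interior_subset
  have key : ∀ a b : X, a ∈ T → b ∈ T → a ∈ Ω → b ∈ Ω := by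
    intro a b ha hb haΩ
    have hai : a ∈ interior Ω := by
      rcases h1 ha with h | h
      · exact h
      · exact absurd haΩ (interior_subset h)
    have h3 : T ⊆ interior Ω :=
      hT.subset_left_of_subset_union isOpen_interior isOpen_interior h2 h1 ⟨a, ha, hai⟩
    exact interior_subset (h3 hb)
  exact ⟨key a b ha hb, key b a hb ha⟩

/-- the point `(c + x, c + y)` -/
noncomputable def pc (c x y : ℝ) : E 2 := !₂[c + x, c + y]

lemma pc_zero (c x y : ℝ) : pc c x y 0 = c + x := rfl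

lemma pc_one (c x y : ℝ) : pc c x y 1 = c + y := rfl

lemma eq_pc (c : ℝ) (z : E 2) : z = pc c (z 0 - c) (z 1 - c) := by
  ext i
  fin_cases i
  · change z 0 = c + (z 0 - c); ring
  · change z 1 = c + (z 1 - c); ring

/-- the inverse of the primitive -/
noncomputable def RR2 {ω : ℝ → ℝ} (hω : Wt ω) : ℝ ≃ₜ ℝ :=
  ((StrictMono.orderIsoOfSurjective (PP ω) (PP_strictMono hω) (PP_surj hω)).symm).toHomeomorph

lemma PP_RR2 {ω : ℝ → ℝ} (hω : Wt ω) (t : ℝ) : PP ω (RR2 hω t) = t :=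
  (StrictMono.orderIsoOfSurjective (PP ω) (PP_strictMono hω) (PP_surj hω)).apply_symm_apply t

lemma RR2_neg {ω : ℝ → ℝ} (hω : Wt ω) (t : ℝ) : RR2 hω (-t) = - RR2 hω t := by
  apply (PP_strictMono hω).injective
  rw [PP_RR2, PP_neg hω, PP_RR2]

lemma RR2_zero {ω : ℝ → ℝ} (hω : Wt ω) : RR2 hω 0 = 0 := by
  apply (PP_strictMono hω).injective
  rw [PP_RR2, PP_zero']

lemma RR2_nonneg {ω : ℝ → ℝ} (hω : Wt ω) (t : ℝ) (ht : 0 ≤ t) : 0 ≤ RR2 hω t := by
  rw [← (PP_strictMono hω).le_iff_le, PP_RR2, PP_zero']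
  exact ht

lemma crossing (Ω : Set (E 2)) (c : ℝ)
    (hsym : ∀ x y, pc c x y ∉ frontier Ω → (pc c (-x) (-y) ∈ Ω ↔ pc c x y ∉ Ω))
    {ω : ℝ → ℝ} (hω : Wt ω) (c' : ℝ) :
    ∃ x y, Sf ω x y = c' ∧ 0 ≤ y ∧ pc c x y ∈ frontier Ω ∨ c' ≤ 0 := by
  rcases le_or_gt c' 0 with h0 | h0
  · exact ⟨0, 0, Or.inr h0⟩
  by_contra hcon
  push Not at hcon
  have hcon' : ∀ x y, Sf ω x y = c' → 0 ≤ y → pc c x y ∉ frontier Ω :=
    fun x y h1 h2 => (hcon x y).1 h1 h2
  set h : ℝ → ℝ := fun φ => (1 + (|Real.cos φ| + |Real.sin φ|) / √2) / 2 with hh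
  have hpos : ∀ φ, 0 < h φ := fun φ => by rw [hh]; positivity
  have hcont : Continuous h := by rw [hh]; fun_prop
  set ρ : ℝ → ℝ := fun φ => c' / h φ with hρ
  have hρpos : ∀ φ, 0 < ρ φ := fun φ => div_pos h0 (hpos φ)
  have hρc : Continuous ρ := continuous_const.div hcont fun φ => (hpos φ).ne'
  have hRc := (RR2 hω).continuous
  set Ψ : ℝ → E 2 := fun φ => pc c (RR2 hω (ρ φ * Real.cos φ)) (RR2 hω (ρ φ * Real.sin φ)) with hΨ
  have hΨc : Continuous Ψ := by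
    rw [hΨ]
    unfold pc
    have h1 : Continuous fun φ => c + RR2 hω (ρ φ * Real.cos φ) := by fun_prop
    have h2 : Continuous fun φ => c + RR2 hω (ρ φ * Real.sin φ) := by fun_prop
    apply (PiLp.continuous_toLp 2 _).comp
    apply continuous_pi
    intro i
    fin_cases i
    · exact h1
    · exact h2
  have hS : ∀ φ, Sf ω (RR2 hω (ρ φ * Real.cos φ)) (RR2 hω (ρ φ * Real.sin φ)) = c' := by
    intro φ
    unfold Sf
    rw [PP_RR2, PP_RR2]
    have e1 : (ρ φ * Real.cos φ) ^ 2 + (ρ φ * Real.sin φ) ^ 2 = ρ φ ^ 2 := by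
      have := Real.sin_sq_add_cos_sq φ
      linear_combination (ρ φ ^ 2) * this
    rw [e1, Real.sqrt_sq (hρpos φ).le, abs_mul, abs_mul, abs_of_pos (hρpos φ)]
    have e2 : (ρ φ + (ρ φ * |Real.cos φ| + ρ φ * |Real.sin φ|) / √2) / 2 = ρ φ * h φ := by
      rw [hh]
      ring
    rw [e2, hρ]
    exact div_mul_cancel₀ _ (hpos φ).ne'
  have hT : IsPreconnected (Ψ '' Icc 0 Real.pi) :=
    isPreconnected_Icc.image _ hΨc.continuousOn
  have hd : ∀ z ∈ Ψ '' Icc 0 Real.pi, z ∉ frontier Ω := by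
    rintro z ⟨φ, hφ, rfl⟩
    apply hcon' _ _ (hS φ)
    apply RR2_nonneg
    exact mul_nonneg (hρpos φ).le (Real.sin_nonneg_of_mem_Icc hφ)
  have hpi := Real.pi_pos.le
  have m0 : Ψ 0 ∈ Ψ '' Icc 0 Real.pi := ⟨0, ⟨le_rfl, hpi⟩, rfl⟩
  have mπ : Ψ Real.pi ∈ Ψ '' Icc 0 Real.pi := ⟨Real.pi, ⟨hpi, le_rfl⟩, rfl⟩
  have hiff := preconn_frontier _ Ω hT hd _ _ m0 mπ
  have e0 : Ψ 0 = pc c (RR2 hω (ρ 0)) 0 := by
    rw [hΨ]
    simp [RR2_zero]
  have hρπ : ρ Real.pi = ρ 0 := by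
    rw [hρ, hh]
    simp
  have eπ : Ψ Real.pi = pc c (-(RR2 hω (ρ 0))) (-0) := by
    rw [hΨ]
    simp only [Real.cos_pi, Real.sin_pi, mul_zero, RR2_zero, neg_zero, mul_neg, mul_one, RR2_neg,
      hρπ]
  have hs := hsym (RR2 hω (ρ 0)) 0 (by rw [← e0]; exact hd _ m0)
  rw [← e0, ← eπ] at hs
  tauto

/-- the crossing with the half open half plane `y > 0` or `y = 0, x > 0` -/
lemma crossing_pos (Ω : Set (E 2)) (c : ℝ)
    (hsym : ∀ x y, pc c x y ∉ frontier Ω → (pc c (-x) (-y) ∈ Ω ↔ pc c x y ∉ Ω))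
    (hfr : ∀ x y, pc c x y ∈ frontier Ω → pc c (-x) (-y) ∈ frontier Ω)
    {ω : ℝ → ℝ} (hω : Wt ω) (c' : ℝ) (hc' : 0 < c') :
    ∃ x y, Sf ω x y = c' ∧ (0 < y ∨ (y = 0 ∧ 0 < x)) ∧ pc c x y ∈ frontier Ω := by
  obtain ⟨x, y, h⟩ := crossing Ω c hsym hω c'
  rcases h with ⟨h1, h2, h3⟩ | h
  · rcases h2.eq_or_lt with h4 | h4
    · subst h4
      rcases lt_trichotomy x 0 with hx | hx | hx
      · refine ⟨-x, 0, ?_, Or.inr ⟨rfl, by linarith⟩, ?_⟩
        · rw [← h1]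
          unfold Sf
          rw [PP_neg hω, neg_sq, abs_neg]
        · have := hfr x 0 h3
          rwa [neg_zero] at this
      · subst hx
        exfalso
        unfold Sf at h1
        rw [PP_zero'] at h1
        simp at h1
        linarith
      · exact ⟨x, 0, h1, Or.inr ⟨rfl, hx⟩, h3⟩
    · exact ⟨x, y, h1, Or.inl h4, h3⟩
  · exact absurd hc' (not_lt.2 h)

end Pool.Agent.Y479.PG
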