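import Pool.Agent.Y479.PG.T2

/-!
# The Gaussian surface area of the half spaces of the plane
-/

set_option autoImplicit false

open MeasureTheory Set Filter Topology

open scoped ENNReal NNReal

namespace Pool.Agent.Y479.PG

lemma lintegral_unfold (f : ℝ → ℝ≥0∞) :
    ∫⁻ u, f u = ∑' m : ℤ, ∫⁻ u in Ioc (0 : ℝ) 1, f (u + m) := by
  have h1 : ∫⁻ u, f u = ∑' m : ℤ, ∫⁻ u in Ioc ((0 : ℝ) + m) (0 + m + 1), f u := by
    rw [← lintegral_iUnion (fun m => measurableSet_Ioc) (pairwise_disjoint_Ioc_add_intCast (0 : ℝ)),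
      iUnion_Ioc_add_intCast, Measure.restrict_univ]
  rw [h1]
  apply tsum_congr
  intro m
  rw [← lintegral_indicator measurableSet_Ioc, ← lintegral_indicator measurableSet_Ioc,
    ← lintegral_add_right_eq_self _ (m : ℝ)]
  apply lintegral_congr
  intro u
  by_cases hu : u ∈ Ioc (0 : ℝ) 1
  · rw [indicator_of_mem hu, indicator_of_mem]
    exact ⟨by linarith [hu.1], by linarith [hu.2]⟩
  · rw [indicator_of_notMem hu, indicator_of_notMem]
    intro h
    exact hu ⟨by linarith [h.1], by linarith [h.2]⟩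

lemma gg_conv (k : ℤ) : ENNReal.ofReal (c0 0 * alphaK (nr 0) k) =
    ENNReal.ofReal √2 * ∫⁻ u, ENNReal.ofReal (gg u) * ENNReal.ofReal (gg (u + k)) := by
  have hpi := Real.pi_pos
  have h2 : (√(2 * Real.pi)) ^ 2 = 2 * Real.pi := Real.sq_sqrt (by positivity)
  have e1 : ∀ u : ℝ, gg u * gg (u + k) =
      Real.exp (-((k : ℝ) ^ 2 / 4)) / (2 * Real.pi) * Real.exp (-1 * (u + k / 2) ^ 2) := by
    intro u
    unfold gg
    rw [div_mul_div_comm, ← sq, h2, ← Real.exp_add, div_mul_eq_mul_div, ← Real.exp_add]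
    congr 2
    ring
  have hi : Integrable fun u : ℝ => Real.exp (-1 * (u + k / 2) ^ 2) := by
    exact (integrable_exp_neg_mul_sq (b := 1) (by norm_num)).comp_add_right ((k : ℝ) / 2)
  have hv : ∫ u : ℝ, Real.exp (-1 * (u + k / 2) ^ 2) = √Real.pi := by
    rw [integral_add_right_eq_self (fun u : ℝ => Real.exp (-1 * u ^ 2)) ((k : ℝ) / 2),
      integral_gaussian]
    simp
  have e2 : ∫⁻ u, ENNReal.ofReal (gg u) * ENNReal.ofReal (gg (u + k)) =
      ENNReal.ofReal (Real.exp (-((k : ℝ) ^ 2 / 4)) / (2 * Real.pi) * √Real.pi) := by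
    have : ∀ u : ℝ, ENNReal.ofReal (gg u) * ENNReal.ofReal (gg (u + k)) =
        ENNReal.ofReal (Real.exp (-((k : ℝ) ^ 2 / 4)) / (2 * Real.pi) *
          Real.exp (-1 * (u + k / 2) ^ 2)) := by
      intro u
      rw [← ENNReal.ofReal_mul (gg_nonneg _), e1]
    simp_rw [this]
    rw [← ofReal_integral_eq_lintegral_ofReal (hi.const_mul _)
      (Eventually.of_forall fun u => by positivity), integral_const_mul, hv]
  rw [e2, ← ENNReal.ofReal_mul (by positivity)]
  congr 1
  unfold c0 alphaK Cn bb nr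
  have e3 : (2 * Real.pi) ^ (-((0 + 1 + 1 : ℕ) : ℝ) / 2) = 1 / (2 * Real.pi) := by
    have : (-((0 + 1 + 1 : ℕ) : ℝ) / 2) = -1 := by norm_num
    rw [this, Real.rpow_neg_one, one_div]
  rw [e3]
  norm_num
  field_simp

lemma halfplane_sum : ∑' k : ℤ, ENNReal.ofReal (c0 0 * alphaK (nr 0) k) =
    ENNReal.ofReal (√2 * ∫ u in (0 : ℝ)..1, th u ^ 2) := by
  have hgm : Measurable fun u : ℝ => ENNReal.ofReal (gg u) := by
    have := gg_cont.measurable
    fun_prop
  have htm : Measurable fun u : ℝ => ENNReal.ofReal (th u) := by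
    have := th_cont.measurable
    fun_prop
  simp_rw [gg_conv]
  rw [ENNReal.tsum_mul_left, ← lintegral_tsum]
  · have e1 : ∀ u : ℝ, ∑' k : ℤ, ENNReal.ofReal (gg u) * ENNReal.ofReal (gg (u + k)) =
        ENNReal.ofReal (gg u) * ENNReal.ofReal (th u) := by
      intro u
      rw [ENNReal.tsum_mul_left, ofReal_th]
    simp_rw [e1]
    rw [lintegral_unfold, ← lintegral_tsum]
    · have e2 : ∀ u : ℝ, ∑' m : ℤ, ENNReal.ofReal (gg (u + m)) * ENNReal.ofReal (th (u + m)) =
          ENNReal.ofReal (th u ^ 2) := by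
        intro u
        simp_rw [th_add_int]
        rw [ENNReal.tsum_mul_right, ← ofReal_th, ← ENNReal.ofReal_mul (th_pos u).le, sq]
      simp_rw [e2]
      have htc := th_cont
      have hi : IntegrableOn (fun u => th u ^ 2) (Ioc 0 1) :=
        ((by fun_prop : Continuous fun u => th u ^ 2).integrableOn_Icc).mono_set Ioc_subset_Icc_self
      rw [← ofReal_integral_eq_lintegral_ofReal hi (Eventually.of_forall fun u => by positivity),
        ← ENNReal.ofReal_mul (by positivity), intervalIntegral.integral_of_le (by norm_num)]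
    · intro m
      exact ((hgm.comp (measurable_add_const _)).mul (htm.comp (measurable_add_const _))).aemeasurable
  · intro k
    exact (hgm.mul (hgm.comp (measurable_add_const _))).aemeasurable

lemma int_th_sq : ∫ u in (0 : ℝ)..1, th u ^ 2 =
    2 * (PP (fun x => th (0 + x)) (1 / 4) + PP (fun x => th (1 / 2 + x)) (1 / 4)) := by
  have htc := th_cont
  have hi : ∀ a b : ℝ, IntervalIntegrable (fun u => th u ^ 2) volume a b :=
    fun a b => (by fun_prop : Continuous fun u => th u ^ 2).intervalIntegrable a b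
  unfold PP
  have h0 : ∫ s in (0 : ℝ)..(1 / 4), th (0 + s) ^ 2 = ∫ u in (0 : ℝ)..(1 / 4), th u ^ 2 := by
    simp
  have h1 : ∫ s in (0 : ℝ)..(1 / 4), th (1 / 2 + s) ^ 2 =
      ∫ u in (1 / 2 : ℝ)..(3 / 4), th u ^ 2 := by
    have := intervalIntegral.integral_comp_add_left (fun u => th u ^ 2) (1 / 2 : ℝ)
      (a := 0) (b := 1 / 4)
    rw [this]
    norm_num
  have hsym : ∀ u, th (1 - u) ^ 2 = th u ^ 2 := by
    intro u
    have : (1 : ℝ) - u = -u + 1 := by ring
    rw [this, th_add_one, th_neg]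
  have h2 : ∫ u in (3 / 4 : ℝ)..1, th u ^ 2 = ∫ u in (0 : ℝ)..(1 / 4), th u ^ 2 := by
    have := intervalIntegral.integral_comp_sub_left (fun u => th u ^ 2) (1 : ℝ)
      (a := 0) (b := 1 / 4)
    simp only [hsym] at this
    rw [this]
    norm_num
  have h3 : ∫ u in (1 / 4 : ℝ)..(1 / 2), th u ^ 2 = ∫ u in (1 / 2 : ℝ)..(3 / 4), th u ^ 2 := by
    have := intervalIntegral.integral_comp_sub_left (fun u => th u ^ 2) (1 : ℝ)
      (a := 1 / 4) (b := 1 / 2)
    simp only [hsym] at this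
    rw [this]
    norm_num
  rw [h0, h1, ← intervalIntegral.integral_add_adjacent_intervals (hi 0 (1 / 4)) (hi (1 / 4) 1),
    ← intervalIntegral.integral_add_adjacent_intervals (hi (1 / 4) (1 / 2)) (hi (1 / 2) 1),
    ← intervalIntegral.integral_add_adjacent_intervals (hi (1 / 2) (3 / 4)) (hi (3 / 4) 1),
    h2, h3]
  ring

end Pool.Agent.Y479.PG
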