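import Pool.Agent.Y479.PG.M2
import Pool.Agent.Y479.PG.H2
import Pool.Agent.Y479.PG.C2

/-!
# In dimension two the periodic half spaces minimise the Gaussian surface area
-/

set_option autoImplicit false

open MeasureTheory Set Filter Topology

open scoped ENNReal NNReal

namespace Pool.Agent.Y479.PG

open Pool.Agent.H655R3.Per

/-- the periodised weight in the plane -/
noncomputable def WW (z : E 2) : ℝ := th (z 0) * th (z 1)

/-- the lattice vectors -/
noncomputable def lam (m : ℤ × ℤ) : E 2 := m.1 • v 0 + m.2 • v 1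

lemma add_lam_zero (z : E 2) (m : ℤ × ℤ) : (z + lam m) 0 = z 0 + m.1 := by
  unfold lam v
  simp

lemma add_lam_one (z : E 2) (m : ℤ × ℤ) : (z + lam m) 1 = z 1 + m.2 := by
  unfold lam v
  simp

lemma sub_lam_zero (z : E 2) (m : ℤ × ℤ) : (z - lam m) 0 = z 0 - m.1 := by
  unfold lam v
  simp

lemma sub_lam_one (z : E 2) (m : ℤ × ℤ) : (z - lam m) 1 = z 1 - m.2 := by
  unfold lam v
  simp

lemma gauss_two (z : E 2) : gaussDensity 2 z = gg (z 0) * gg (z 1) := by
  have hpi := Real.pi_pos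
  have h2 : (√(2 * Real.pi)) ^ 2 = 2 * Real.pi := Real.sq_sqrt (by positivity)
  unfold gaussDensity gg
  have e3 : (2 * Real.pi) ^ (-((2 : ℕ) : ℝ) / 2) = 1 / (2 * Real.pi) := by
    have : (-((2 : ℕ) : ℝ) / 2) = -1 := by norm_num
    rw [this, Real.rpow_neg_one, one_div]
  rw [e3, div_mul_div_comm, ← sq, h2, ← Real.exp_add, EuclideanSpace.norm_sq_eq,
    Fin.sum_univ_two]
  simp only [Real.norm_eq_abs, sq_abs]
  rw [div_mul_eq_mul_div, one_mul]
  congr 2
  ring

lemma sum_lattice (z : E 2) : ∑' m : ℤ × ℤ, ENNReal.ofReal (gaussDensity 2 (z + lam m)) =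
    ENNReal.ofReal (WW z) := by
  have h1 : ∀ m : ℤ × ℤ, ENNReal.ofReal (gaussDensity 2 (z + lam m)) =
      ENNReal.ofReal (gg (z 0 + m.1)) * ENNReal.ofReal (gg (z 1 + m.2)) := by
    intro m
    rw [gauss_two, add_lam_zero, add_lam_one, ENNReal.ofReal_mul (gg_nonneg _)]
  simp_rw [h1]
  rw [ENNReal.tsum_prod (f := fun a b : ℤ =>
    ENNReal.ofReal (gg (z 0 + a)) * ENNReal.ofReal (gg (z 1 + b)))]
  simp_rw [ENNReal.tsum_mul_left]
  rw [ENNReal.tsum_mul_right, ← ofReal_th, ← ofReal_th, ← ENNReal.ofReal_mul (th_pos _).le]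
  rfl

/-- the open diamond around `(c, c)` -/
def Dm (c : ℝ) : Set (E 2) := {z | |z 0 - c| + |z 1 - c| < 1 / 2}

def Hp (c : ℝ) : Set (E 2) := {z | 0 < z 1 - c ∨ (z 1 - c = 0 ∧ 0 < z 0 - c)}

def Hn (c : ℝ) : Set (E 2) := {z | z 1 - c < 0 ∨ (z 1 - c = 0 ∧ z 0 - c < 0)}

lemma Dm_meas (c : ℝ) : MeasurableSet (Dm c) := by
  have : IsOpen (Dm c) := isOpen_lt (by fun_prop) continuous_const
  exact this.measurableSet

lemma Hp_meas (c : ℝ) : MeasurableSet (Hp c) := by
  have h1 : MeasurableSet {z : E 2 | 0 < z 1 - c} :=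
    (isOpen_lt continuous_const (by fun_prop)).measurableSet
  have h2 : MeasurableSet {z : E 2 | z 1 - c = 0} :=
    (isClosed_eq (by fun_prop) continuous_const).measurableSet
  have h3 : MeasurableSet {z : E 2 | 0 < z 0 - c} :=
    (isOpen_lt continuous_const (by fun_prop)).measurableSet
  exact h1.union (h2.inter h3)

lemma Hn_meas (c : ℝ) : MeasurableSet (Hn c) := by
  have h1 : MeasurableSet {z : E 2 | z 1 - c < 0} :=
    (isOpen_lt (by fun_prop) continuous_const).measurableSet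
  have h2 : MeasurableSet {z : E 2 | z 1 - c = 0} :=
    (isClosed_eq (by fun_prop) continuous_const).measurableSet
  have h3 : MeasurableSet {z : E 2 | z 0 - c < 0} :=
    (isOpen_lt (by fun_prop) continuous_const).measurableSet
  exact h1.union (h2.inter h3)

/-- the measure of one half of the boundary near a centre -/
lemma half_bound (A : Set (E 2)) (hA : MeasurableSet A) (c : ℝ) (hc : c = 0 ∨ c = 1 / 2)
    (hAD : A ⊆ Dm c)
    (hex : ∀ c', 0 < c' → c' < √2 * PP (fun x => th (c + x)) (1 / 4) →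
      ∃ z ∈ A, Sf (fun x => th (c + x)) (z 0 - c) (z 1 - c) = c') :
    ENNReal.ofReal (√2 * PP (fun x => th (c + x)) (1 / 4)) ≤
      ∫⁻ z in A, ENNReal.ofReal (WW z) ∂(surfaceMeasure 2) := by
  have hω := wt c hc
  have key := vol_image_weighted A hA
    (fun z => Sf (fun x => th (c + x)) (z 0 - c) (z 1 - c)) WW
    (fun z => (mul_pos (th_pos _) (th_pos _)).le) (by
      intro ε hε
      refine ⟨min ε 1 / 3, by positivity, ?_⟩
      set δ := min ε 1 / 3 with hδ
      have hδ0 : 0 < δ := by positivity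
      have hδ1 : 3 * δ ≤ ε := by
        have := min_le_left ε 1
        rw [hδ]; linarith
      have hδ2 : δ ≤ 1 := by
        have := min_le_right ε 1
        rw [hδ]; linarith
      intro z hz z' hz' h0 h1
      have hzD := hAD hz
      have hz0 : |z 0 - c| ≤ 1 / 2 := by
        have : |z 0 - c| + |z 1 - c| < 1 / 2 := hzD
        linarith [abs_nonneg (z 1 - c)]
      have hz1 : |z 1 - c| ≤ 1 / 2 := by
        have : |z 0 - c| + |z 1 - c| < 1 / 2 := hzD
        linarith [abs_nonneg (z 0 - c)]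
      have hL := Sf_lip hω (z 0 - c) (z 1 - c) (z' 0 - c) (z' 1 - c) δ hz0 hz1
        (by rw [sub_sub_sub_cancel_right]; exact h0) (by rw [sub_sub_sub_cancel_right]; exact h1)
      have hdist : √((z 0 - c - (z' 0 - c)) ^ 2 + (z 1 - c - (z' 1 - c)) ^ 2) = dist z z' := by
        rw [EuclideanSpace.dist_eq, Fin.sum_univ_two, Real.dist_eq, Real.dist_eq, sq_abs, sq_abs,
          sub_sub_sub_cancel_right, sub_sub_sub_cancel_right]
      rw [hdist] at hL
      have hWe : th (c + (z 0 - c)) * th (c + (z 1 - c)) = WW z := by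
        unfold WW
        rw [add_sub_cancel, add_sub_cancel]
      simp only [hWe] at hL
      have hWnn : 0 ≤ WW z := (mul_pos (th_pos _) (th_pos _)).le
      constructor
      · refine hL.trans ?_
        have : 1 + δ ≤ 1 + ε := by linarith
        gcongr
      · have g : ∀ s t : ℝ, |s - t| ≤ δ → th s ≤ (1 + δ) * th t := by
          intro s t hst
          have h2 := (abs_le.1 (th_lip s t)).2
          have h3 := (abs_le.1 (th_bound t)).1
          nlinarith
        have g0 := g _ _ h0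
        have g1 := g _ _ h1
        have p0 := th_pos (z' 0)
        have p1 := th_pos (z' 1)
        have hWnn' : 0 ≤ WW z' := (mul_pos (th_pos _) (th_pos _)).le
        calc WW z = th (z 0) * th (z 1) := rfl
          _ ≤ ((1 + δ) * th (z' 0)) * ((1 + δ) * th (z' 1)) :=
              mul_le_mul g0 g1 (th_pos _).le (by positivity)
          _ = (1 + δ) ^ 2 * WW z' := by unfold WW; ring
          _ ≤ (1 + ε) * WW z' := by
              apply mul_le_mul_of_nonneg_right _ hWnn'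
              nlinarith)
  refine le_trans ?_ key
  have hsub : Ioo 0 (√2 * PP (fun x => th (c + x)) (1 / 4)) ⊆
      (fun z : E 2 => Sf (fun x => th (c + x)) (z 0 - c) (z 1 - c)) '' A := by
    intro c' hc'
    obtain ⟨z, hz, hS⟩ := hex c' hc'.1 hc'.2
    exact ⟨z, hz, hS⟩
  refine le_trans ?_ (measure_mono hsub)
  rw [Real.volume_Ioo, sub_zero]

lemma half_int (k : ℤ) : (1 : ℝ) / 2 ≤ |(k : ℝ) + 1 / 2| := by
  rcases le_or_gt 0 k with h | h
  · have : (0 : ℝ) ≤ k := by exact_mod_cast h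
    rw [abs_of_nonneg (by linarith)]
    linarith
  · have : (k : ℝ) ≤ -1 := by exact_mod_cast (by omega : k ≤ -1)
    rw [abs_of_nonpos (by linarith)]
    linarith

lemma diamond_disjoint (z : E 2) (m m' : ℤ × ℤ)
    (h : z - lam m ∈ Dm 0 ∪ Dm (1 / 2)) (h' : z - lam m' ∈ Dm 0 ∪ Dm (1 / 2)) : m = m' := by
  have same : ∀ c : ℝ, z - lam m ∈ Dm c → z - lam m' ∈ Dm c → m = m' := by
    intro c h1 h2
    unfold Dm at h1 h2
    rw [mem_ofPred_eq, sub_lam_zero, sub_lam_one] at h1 h2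
    have e0 : |((m'.1 - m.1 : ℤ) : ℝ)| < 1 := by
      push_cast
      rw [abs_lt]
      have b1 := abs_lt.1 (lt_of_le_of_lt (le_add_of_nonneg_right (abs_nonneg _)) h1)
      have b2 := abs_lt.1 (lt_of_le_of_lt (le_add_of_nonneg_right (abs_nonneg _)) h2)
      constructor <;> linarith [b1.1, b1.2, b2.1, b2.2]
    have e1 : |((m'.2 - m.2 : ℤ) : ℝ)| < 1 := by
      push_cast
      rw [abs_lt]
      have b1 := abs_lt.1 (lt_of_le_of_lt (le_add_of_nonneg_left (abs_nonneg _)) h1)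
      have b2 := abs_lt.1 (lt_of_le_of_lt (le_add_of_nonneg_left (abs_nonneg _)) h2)
      constructor <;> linarith [b1.1, b1.2, b2.1, b2.2]
    have f0 : |m'.1 - m.1| < 1 := by exact_mod_cast e0
    have f1 : |m'.2 - m.2| < 1 := by exact_mod_cast e1
    have g0 := Int.abs_lt_one_iff.1 f0
    have g1 := Int.abs_lt_one_iff.1 f1
    ext <;> omega
  have diff : ∀ a b : ℤ × ℤ, z - lam a ∈ Dm 0 → z - lam b ∈ Dm (1 / 2) → False := by
    intro a b h1 h2
    unfold Dm at h1 h2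
    rw [mem_ofPred_eq, sub_lam_zero, sub_lam_one] at h1 h2
    have k0 := half_int (b.1 - a.1)
    have k1 := half_int (b.2 - a.2)
    have t0 : |(((b.1 - a.1 : ℤ)) : ℝ) + 1 / 2| ≤
        |z 0 - a.1 - 0| + |z 0 - b.1 - 1 / 2| := by
      have : (((b.1 - a.1 : ℤ)) : ℝ) + 1 / 2 = (z 0 - a.1 - 0) - (z 0 - b.1 - 1 / 2) := by
        push_cast; ring
      rw [this]
      exact abs_sub _ _
    have t1 : |(((b.2 - a.2 : ℤ)) : ℝ) + 1 / 2| ≤
        |z 1 - a.2 - 0| + |z 1 - b.2 - 1 / 2| := by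
      have : (((b.2 - a.2 : ℤ)) : ℝ) + 1 / 2 = (z 1 - a.2 - 0) - (z 1 - b.2 - 1 / 2) := by
        push_cast; ring
      rw [this]
      exact abs_sub _ _
    linarith
  rcases h with h | h <;> rcases h' with h' | h'
  · exact same 0 h h'
  · exact (diff m m' h h').elim
  · exact (diff m' m h' h).elim
  · exact same _ h h'

section
variable {Ω : Set (E 2)} (hΩ : IsPeriodic Ω)
include hΩ

omit hΩ in
lemma pc_zero_neg (x y : ℝ) : pc 0 (-x) (-y) = -(pc 0 x y) := by
  ext i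
  fin_cases i
  · change 0 + -x = -(0 + x); ring
  · change 0 + -y = -(0 + y); ring

omit hΩ in
lemma pc_half_neg (x y : ℝ) : pc (1 / 2) (-x) (-y) = -(pc (1 / 2) x y) + v 0 + v 1 := by
  ext i
  fin_cases i
  · change 1 / 2 + -x = -(1 / 2 + x) + (v 0 : E 2) 0 + (v 1 : E 2) 0
    simp [v]; ring
  · change 1 / 2 + -y = -(1 / 2 + y) + (v 0 : E 2) 1 + (v 1 : E 2) 1
    simp [v]; ring

lemma centre_sym (c : ℝ) (hc : c = 0 ∨ c = 1 / 2) (x y : ℝ) (h : pc c x y ∉ frontier Ω) :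
    pc c (-x) (-y) ∈ Ω ↔ pc c x y ∉ Ω := by
  rcases hc with rfl | rfl
  · rw [pc_zero_neg]
    exact hΩ.2 _ h
  · rw [pc_half_neg]
    have n0 := per_neg hΩ _ h
    have n1 := per_add hΩ 0 _ n0
    have m0 := hΩ.2 _ h
    have m1 := per_add_mem hΩ 0 _ n0
    have m2 := per_add_mem hΩ 1 _ n1
    tauto

lemma centre_fr (c : ℝ) (hc : c = 0 ∨ c = 1 / 2) (x y : ℝ) (h : pc c x y ∈ frontier Ω) :
    pc c (-x) (-y) ∈ frontier Ω := by
  rcases hc with rfl | rfl
  · rw [pc_zero_neg, frontier_neg hΩ]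
    exact h
  · rw [pc_half_neg, frontier_add hΩ, frontier_add hΩ, frontier_neg hΩ]
    exact h

lemma pos_bound (c : ℝ) (hc : c = 0 ∨ c = 1 / 2) :
    ENNReal.ofReal (√2 * PP (fun x => th (c + x)) (1 / 4)) ≤
      ∫⁻ z in frontier Ω ∩ (Dm c ∩ Hp c), ENNReal.ofReal (WW z) ∂(surfaceMeasure 2) := by
  have hω := wt c hc
  refine half_bound _ (isClosed_frontier.measurableSet.inter ((Dm_meas c).inter (Hp_meas c))) c hc
    (fun z hz => hz.2.1) ?_
  intro c' h0 h1
  obtain ⟨x, y, hS, hxy, hf⟩ := crossing_pos Ω c (centre_sym hΩ c hc) (centre_fr hΩ c hc) hω c' h0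
  have e0 : pc c x y 0 - c = x := by rw [pc_zero]; ring
  have e1 : pc c x y 1 - c = y := by rw [pc_one]; ring
  refine ⟨pc c x y, ⟨hf, ?_, ?_⟩, ?_⟩
  · change |pc c x y 0 - c| + |pc c x y 1 - c| < 1 / 2
    rw [e0, e1]
    exact Sf_diamond hω x y (by rw [hS]; exact h1)
  · change 0 < pc c x y 1 - c ∨ (pc c x y 1 - c = 0 ∧ 0 < pc c x y 0 - c)
    rw [e0, e1]
    exact hxy
  · rw [e0, e1]
    exact hS

lemma neg_bound (c : ℝ) (hc : c = 0 ∨ c = 1 / 2) :
    ENNReal.ofReal (√2 * PP (fun x => th (c + x)) (1 / 4)) ≤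
      ∫⁻ z in frontier Ω ∩ (Dm c ∩ Hn c), ENNReal.ofReal (WW z) ∂(surfaceMeasure 2) := by
  have hω := wt c hc
  refine half_bound _ (isClosed_frontier.measurableSet.inter ((Dm_meas c).inter (Hn_meas c))) c hc
    (fun z hz => hz.2.1) ?_
  intro c' h0 h1
  obtain ⟨x, y, hS, hxy, hf⟩ := crossing_pos Ω c (centre_sym hΩ c hc) (centre_fr hΩ c hc) hω c' h0
  have e0 : pc c (-x) (-y) 0 - c = -x := by rw [pc_zero]; ring
  have e1 : pc c (-x) (-y) 1 - c = -y := by rw [pc_one]; ring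
  have hS' : Sf (fun x => th (c + x)) (-x) (-y) = c' := by
    rw [← hS]
    unfold Sf
    rw [PP_neg hω, PP_neg hω, neg_sq, neg_sq, abs_neg, abs_neg]
  refine ⟨pc c (-x) (-y), ⟨centre_fr hΩ c hc _ _ hf, ?_, ?_⟩, ?_⟩
  · change |pc c (-x) (-y) 0 - c| + |pc c (-x) (-y) 1 - c| < 1 / 2
    rw [e0, e1]
    exact Sf_diamond hω _ _ (by rw [hS']; exact h1)
  · change pc c (-x) (-y) 1 - c < 0 ∨ (pc c (-x) (-y) 1 - c = 0 ∧ pc c (-x) (-y) 0 - c < 0)
    rw [e0, e1]
    rcases hxy with h | ⟨h, h'⟩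
    · left; linarith
    · right; exact ⟨by linarith, by linarith⟩
  · rw [e0, e1]
    exact hS'

lemma full_bound (c : ℝ) (hc : c = 0 ∨ c = 1 / 2) :
    ENNReal.ofReal (2 * (√2 * PP (fun x => th (c + x)) (1 / 4))) ≤
      ∫⁻ z in frontier Ω ∩ Dm c, ENNReal.ofReal (WW z) ∂(surfaceMeasure 2) := by
  have h1 := pos_bound hΩ c hc
  have h2 := neg_bound hΩ c hc
  have hm : MeasurableSet (frontier Ω ∩ (Dm c ∩ Hn c)) :=
    isClosed_frontier.measurableSet.inter ((Dm_meas c).inter (Hn_meas c))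
  have hd : Disjoint (frontier Ω ∩ (Dm c ∩ Hp c)) (frontier Ω ∩ (Dm c ∩ Hn c)) := by
    rw [Set.disjoint_left]
    rintro z ⟨-, -, h3⟩ ⟨-, -, h4⟩
    unfold Hp at h3
    unfold Hn at h4
    rw [mem_ofPred_eq] at h3 h4
    rcases h3 with h3 | ⟨h3, h3'⟩ <;> rcases h4 with h4 | ⟨h4, h4'⟩ <;> linarith
  calc ENNReal.ofReal (2 * (√2 * PP (fun x => th (c + x)) (1 / 4)))
      = ENNReal.ofReal (√2 * PP (fun x => th (c + x)) (1 / 4)) +
        ENNReal.ofReal (√2 * PP (fun x => th (c + x)) (1 / 4)) := by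
        have hω := wt c hc
        have : 0 ≤ √2 * PP (fun x => th (c + x)) (1 / 4) := by
          have := (PP_growth hω 0 (1 / 4) (by norm_num)).1
          rw [PP_zero'] at this
          have : 0 ≤ PP (fun x => th (c + x)) (1 / 4) := by linarith
          positivity
        rw [← ENNReal.ofReal_add this this, two_mul]
    _ ≤ _ := add_le_add h1 h2
    _ = ∫⁻ z in (frontier Ω ∩ (Dm c ∩ Hp c)) ∪ (frontier Ω ∩ (Dm c ∩ Hn c)),
          ENNReal.ofReal (WW z) ∂(surfaceMeasure 2) := (lintegral_union hm hd).symm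
    _ ≤ _ := by
        apply lintegral_mono_set
        rintro z (hz | hz)
        · exact ⟨hz.1, hz.2.1⟩
        · exact ⟨hz.1, hz.2.1⟩

/-- In dimension two the inequality holds. -/
theorem dim_two (ε : Fin 2 → ℝ) (hε : ∀ i, ε i = 1 ∨ ε i = -1) :
    gaussianSurfaceArea (halfSpace ε) ≤ gaussianSurfaceArea Ω := by
  have h1 : gaussianSurfaceArea (halfSpace ε) =
      ∑' k : ℤ, ENNReal.ofReal (c0 0 * alphaK (nr 0) k) := halfSpace_area 0 ε hε
  rw [h1, halfplane_sum, int_th_sq]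
  have hb0 := full_bound hΩ 0 (Or.inl rfl)
  have hb1 := full_bound hΩ (1 / 2) (Or.inr rfl)
  set P0 := PP (fun x => th (0 + x)) (1 / 4)
  set P1 := PP (fun x => th (1 / 2 + x)) (1 / 4)
  have hP0 : 0 ≤ P0 := by
    have := (PP_growth (wt 0 (Or.inl rfl)) 0 (1 / 4) (by norm_num)).1
    rw [PP_zero'] at this
    linarith
  have hP1 : 0 ≤ P1 := by
    have := (PP_growth (wt (1 / 2) (Or.inr rfl)) 0 (1 / 4) (by norm_num)).1
    rw [PP_zero'] at this
    linarith
  have hd : Disjoint (frontier Ω ∩ Dm 0) (frontier Ω ∩ Dm (1 / 2)) := by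
    rw [Set.disjoint_left]
    rintro z ⟨-, h3⟩ ⟨-, h4⟩
    unfold Dm at h3 h4
    rw [mem_ofPred_eq] at h3 h4
    have t0 : |(1 : ℝ) / 2| ≤ |z 0 - 0| + |z 0 - 1 / 2| := by
      have : (1 : ℝ) / 2 = (z 0 - 0) - (z 0 - 1 / 2) := by ring
      conv_lhs => rw [this]
      exact abs_sub _ _
    have t1 : |(1 : ℝ) / 2| ≤ |z 1 - 0| + |z 1 - 1 / 2| := by
      have : (1 : ℝ) / 2 = (z 1 - 0) - (z 1 - 1 / 2) := by ring
      conv_lhs => rw [this]
      exact abs_sub _ _
    rw [abs_of_nonneg (by norm_num)] at t0 t1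
    linarith
  have hF : MeasurableSet (frontier Ω) := isClosed_frontier.measurableSet
  calc ENNReal.ofReal (√2 * (2 * (P0 + P1)))
      = ENNReal.ofReal (2 * (√2 * P0)) + ENNReal.ofReal (2 * (√2 * P1)) := by
        rw [← ENNReal.ofReal_add (by positivity) (by positivity)]
        congr 1
        ring
    _ ≤ _ := add_le_add hb0 hb1
    _ = ∫⁻ z in (frontier Ω ∩ Dm 0) ∪ (frontier Ω ∩ Dm (1 / 2)),
          ENNReal.ofReal (WW z) ∂(surfaceMeasure 2) :=
        (lintegral_union (hF.inter (Dm_meas _)) hd).symm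
    _ = ∫⁻ z in frontier Ω ∩ (Dm 0 ∪ Dm (1 / 2)),
          ∑' m, ENNReal.ofReal (gaussDensity 2 (z + lam m)) ∂(surfaceMeasure 2) := by
        rw [← inter_union_distrib_left]
        simp_rw [sum_lattice]
    _ ≤ ∫⁻ z in frontier Ω, ENNReal.ofReal (gaussDensity 2 z) ∂(surfaceMeasure 2) := by
        refine unfold_lattice (frontier Ω) (Dm 0 ∪ Dm (1 / 2)) hF
          ((Dm_meas _).union (Dm_meas _)) lam ?_ (fun m m' z h h' => diamond_disjoint z m m' h h')
          (fun z => ENNReal.ofReal (gaussDensity 2 z)) (gauss_meas 2)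
        intro m z
        unfold lam
        rw [← add_assoc, frontier_add_zsmul hΩ, frontier_add_zsmul hΩ]
    _ = gaussianSurfaceArea Ω := rfl

end

end Pool.Agent.Y479.PG
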