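import Pool.Agent.Y479.PG.Plane

/-!
# The perturbed set has smaller Gaussian surface area, in every dimension at least three
-/

set_option autoImplicit false

open MeasureTheory Set Filter Topology

open scoped ENNReal NNReal

namespace Pool.Agent.Y479.PG

open Pool.Agent.H655R3.Per

/-- the height function of the perturbed set -/
noncomputable def uu (q : ℕ) (η : ℝ) (x : E (q + 1 + 1)) : ℝ :=
  hh η (x 0) + ∑ j : Fin (q + 1), x j.succ

/-- the vector `(a, c + z)` -/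
noncomputable def mk {q : ℕ} (a c : ℝ) (z : E (q + 1)) : E (q + 1 + 1) :=
  WithLp.toLp 2 (Fin.cons a (fun j => c + z j))

lemma mk_zero {q : ℕ} (a c : ℝ) (z : E (q + 1)) : mk a c z 0 = a := rfl

lemma mk_succ {q : ℕ} (a c : ℝ) (z : E (q + 1)) (j : Fin (q + 1)) :
    mk a c z j.succ = c + z j := rfl

lemma mk_normsq {q : ℕ} (a c : ℝ) (z : E (q + 1)) (hz : ∑ j, z j = 0) :
    ‖mk a c z‖ ^ 2 = a ^ 2 + ((q : ℝ) + 1) * c ^ 2 + ‖z‖ ^ 2 := by
  rw [normsq_succ, mk_zero, EuclideanSpace.norm_sq_eq, EuclideanSpace.norm_sq_eq]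
  have h : ∀ j, ‖tl (mk a c z) j‖ ^ 2 = c ^ 2 + 2 * c * z j + ‖z j‖ ^ 2 := by
    intro j
    rw [tl_apply, mk_succ, Real.norm_eq_abs, Real.norm_eq_abs, sq_abs, sq_abs]
    ring
  rw [Finset.sum_congr rfl (fun j _ => h j), Finset.sum_add_distrib, Finset.sum_add_distrib,
    ← Finset.mul_sum, hz]
  simp
  ring

lemma mk_sub {q : ℕ} (a c a' c' : ℝ) (z z' : E (q + 1)) :
    mk a c z - mk a' c' z' = mk (a - a') (c - c') (z - z') := by
  ext i
  refine Fin.cases ?_ (fun j => ?_) i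
  · simp [mk_zero]
  · simp only [PiLp.sub_apply, mk_succ]
    ring

/-- an isometry onto the vectors of sum zero -/
lemma exists_L (q : ℕ) : ∃ L : E q →ₗᵢ[ℝ] E (q + 1), ∀ x, x ∈ range L ↔ ∑ j, x j = 0 := by
  have h0 : (WithLp.toLp 2 (fun _ => (1 : ℝ)) : E (q + 1)) ≠ 0 := by
    intro h
    have := congrArg (fun x : E (q + 1) => x 0) h
    simp at this
  obtain ⟨L, hL⟩ := exists_isom q _ h0
  refine ⟨L, fun x => ?_⟩
  rw [hL, inner_toLp]
  simp

/-- the parametrisation of the sheets -/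
noncomputable def Phi {q : ℕ} (L : E q →ₗᵢ[ℝ] E (q + 1)) (k η : ℝ) (y : E (q + 1)) :
    E (q + 1 + 1) :=
  mk (rho (nr q) η (y 0)) ((k - hh η (rho (nr q) η (y 0))) / ((q : ℝ) + 1)) (L (tl y))

lemma Phi_normsq {q : ℕ} (L : E q →ₗᵢ[ℝ] E (q + 1)) (hL : ∀ x, x ∈ range L ↔ ∑ j, x j = 0)
    (k η : ℝ) (y : E (q + 1)) :
    ‖Phi L k η y‖ ^ 2 = (rho (nr q) η (y 0)) ^ 2 +
      (k - hh η (rho (nr q) η (y 0))) ^ 2 / (nr q - 1) + ‖tl y‖ ^ 2 := by
  have hq : (0 : ℝ) < (q : ℝ) + 1 := by positivity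
  have hnq : nr q - 1 = (q : ℝ) + 1 := by unfold nr; ring
  unfold Phi
  rw [mk_normsq _ _ _ ((hL _).1 ⟨_, rfl⟩), L.norm_map, hnq]
  field_simp

lemma Phi_lipschitz {q : ℕ} (hq : 1 ≤ q) (L : E q →ₗᵢ[ℝ] E (q + 1))
    (hL : ∀ x, x ∈ range L ↔ ∑ j, x j = 0) (k η : ℝ) (hη : |η| ≤ 1 / 10) :
    LipschitzWith 1 (Phi L k η) := by
  have hn := nr_ge q hq
  have hq1 : (0 : ℝ) < (q : ℝ) + 1 := by positivity
  have hnq : nr q - 1 = (q : ℝ) + 1 := by unfold nr; ring
  refine LipschitzWith.of_dist_le_mul fun y z => ?_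
  rw [NNReal.coe_one, one_mul, dist_eq_norm, dist_eq_norm]
  apply le_of_sq_le_sq _ (norm_nonneg _)
  have h1 : Phi L k η y - Phi L k η z = mk (rho (nr q) η (y 0) - rho (nr q) η (z 0))
      ((k - hh η (rho (nr q) η (y 0))) / ((q : ℝ) + 1) -
        (k - hh η (rho (nr q) η (z 0))) / ((q : ℝ) + 1)) (L (tl (y - z))) := by
    unfold Phi
    rw [mk_sub, tl_sub, map_sub]
  rw [h1, mk_normsq _ _ _ ((hL _).1 ⟨_, rfl⟩), L.norm_map, normsq_succ (y - z)]
  have h2 := arc_le (nr q) η (rho (nr q) η (y 0)) (rho (nr q) η (z 0)) hn hη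
  rw [tau_rho _ _ _ hn, tau_rho _ _ _ hn, hnq] at h2
  have h3 : ((q : ℝ) + 1) * ((k - hh η (rho (nr q) η (y 0))) / ((q : ℝ) + 1) -
        (k - hh η (rho (nr q) η (z 0))) / ((q : ℝ) + 1)) ^ 2 =
      (hh η (rho (nr q) η (y 0)) - hh η (rho (nr q) η (z 0))) ^ 2 / ((q : ℝ) + 1) := by
    field_simp
    ring
  rw [h3]
  have h4 : (y - z) 0 = y 0 - z 0 := rfl
  rw [h4]
  linarith

lemma sheet_subset {q : ℕ} (hq : 1 ≤ q) (L : E q →ₗᵢ[ℝ] E (q + 1))
    (hL : ∀ x, x ∈ range L ↔ ∑ j, x j = 0) (k η : ℝ) (hη : |η| ≤ 1 / 10) :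
    {x : E (q + 1 + 1) | uu q η x = k} ⊆ range (Phi L k η) := by
  have hn := nr_ge q hq
  have hq1 : (0 : ℝ) < (q : ℝ) + 1 := by positivity
  intro x hx
  rw [mem_ofPred_eq] at hx
  unfold uu at hx
  set c : ℝ := (k - hh η (x 0)) / ((q : ℝ) + 1) with hc
  set z : E (q + 1) := WithLp.toLp 2 (fun j => x j.succ - c) with hz
  have hzs : ∑ j, z j = 0 := by
    have : ∀ j, z j = x j.succ - c := fun j => rfl
    rw [Finset.sum_congr rfl (fun j _ => this j), Finset.sum_sub_distrib]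
    simp only [Finset.sum_const, Finset.card_univ, Fintype.card_fin, nsmul_eq_mul, hc]
    push_cast
    rw [mul_div_cancel₀ _ hq1.ne']
    linarith
  obtain ⟨y', hy'⟩ := (hL z).2 hzs
  refine ⟨WithLp.toLp 2 (Fin.cons (tau (nr q) η (x 0)) (fun j => y' j)), ?_⟩
  unfold Phi
  have e0 : (WithLp.toLp 2 (Fin.cons (tau (nr q) η (x 0)) (fun j => y' j)) : E (q + 1)) 0 =
      tau (nr q) η (x 0) := rfl
  have e1 : tl (WithLp.toLp 2 (Fin.cons (tau (nr q) η (x 0)) (fun j => y' j)) : E (q + 1)) =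
      y' := by
    ext j; rfl
  rw [e0, e1, rho_tau _ _ _ hn hη, hy', ← hc]
  ext i
  refine Fin.cases ?_ (fun j => ?_) i
  · rfl
  · rw [mk_succ]
    change c + (x j.succ - c) = _
    ring

lemma sheet_area (q : ℕ) (hq : 1 ≤ q) (k η : ℝ) (hη : |η| ≤ 1 / 10) :
    ∫⁻ x in {x : E (q + 1 + 1) | uu q η x = k},
      ENNReal.ofReal (gaussDensity (q + 1 + 1) x) ∂(surfaceMeasure (q + 1 + 1)) ≤
      ENNReal.ofReal (c0 q * ∫ a, RR (nr q) k η a) := by
  have hn := nr_ge q hq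
  have hn1 : 0 < nr q - 1 := by linarith
  have hn0 : 0 < nr q := by linarith
  obtain ⟨L, hL⟩ := exists_L q
  have hC := Cn_pos q
  have hρ : Measurable (rho (nr q) η) := (rho_mono _ η hn hη).measurable
  set F : ℝ → ℝ≥0∞ := fun s =>
    ENNReal.ofReal (Cn q * Real.exp (-((rho (nr q) η s) ^ 2 +
      (k - hh η (rho (nr q) η s)) ^ 2 / (nr q - 1)) / 2)) with hF
  have hFm : Measurable F := by
    rw [hF]
    unfold hh
    fun_prop
  have h1 : ∀ y : E (q + 1), ENNReal.ofReal (gaussDensity (q + 1 + 1) (Phi L k η y)) =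
      F (y 0) * ENNReal.ofReal (Real.exp (-(‖tl y‖ ^ 2 / 2))) := by
    intro y
    rw [hF]
    simp only []
    rw [← ENNReal.ofReal_mul (by positivity)]
    congr 1
    unfold gaussDensity Cn
    rw [Phi_normsq L hL, mul_assoc, ← Real.exp_add]
    congr 2
    ring
  have h2 : ∫⁻ s, F s ≤ ENNReal.ofReal (√(nr q / (nr q - 1)) * Cn q * ∫ a, RR (nr q) k η a) := by
    have hcv := lintegral_image_eq_lintegral_abs_deriv_mul (s := univ) MeasurableSet.univ
      (fun x _ => (tau_deriv (nr q) η x).hasDerivWithinAt)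
      ((tau_strictMono (nr q) η hn hη).injective.injOn) F
    rw [image_univ, (tau_surj (nr q) η hn).range_eq, Measure.restrict_univ] at hcv
    rw [hcv]
    have h3 : ∀ a, ENNReal.ofReal |dtau (nr q) η a| * F (tau (nr q) η a) =
        ENNReal.ofReal (√(nr q / (nr q - 1)) * Cn q * LL (nr q) k η a) := by
      intro a
      rw [hF]
      simp only []
      rw [rho_tau (nr q) η a hn hη, abs_of_pos (dtau_pos (nr q) η a hn hη),
        ← ENNReal.ofReal_mul (dtau_pos (nr q) η a hn hη).le]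
      congr 1
      unfold dtau LL hh
      ring
    simp_rw [h3]
    obtain ⟨hi, -⟩ := RR_integral (nr q) k η hn
    rw [← integral_const_mul, ofReal_integral_eq_lintegral_ofReal (hi.const_mul _)]
    · apply lintegral_mono
      intro a
      apply ENNReal.ofReal_le_ofReal
      have := LL_le_RR (nr q) k η a hn hη
      gcongr
    · refine Eventually.of_forall fun a => ?_
      have := (LL_nonneg (nr q) k η a hn hη).trans (LL_le_RR (nr q) k η a hn hη)
      simp only [Pi.zero_apply]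
      positivity
  calc ∫⁻ x in {x : E (q + 1 + 1) | uu q η x = k},
        ENNReal.ofReal (gaussDensity (q + 1 + 1) x) ∂(surfaceMeasure (q + 1 + 1))
      ≤ ∫⁻ x in range (Phi L k η),
        ENNReal.ofReal (gaussDensity (q + 1 + 1) x) ∂(surfaceMeasure (q + 1 + 1)) :=
        lintegral_mono_set (sheet_subset hq L hL k η hη)
    _ ≤ ∫⁻ y, ENNReal.ofReal (gaussDensity (q + 1 + 1) (Phi L k η y)) :=
        surf_lipschitz _ _ (Phi_lipschitz hq L hL k η hη) _ (gauss_meas _)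
    _ = (∫⁻ s, F s) * ENNReal.ofReal ((2 * Real.pi) ^ ((q : ℝ) / 2)) := by
        simp_rw [h1]
        rw [lintegral_split F (fun z => ENNReal.ofReal (Real.exp (-(‖z‖ ^ 2 / 2)))) hFm
          (by fun_prop), lintegral_gauss]
    _ ≤ ENNReal.ofReal (√(nr q / (nr q - 1)) * Cn q * ∫ a, RR (nr q) k η a) *
        ENNReal.ofReal ((2 * Real.pi) ^ ((q : ℝ) / 2)) := by
        gcongr
    _ = _ := by
        rw [← ENNReal.ofReal_mul' (by positivity)]
        congr 1
        unfold c0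
        ring

lemma RRint_nonneg (n k η : ℝ) (hn : 3 ≤ n) (hη : |η| ≤ 1 / 10) : 0 ≤ ∫ a, RR n k η a :=
  integral_nonneg fun a => (LL_nonneg n k η a hn hη).trans (LL_le_RR n k η a hn hη)

/-- the perturbed set -/
def Om (q : ℕ) (η : ℝ) : Set (E (q + 1 + 1)) := {x | 0 ≤ Real.sin (Real.pi * uu q η x)}

lemma uu_cont (q : ℕ) (η : ℝ) : Continuous (uu q η) := by
  unfold uu hh
  fun_prop

lemma uu_sub_v (q : ℕ) (η : ℝ) (x : E (q + 1 + 1)) (t : ℝ) (j : Fin (q + 1)) :
    uu q η (x + t • v j.succ) = uu q η x + t := by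
  unfold uu v
  simp only [PiLp.add_apply, PiLp.smul_apply, smul_eq_mul, Finset.sum_add_distrib]
  rw [← Finset.mul_sum]
  have h1 : (EuclideanSpace.single j.succ (1 : ℝ) : E (q + 1 + 1)) 0 = 0 := by
    simp [Fin.succ_ne_zero]
  have h2 : ∑ i : Fin (q + 1), (EuclideanSpace.single j.succ (1 : ℝ) : E (q + 1 + 1)) i.succ =
      1 := by
    rw [Finset.sum_eq_single j]
    · simp
    · intro i _ hi
      simp [hi]
    · simp
  rw [h1, h2]
  simp
  ring

lemma Om_frontier (q : ℕ) (η : ℝ) : frontier (Om q η) = {x | ∃ k : ℤ, uu q η x = k} :=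
  frontier_eq (uu q η) (uu_cont q η) (v (Fin.succ 0)) (fun x t => uu_sub_v q η x t 0)

lemma Om_closed (q : ℕ) (η : ℝ) : IsClosed (Om q η) := by
  have := uu_cont q η
  exact isClosed_le continuous_const (by fun_prop)

lemma Om_periodic (q : ℕ) (η : ℝ) : IsPeriodic (Om q η) := by
  refine isPeriodic_of (uu q η) (uu_cont q η) (v (Fin.succ 0))
    (fun x t => uu_sub_v q η x t 0) ?_ ?_
  · intro x
    unfold uu hh
    have : 2 * Real.pi * (-x) 0 = -(2 * Real.pi * x 0) := by simp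
    rw [this, Real.sin_neg]
    simp
    ring
  · intro x i
    left
    refine Fin.cases ?_ (fun j => ?_) i
    · unfold uu hh v
      have h1 : (x - EuclideanSpace.single 0 1 : E (q + 1 + 1)) 0 = x 0 - 1 := by simp
      have h2 : ∀ j : Fin (q + 1),
          (x - EuclideanSpace.single 0 1 : E (q + 1 + 1)) j.succ = x j.succ := by
        intro j
        simp [Fin.succ_ne_zero]
      rw [h1, Finset.sum_congr rfl (fun j _ => h2 j), mul_sub, mul_one, Real.sin_sub_two_pi]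
      ring
    · have := uu_sub_v q η x (-1) j
      rw [neg_one_smul, ← sub_eq_add_neg] at this
      rw [this]
      ring

lemma Om_smooth (q : ℕ) (η : ℝ) : IsSmoothHypersurface (frontier (Om q η)) := by
  rw [Om_frontier]
  rintro p ⟨k, hk⟩
  have hsum : ∀ x : E (q + 1 + 1), uu q η x =
      hh η (x 0) + x (Fin.succ 0) + ∑ j : Fin q, x j.succ.succ := by
    intro x
    unfold uu
    rw [Fin.sum_univ_succ]
    ring
  refine ⟨Fin.succ 0, {x | |uu q η x - k| < 1},
    fun x => k - hh η (x 0) - ∑ j : Fin q, x j.succ.succ, ?_, ?_, ?_, ?_, ?_⟩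
  · have := uu_cont q η
    exact isOpen_lt (by fun_prop) continuous_const
  · simp [hk]
  · unfold hh
    fun_prop
  · intro x y hxy
    have h1 : ∀ j : Fin q, x j.succ.succ = y j.succ.succ := by
      intro j
      apply hxy
      intro h
      exact absurd (Fin.succ_injective _ h) (Fin.succ_ne_zero j)
    simp only []
    rw [hxy 0 (Fin.succ_ne_zero 0).symm, Finset.sum_congr rfl (fun j _ => h1 j)]
  · ext x
    simp only [mem_inter_iff, mem_ofPred_eq]
    constructor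
    · rintro ⟨⟨l, hl⟩, hx⟩
      refine ⟨hx, ?_⟩
      have : l = k := by
        rw [hl] at hx
        have h1 : |((l - k : ℤ) : ℝ)| < 1 := by push_cast; exact hx
        have h2 : |l - k| < 1 := by exact_mod_cast h1
        have := Int.abs_lt_one_iff.1 h2
        omega
      rw [this, hsum] at hl
      linarith
    · rintro ⟨hx, h⟩
      refine ⟨⟨k, ?_⟩, hx⟩
      rw [hsum, h]
      ring

lemma Om_area (q : ℕ) (hq : 1 ≤ q) (η : ℝ) (hη : |η| ≤ 1 / 10) :
    gaussianSurfaceArea (Om q η) ≤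
      ∑' k : ℤ, ENNReal.ofReal (c0 q * ∫ a, RR (nr q) k η a) := by
  unfold gaussianSurfaceArea
  rw [Om_frontier]
  have hU : {x : E (q + 1 + 1) | ∃ k : ℤ, uu q η x = k} =
      ⋃ k : ℤ, {x : E (q + 1 + 1) | uu q η x = k} := by
    ext x; simp
  rw [hU]
  refine (lintegral_iUnion_le _ _).trans ?_
  exact ENNReal.tsum_le_tsum fun k => sheet_area q hq k η hη

lemma exists_eta (q : ℕ) (hq : 1 ≤ q) : ∃ η : ℝ, |η| ≤ 1 / 10 ∧
    ∑' k : ℤ, ENNReal.ofReal (c0 q * ∫ a, RR (nr q) k η a) <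
      ∑' k : ℤ, ENNReal.ofReal (c0 q * alphaK (nr q) k) := by
  have hc0 := c0_pos q
  have hn := nr_ge q hq
  have hn1 : 0 < nr q - 1 := by linarith
  have hn0 : 0 < nr q := by linarith
  -- summability
  have sα := summable_alpha (nr q) hn0
  obtain ⟨sβ, hSpos⟩ := sTerm_sum (nr q) (by linarith)
  have sγ := (summable_exp_sq (1 / (8 * (nr q - 1))) (by positivity)).mul_left MM
  set A := ∑' k : ℤ, alphaK (nr q) k with hA
  set S := ∑' k : ℤ, sTerm (nr q) k with hS
  set M := ∑' k : ℤ, MM * Real.exp (-((1 / (8 * (nr q - 1))) * (k : ℝ) ^ 2)) with hM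
  have hG := GG_pos (nr q) hn
  have hMnn : 0 ≤ M := tsum_nonneg fun k => by unfold MM; positivity
  have hαnn : ∀ k : ℤ, 0 ≤ alphaK (nr q) k := fun k => by unfold alphaK; positivity
  have hval : ∀ (η : ℝ) (k : ℤ), ∫ a, RR (nr q) k η a = alphaK (nr q) k +
      η * (GG (nr q) / nr q) * sTerm (nr q) k +
      η ^ 2 * (MM * Real.exp (-((1 / (8 * (nr q - 1))) * (k : ℝ) ^ 2))) := by
    intro η k
    rw [(RR_integral (nr q) k η hn).2]
    unfold sTerm
    ring_nf
  have hsum : ∀ η : ℝ, Summable fun k : ℤ => ∫ a, RR (nr q) k η a := by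
    intro η
    simp_rw [hval]
    exact (sα.add (sβ.mul_left _)).add (sγ.mul_left _)
  have htsum : ∀ η : ℝ, ∑' k : ℤ, ∫ a, RR (nr q) k η a =
      A + η * (GG (nr q) / nr q) * S + η ^ 2 * M := by
    intro η
    simp_rw [hval]
    rw [(sα.add (sβ.mul_left _)).tsum_add (sγ.mul_left _), sα.tsum_add (sβ.mul_left _),
      tsum_mul_left, tsum_mul_left]
  have hA0 : 0 < A := by
    refine sα.tsum_pos hαnn 0 ?_
    have := bb_pos (nr q) hn
    unfold alphaK; positivity
  set L := (GG (nr q) / nr q) * S with hL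
  have hLpos : 0 < L := by positivity
  set t := min (1 / 10) (L / (2 * (M + 1))) with ht
  have ht0 : 0 < t := by positivity
  have ht1 : t ≤ 1 / 10 := min_le_left _ _
  have ht2 : t ≤ L / (2 * (M + 1)) := min_le_right _ _
  refine ⟨-t, by rw [abs_neg, abs_of_pos ht0]; exact ht1, ?_⟩
  have hη : |(-t)| ≤ 1 / 10 := by rw [abs_neg, abs_of_pos ht0]; exact ht1
  rw [← ENNReal.ofReal_tsum_of_nonneg
    (fun k : ℤ => mul_nonneg hc0.le (RRint_nonneg (nr q) (k : ℝ) (-t) hn hη))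
      ((hsum (-t)).mul_left (c0 q)),
    ← ENNReal.ofReal_tsum_of_nonneg (fun k : ℤ => mul_nonneg hc0.le (hαnn k))
    (sα.mul_left (c0 q)), tsum_mul_left, tsum_mul_left, htsum]
  apply (ENNReal.ofReal_lt_ofReal_iff (by positivity)).2
  apply mul_lt_mul_of_pos_left _ hc0
  have h1 : t * (2 * (M + 1)) ≤ L := by
    rw [le_div_iff₀ (by positivity)] at ht2
    exact ht2
  have h2 : t ^ 2 * M < t * L := by nlinarith
  have h3 : -t * (GG (nr q) / nr q) * S = - (t * L) := by rw [hL]; ring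
  rw [h3]
  have h4 : (-t) ^ 2 * M = t ^ 2 * M := by ring
  rw [h4]
  linarith

/-- In every dimension `q + 2 ≥ 3` some smooth periodic set beats all periodic half spaces. -/
theorem exists_set (q : ℕ) (hq : 1 ≤ q) : ∃ Ω : Set (E (q + 1 + 1)),
    IsClosed Ω ∧ IsPeriodic Ω ∧ IsSmoothHypersurface (frontier Ω) ∧
    ∀ ε : Fin (q + 1 + 1) → ℝ, (∀ i, ε i = 1 ∨ ε i = -1) →
      IsPeriodic (halfSpace ε) ∧ gaussianSurfaceArea (halfSpace ε) < ∞ ∧
        gaussianSurfaceArea Ω < gaussianSurfaceArea (halfSpace ε) := by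
  obtain ⟨η, hη, hlt⟩ := exists_eta q hq
  refine ⟨Om q η, Om_closed q η, Om_periodic q η, Om_smooth q η, fun ε hε => ?_⟩
  refine ⟨halfSpace_periodic ε hε, halfSpace_area_lt_top q ε hε, ?_⟩
  rw [halfSpace_area q ε hε]
  exact lt_of_le_of_lt (Om_area q hq η hη) hlt

end Pool.Agent.Y479.PG
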