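import Pool.Agent.Y479.PG.Int

/-!
# The profile curve (dimension `n` as a real parameter)

Generalises `Pool/Agent/H655R3/PerCurve.lean` (the case `n = 3`).
-/

set_option autoImplicit false

open MeasureTheory Set Filter Topology

open scoped ENNReal NNReal

namespace Pool.Agent.Y479.PG

/-- `h(a) = a + η sin(2πa)` -/
noncomputable def hh (η a : ℝ) : ℝ := a + η * Real.sin (2 * Real.pi * a)

/-- the comparison parameter -/
noncomputable def tau (n η a : ℝ) : ℝ :=
  √(n / (n - 1)) * (a + η / n * Real.sin (2 * Real.pi * a) + 10 * η ^ 2 * a)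

noncomputable def dtau (n η a : ℝ) : ℝ :=
  √(n / (n - 1)) * (1 + η / n * (2 * Real.pi * Real.cos (2 * Real.pi * a)) + 10 * η ^ 2)

lemma sq_pos (n : ℝ) (hn : 3 ≤ n) : 0 < √(n / (n - 1)) := by
  have h1 : 0 < n - 1 := by linarith
  have h2 : 0 < n := by linarith
  positivity

lemma hasDerivAt_sin2 (a : ℝ) : HasDerivAt (fun a => Real.sin (2 * Real.pi * a))
    (2 * Real.pi * Real.cos (2 * Real.pi * a)) a := by
  have : HasDerivAt (fun y : ℝ => 2 * Real.pi * y) (2 * Real.pi) a := by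
    simpa using ((hasDerivAt_id a).const_mul (2 * Real.pi))
  exact this.sin.congr_deriv (by ring)

lemma tau_deriv (n η a : ℝ) : HasDerivAt (tau n η) (dtau n η a) a := by
  unfold tau dtau
  have h1 := (hasDerivAt_sin2 a).const_mul (η / n)
  have h2 := (hasDerivAt_id a).const_mul (10 * η ^ 2)
  have h3 := (((hasDerivAt_id a).add h1).add h2).const_mul √(n / (n - 1))
  refine HasDerivAt.congr_deriv h3 ?_
  ring

lemma dtau_pos (n η a : ℝ) (hn : 3 ≤ n) (hη : |η| ≤ 1 / 10) : 0 < dtau n η a := by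
  unfold dtau
  exact mul_pos (sq_pos n hn) (fac_nonneg n η a hn hη)

lemma tau_strictMono (n η : ℝ) (hn : 3 ≤ n) (hη : |η| ≤ 1 / 10) : StrictMono (tau n η) := by
  apply strictMono_of_deriv_pos
  intro x
  rw [(tau_deriv n η x).deriv]
  exact dtau_pos n η x hn hη

lemma tau_cont (n η : ℝ) : Continuous (tau n η) := by
  unfold tau; fun_prop

lemma tau_surj (n η : ℝ) (hn : 3 ≤ n) : Function.Surjective (tau n η) := by
  have hb : ∀ a, |η / n * Real.sin (2 * Real.pi * a)| ≤ |η| := by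
    intro a
    rw [abs_mul, abs_div]
    have h1 := Real.abs_sin_le_one (2 * Real.pi * a)
    have h2 := abs_nonneg η
    rw [abs_of_pos (by linarith : (0 : ℝ) < n)]
    calc |η| / n * |Real.sin (2 * Real.pi * a)| ≤ |η| / 1 * 1 := by
          gcongr
          linarith
      _ = |η| := by ring
  have hs := sq_pos n hn
  refine (tau_cont n η).surjective ?_ ?_
  · have h1 : Tendsto (fun a : ℝ => √(n / (n - 1)) * (a - |η|)) atTop atTop :=
      (tendsto_atTop_add_const_right _ _ tendsto_id).const_mul_atTop hs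
    refine tendsto_atTop_mono' _ ?_ h1
    filter_upwards [eventually_ge_atTop 0] with a ha
    unfold tau
    have := neg_abs_le (η / n * Real.sin (2 * Real.pi * a))
    have h3 := hb a
    have h4 : 0 ≤ 10 * η ^ 2 * a := by positivity
    gcongr
    linarith
  · have h1 : Tendsto (fun a : ℝ => √(n / (n - 1)) * (a + |η|)) atBot atBot :=
      (tendsto_atBot_add_const_right _ _ tendsto_id).const_mul_atBot hs
    refine tendsto_atBot_mono' _ ?_ h1
    filter_upwards [eventually_le_atBot 0] with a ha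
    unfold tau
    have := le_abs_self (η / n * Real.sin (2 * Real.pi * a))
    have h3 := hb a
    have h4 : 10 * η ^ 2 * a ≤ 0 := mul_nonpos_of_nonneg_of_nonpos (by positivity) ha
    apply mul_le_mul_of_nonneg_left _ hs.le
    linarith

/-- the inverse of `tau` -/
noncomputable def rho (n η : ℝ) : ℝ → ℝ := Function.invFun (tau n η)

lemma tau_rho (n η s : ℝ) (hn : 3 ≤ n) : tau n η (rho n η s) = s :=
  Function.rightInverse_invFun (tau_surj n η hn) s

lemma rho_tau (n η a : ℝ) (hn : 3 ≤ n) (hη : |η| ≤ 1 / 10) : rho n η (tau n η a) = a :=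
  Function.leftInverse_invFun (tau_strictMono n η hn hη).injective a

lemma rho_mono (n η : ℝ) (hn : 3 ≤ n) (hη : |η| ≤ 1 / 10) : Monotone (rho n η) := by
  intro s t hst
  rw [← (tau_strictMono n η hn hη).le_iff_le, tau_rho n η _ hn, tau_rho n η _ hn]
  exact hst

/-- arc length is dominated by `tau` -/
lemma arc_le (n η a b : ℝ) (hn : 3 ≤ n) (hη : |η| ≤ 1 / 10) :
    (a - b) ^ 2 + (hh η a - hh η b) ^ 2 / (n - 1) ≤ (tau n η a - tau n η b) ^ 2 := by
  unfold hh tau
  have hn1 : 0 < n - 1 := by linarith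
  have hn0 : 0 < n := by linarith
  set δ := Real.sin (2 * Real.pi * a) - Real.sin (2 * Real.pi * b) with hδ
  have hpi : Real.pi < 3.15 := Real.pi_lt_d2
  have hpi0 : 0 < Real.pi := Real.pi_pos
  have h1 : |δ| ≤ 6.3 * |a - b| := by
    have h := Real.abs_sin_sub_sin_le (2 * Real.pi * a) (2 * Real.pi * b)
    rw [← mul_sub, abs_mul, abs_of_pos (by positivity : (0 : ℝ) < 2 * Real.pi)] at h
    have := abs_nonneg (a - b)
    nlinarith
  set D := a - b with hD
  have s32 : (√(n / (n - 1)) : ℝ) ^ 2 = n / (n - 1) := Real.sq_sqrt (by positivity)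
  have e1 : a + η * Real.sin (2 * Real.pi * a) - (b + η * Real.sin (2 * Real.pi * b)) =
      D + η * δ := by rw [hD, hδ]; ring
  have e2 : √(n / (n - 1)) * (a + η / n * Real.sin (2 * Real.pi * a) + 10 * η ^ 2 * a) -
      √(n / (n - 1)) * (b + η / n * Real.sin (2 * Real.pi * b) + 10 * η ^ 2 * b) =
      √(n / (n - 1)) * (D + η / n * δ + 10 * η ^ 2 * D) := by rw [hD, hδ]; ring
  rw [e1, e2, mul_pow, s32]
  have e3 : n / (n - 1) * (D + η / n * δ + 10 * η ^ 2 * D) ^ 2 -
      (D ^ 2 + (D + η * δ) ^ 2 / (n - 1)) =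
      η ^ 2 / (n - 1) * (20 * n * D ^ 2 + 100 * n * (η * D) ^ 2 + 20 * (η * (D * δ)) +
        δ ^ 2 / n - δ ^ 2) := by
    field_simp
    ring
  have hD2 : |D| ^ 2 = D ^ 2 := sq_abs D
  have hδ2 : δ ^ 2 ≤ 39.69 * D ^ 2 := by
    rw [← sq_abs δ, ← hD2]
    have := abs_nonneg δ
    have := pow_le_pow_left₀ (abs_nonneg δ) h1 2
    calc |δ| ^ 2 ≤ (6.3 * |D|) ^ 2 := this
      _ = _ := by ring
  have h2 : |η * (D * δ)| ≤ 0.63 * D ^ 2 := by
    rw [abs_mul, abs_mul, ← hD2]
    calc |η| * (|D| * |δ|) ≤ 1 / 10 * (|D| * (6.3 * |D|)) := by gcongr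
      _ = _ := by ring
  have h3 := neg_abs_le (η * (D * δ))
  have h4 : 0 ≤ 20 * n * D ^ 2 + 100 * n * (η * D) ^ 2 + 20 * (η * (D * δ)) +
      δ ^ 2 / n - δ ^ 2 := by
    have q1 : 0 ≤ n * (η * D) ^ 2 := by positivity
    have q2 := sq_nonneg D
    have q3 : 0 ≤ δ ^ 2 / n := by positivity
    have q4 : 60 * D ^ 2 ≤ 20 * n * D ^ 2 := by nlinarith
    linarith
  have h5 := mul_nonneg (div_nonneg (sq_nonneg η) hn1.le) h4
  linarith

end Pool.Agent.Y479.PG
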