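import Pool.Agent.Y479.PG.Theta

/-!
# One dimensional Gaussian integrals (dimension `n` as a real parameter)

Generalises `Pool/Agent/H655R3/PerInt.lean` and `PerInt2.lean` (the case `n = 3`).
-/

set_option autoImplicit false

open MeasureTheory Set Filter Topology

namespace Pool.Agent.Y479.PG

lemma exp_le_quad (u : ℝ) : Real.exp u ≤ 1 + u + u ^ 2 * Real.exp |u| := by
  rcases le_or_gt |u| 1 with h | h
  · have h1 := Real.abs_exp_sub_one_sub_id_le h
    have h2 : Real.exp u - 1 - u ≤ u ^ 2 := le_trans (le_abs_self _) h1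
    have h3 : (1 : ℝ) ≤ Real.exp |u| := Real.one_le_exp (abs_nonneg u)
    nlinarith [sq_nonneg u]
  · have h3 : (1 : ℝ) ≤ Real.exp |u| := Real.one_le_exp (abs_nonneg u)
    rcases le_or_gt 0 u with hu | hu
    · rw [abs_of_nonneg hu] at h ⊢
      have : 1 ≤ u ^ 2 := by nlinarith
      nlinarith [Real.exp_pos u]
    · rw [abs_of_neg hu] at h
      have h4 : Real.exp u ≤ 1 := by
        rw [← Real.exp_zero]; exact Real.exp_le_exp.2 hu.le
      have : -u ≤ u ^ 2 := by nlinarith
      have : u ^ 2 ≤ u ^ 2 * Real.exp |u| := by nlinarith [sq_nonneg u]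
      linarith

/-- the Gaussian weight -/
noncomputable def E0 (n k a : ℝ) : ℝ := Real.exp (-(a ^ 2 / 2) - (k - a) ^ 2 / (2 * (n - 1)))

/-- the integrand for the perturbed surface -/
noncomputable def LL (n k η a : ℝ) : ℝ :=
  Real.exp (-(a ^ 2 + (k - (a + η * Real.sin (2 * Real.pi * a))) ^ 2 / (n - 1)) / 2) *
    (1 + η / n * (2 * Real.pi * Real.cos (2 * Real.pi * a)) + 10 * η ^ 2)

/-- its upper bound -/
noncomputable def RR (n k η a : ℝ) : ℝ :=
  E0 n k a * (1 + η * ((k - a) * Real.sin (2 * Real.pi * a) / (n - 1) +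
    2 * Real.pi * Real.cos (2 * Real.pi * a) / n)) +
    η ^ 2 * (20 * Real.exp (2 - 3 * a ^ 2 / 8 - k ^ 2 / (8 * (n - 1))))

lemma LL_le_RR (n k η a : ℝ) (hn : 3 ≤ n) (hη : |η| ≤ 1 / 10) : LL n k η a ≤ RR n k η a := by
  unfold LL RR
  set N := n - 1 with hN
  have hN2 : 2 ≤ N := by linarith
  have hN0 : 0 < N := by linarith
  have hn0 : 0 < n := by linarith
  set g := Real.sin (2 * Real.pi * a) with hg
  set c := Real.cos (2 * Real.pi * a) with hc
  have hg1 : |g| ≤ 1 := Real.abs_sin_le_one _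
  have hc1 : |c| ≤ 1 := Real.abs_cos_le_one _
  have hpi : Real.pi < 3.15 := Real.pi_lt_d2
  have hpi0 : 0 < Real.pi := Real.pi_pos
  set u := η * ((k - a) * g / N) with hu
  set r := |k - a| / N with hr
  have hr0 : 0 ≤ r := by positivity
  have hvr : |(k - a) * g / N| ≤ r := by
    rw [abs_div, abs_mul, hr, abs_of_pos hN0]
    have : |k - a| * |g| ≤ |k - a| * 1 := by gcongr
    gcongr
    linarith
  have hur : |u| ≤ |η| * r := by
    rw [hu, abs_mul]; gcongr
  have hη0 := abs_nonneg η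
  have hur' : |u| ≤ r := by nlinarith
  -- first factor
  have hexp : Real.exp (-(a ^ 2 + (k - (a + η * g)) ^ 2 / N) / 2) ≤ E0 n k a * Real.exp u := by
    unfold E0
    rw [← Real.exp_add]
    apply Real.exp_le_exp.2
    rw [hu, ← hN]
    have e : -(a ^ 2 / 2) - (k - a) ^ 2 / (2 * N) + η * ((k - a) * g / N) -
        -(a ^ 2 + (k - (a + η * g)) ^ 2 / N) / 2 = (η * g) ^ 2 / (2 * N) := by
      field_simp
      ring
    have : 0 ≤ (η * g) ^ 2 / (2 * N) := by positivity
    linarith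
  have hq := exp_le_quad u
  have hE0 : 0 < E0 n k a := Real.exp_pos _
  set x := η / n * (2 * Real.pi * c) + 10 * η ^ 2 with hx
  have hη2 : η ^ 2 = |η| ^ 2 := (sq_abs η).symm
  have hxb : |x| ≤ 4 * |η| := by
    rw [hx]
    calc |η / n * (2 * Real.pi * c) + 10 * η ^ 2|
        ≤ |η / n * (2 * Real.pi * c)| + |10 * η ^ 2| := abs_add_le _ _
      _ = |η| / n * (2 * Real.pi * |c|) + 10 * |η| ^ 2 := by
        rw [abs_mul, abs_mul, abs_mul, abs_div, abs_of_pos hpi0, abs_of_pos hn0, abs_two, abs_mul,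
          abs_pow]
        norm_num
      _ ≤ |η| / 3 * (2 * Real.pi * 1) + 10 * |η| ^ 2 := by gcongr
      _ ≤ 4 * |η| := by nlinarith
  have hx1 : 0 ≤ 1 + x := by
    have := neg_abs_le x
    nlinarith
  have hx2 : 1 + x ≤ 1.4 := by
    have := le_abs_self x
    nlinarith
  have hER : (1 : ℝ) ≤ Real.exp r := Real.one_le_exp hr0
  have hrE : r ≤ Real.exp r := by
    have := Real.add_one_le_exp r
    linarith
  have hr2E : r ^ 2 ≤ 2 * Real.exp r := by
    have := Real.quadratic_le_exp_of_nonneg hr0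
    nlinarith
  have heu : Real.exp |u| ≤ Real.exp r := Real.exp_le_exp.2 hur'
  have hee : Real.exp (2 * r) = Real.exp r * Real.exp r := by
    rw [← Real.exp_add]; congr 1; ring
  -- the product
  have hprod : Real.exp u * (1 + x) ≤
      1 + η * ((k - a) * g / N + 2 * Real.pi * c / n) + η ^ 2 * (20 * Real.exp (2 * r)) := by
    have h1 : Real.exp u * (1 + x) ≤ (1 + u + u ^ 2 * Real.exp |u|) * (1 + x) := by gcongr
    have h2 : u * x ≤ η ^ 2 * (4 * r) := by
      calc u * x ≤ |u * x| := le_abs_self _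
        _ = |u| * |x| := abs_mul _ _
        _ ≤ (|η| * r) * (4 * |η|) := by gcongr
        _ = _ := by rw [hη2]; ring
    have h3 : u ^ 2 * Real.exp |u| * (1 + x) ≤ η ^ 2 * (r ^ 2 * Real.exp r * 1.4) := by
      have : u ^ 2 ≤ η ^ 2 * r ^ 2 := by
        rw [← sq_abs u, hη2, ← mul_pow]
        gcongr
      calc u ^ 2 * Real.exp |u| * (1 + x) ≤ (η ^ 2 * r ^ 2) * Real.exp r * 1.4 := by
            gcongr
        _ = _ := by ring
    have h4 : (1 + u + u ^ 2 * Real.exp |u|) * (1 + x) =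
        1 + η * ((k - a) * g / N + 2 * Real.pi * c / n) + 10 * η ^ 2 + u * x +
          u ^ 2 * Real.exp |u| * (1 + x) := by
      rw [hx, hu]; ring
    have h5 : 10 + 4 * r + r ^ 2 * Real.exp r * 1.4 ≤ 20 * Real.exp (2 * r) := by
      rw [hee]
      have e1 : r ^ 2 * Real.exp r ≤ 2 * (Real.exp r * Real.exp r) := by
        have := mul_le_mul_of_nonneg_right hr2E (Real.exp_pos r).le
        linarith
      have e0 : Real.exp r ≤ Real.exp r * Real.exp r :=
        le_mul_of_one_le_left (Real.exp_pos r).le hER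
      have e2 : r ≤ Real.exp r * Real.exp r := hrE.trans e0
      have e3 : 1 ≤ Real.exp r * Real.exp r := hER.trans e0
      linarith
    have h6 : 0 ≤ η ^ 2 := sq_nonneg η
    have h7 := mul_le_mul_of_nonneg_left h5 h6
    linarith
  have hE2 : E0 n k a * Real.exp (2 * r) ≤ Real.exp (2 - 3 * a ^ 2 / 8 - k ^ 2 / (8 * N)) := by
    unfold E0
    rw [← Real.exp_add, ← hN]
    apply Real.exp_le_exp.2
    have h1 : |k - a| ^ 2 = (k - a) ^ 2 := sq_abs _
    have e1 : 0 ≤ (|k - a| - 4) ^ 2 / (4 * N) := by positivity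
    have e2 : 0 ≤ (N - 2) * a ^ 2 / (8 * N) := by
      have : 0 ≤ N - 2 := by linarith
      positivity
    have e2' : 0 ≤ (k - 2 * a) ^ 2 / (8 * N) := by positivity
    have e3 : (|k - a| - 4) ^ 2 = (k - a) ^ 2 - 8 * |k - a| + 16 := by rw [← h1]; ring
    rw [e3] at e1
    have e4 : 4 / N ≤ 2 := by
      rw [div_le_iff₀ hN0]; linarith
    have e5 : (2 - 3 * a ^ 2 / 8 - k ^ 2 / (8 * N)) -
        (-(a ^ 2 / 2) - (k - a) ^ 2 / (2 * N) + 2 * r) =
        (2 - 4 / N) + ((k - a) ^ 2 - 8 * |k - a| + 16) / (4 * N) + (N - 2) * a ^ 2 / (8 * N) +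
          (k - 2 * a) ^ 2 / (8 * N) := by
      rw [hr]
      field_simp
      ring
    linarith
  calc Real.exp (-(a ^ 2 + (k - (a + η * g)) ^ 2 / N) / 2) *
        (1 + η / n * (2 * Real.pi * c) + 10 * η ^ 2)
      = Real.exp (-(a ^ 2 + (k - (a + η * g)) ^ 2 / N) / 2) * (1 + x) := by rw [hx]; ring
    _ ≤ (E0 n k a * Real.exp u) * (1 + x) := by gcongr
    _ = E0 n k a * (Real.exp u * (1 + x)) := by ring
    _ ≤ E0 n k a * (1 + η * ((k - a) * g / N + 2 * Real.pi * c / n) +
        η ^ 2 * (20 * Real.exp (2 * r))) := by gcongr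
    _ = E0 n k a * (1 + η * ((k - a) * g / N + 2 * Real.pi * c / n)) +
        η ^ 2 * (20 * (E0 n k a * Real.exp (2 * r))) := by ring
    _ ≤ _ := by gcongr

lemma fac_nonneg (n η a : ℝ) (hn : 3 ≤ n) (hη : |η| ≤ 1 / 10) :
    0 < 1 + η / n * (2 * Real.pi * Real.cos (2 * Real.pi * a)) + 10 * η ^ 2 := by
  have hc1 : |Real.cos (2 * Real.pi * a)| ≤ 1 := Real.abs_cos_le_one _
  have hpi : Real.pi < 3.15 := Real.pi_lt_d2
  have hpi0 : 0 < Real.pi := Real.pi_pos
  have hn0 : 0 < n := by linarith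
  have h : |η / n * (2 * Real.pi * Real.cos (2 * Real.pi * a))| ≤ 1 / 2 := by
    rw [abs_mul, abs_mul, abs_mul, abs_div, abs_of_pos hpi0, abs_two, abs_of_pos hn0]
    calc |η| / n * (2 * Real.pi * |Real.cos (2 * Real.pi * a)|)
        ≤ (1 / 10) / 3 * (2 * 3.15 * 1) := by gcongr
      _ ≤ 1 / 2 := by norm_num
  have := neg_abs_le (η / n * (2 * Real.pi * Real.cos (2 * Real.pi * a)))
  nlinarith [sq_nonneg η]

lemma LL_nonneg (n k η a : ℝ) (hn : 3 ≤ n) (hη : |η| ≤ 1 / 10) : 0 ≤ LL n k η a := by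
  unfold LL
  have := fac_nonneg n η a hn hη
  positivity

/-- the exponent `n / (2 (n-1))` -/
noncomputable def bb (n : ℝ) : ℝ := n / (2 * (n - 1))

lemma bb_pos (n : ℝ) (hn : 3 ≤ n) : 0 < bb n := by
  unfold bb
  have : 0 < n - 1 := by linarith
  have : 0 < n := by linarith
  positivity

/-- the Gaussian -/
noncomputable def ga (n x : ℝ) : ℝ := Real.exp (-(bb n) * x ^ 2)

lemma ga_integrable (n : ℝ) (hn : 3 ≤ n) : Integrable (ga n) :=
  integrable_exp_neg_mul_sq (bb_pos n hn)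

lemma xga_integrable (n : ℝ) (hn : 3 ≤ n) : Integrable fun x => x * ga n x :=
  integrable_mul_exp_neg_mul_sq (bb_pos n hn)

lemma ga_mul_int (n : ℝ) (hn : 3 ≤ n) (f : ℝ → ℝ) (hf : Continuous f) (C : ℝ)
    (hb : ∀ x, |f x| ≤ C) : Integrable fun x => ga n x * f x :=
  ((ga_integrable n hn).bdd_mul (c := C) hf.aestronglyMeasurable
    (Eventually.of_forall fun x => by rw [Real.norm_eq_abs]; exact hb x)).congr
    (Eventually.of_forall fun x => mul_comm _ _)

lemma xga_mul_int (n : ℝ) (hn : 3 ≤ n) (f : ℝ → ℝ) (hf : Continuous f) (C : ℝ)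
    (hb : ∀ x, |f x| ≤ C) : Integrable fun x => ga n x * (x * f x) :=
  ((xga_integrable n hn).bdd_mul (c := C) hf.aestronglyMeasurable
    (Eventually.of_forall fun x => by rw [Real.norm_eq_abs]; exact hb x)).congr
    (Eventually.of_forall fun x => by ring)

/-- `∫ exp(-b x²) cos(2πx) dx` -/
noncomputable def GG (n : ℝ) : ℝ := ∫ x, ga n x * Real.cos (2 * Real.pi * x)

lemma GG_pos (n : ℝ) (hn : 3 ≤ n) : 0 < GG n := by
  have hb := bb_pos n hn
  have h := fourierIntegral_gaussian (b := ((bb n : ℝ) : ℂ)) (by simpa using hb)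
    ((2 * Real.pi : ℝ) : ℂ)
  have hint : Integrable fun x : ℝ => Complex.exp (Complex.I * ((2 * Real.pi : ℝ) : ℂ) * x) *
      Complex.exp (-((bb n : ℝ) : ℂ) * (x : ℂ) ^ 2) := by
    have h1 : Integrable fun x : ℝ => Complex.exp (-((bb n : ℝ) : ℂ) * (x : ℂ) ^ 2) :=
      integrable_cexp_neg_mul_sq (by simpa using hb)
    refine h1.bdd_mul (c := 1) (by fun_prop) (Eventually.of_forall fun x => ?_)
    rw [Complex.norm_exp]
    simp
  have hre : GG n = (∫ x : ℝ, Complex.exp (Complex.I * ((2 * Real.pi : ℝ) : ℂ) * x) *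
      Complex.exp (-((bb n : ℝ) : ℂ) * (x : ℂ) ^ 2)).re := by
    have h2 := (Complex.reCLM.integral_comp_comm hint)
    simp only [Complex.reCLM_apply] at h2
    rw [← h2]
    unfold GG ga
    refine integral_congr_ae (Eventually.of_forall fun x => ?_)
    have e1 : Complex.exp (-((bb n : ℝ) : ℂ) * (x : ℂ) ^ 2) =
        ((Real.exp (-(bb n) * x ^ 2) : ℝ) : ℂ) := by
      push_cast; ring_nf
    have e2 : Complex.I * ((2 * Real.pi : ℝ) : ℂ) * (x : ℂ) =
        ((2 * Real.pi * x : ℝ) : ℂ) * Complex.I := by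
      push_cast; ring
    simp only []
    rw [e1, e2, Complex.re_mul_ofReal, Complex.exp_ofReal_mul_I_re]
    ring
  rw [hre, h]
  have e3 : ((Real.pi : ℂ) / ((bb n : ℝ) : ℂ)) ^ (1 / 2 : ℂ) =
      (((Real.pi / bb n) ^ (1 / 2 : ℝ) : ℝ) : ℂ) := by
    rw [Complex.ofReal_cpow (by positivity)]
    push_cast
    rfl
  have e4 : Complex.exp (-((2 * Real.pi : ℝ) : ℂ) ^ 2 / (4 * ((bb n : ℝ) : ℂ))) =
      ((Real.exp (-(2 * Real.pi) ^ 2 / (4 * bb n)) : ℝ) : ℂ) := by
    push_cast
    ring_nf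
  rw [e3, e4, ← Complex.ofReal_mul, Complex.ofReal_re]
  positivity

lemma ga_sin_zero (n : ℝ) : ∫ x, ga n x * Real.sin (2 * Real.pi * x) = 0 := by
  have h := integral_neg_eq_self (fun x => ga n x * Real.sin (2 * Real.pi * x)) volume
  have h2 : ∀ x : ℝ, ga n (-x) * Real.sin (2 * Real.pi * -x) =
      -(ga n x * Real.sin (2 * Real.pi * x)) := by
    intro x
    unfold ga
    rw [show (2 * Real.pi * -x) = -(2 * Real.pi * x) by ring, Real.sin_neg]
    ring_nf
  simp only [h2] at h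
  rw [integral_neg] at h
  linarith

lemma ga_sin_shift (n : ℝ) (hn : 3 ≤ n) (φ : ℝ) :
    ∫ x, ga n x * Real.sin (2 * Real.pi * x + φ) = Real.sin φ * GG n := by
  have h : ∀ x, ga n x * Real.sin (2 * Real.pi * x + φ) =
      Real.cos φ * (ga n x * Real.sin (2 * Real.pi * x)) +
        Real.sin φ * (ga n x * Real.cos (2 * Real.pi * x)) := by
    intro x
    rw [Real.sin_add]
    ring
  simp_rw [h]
  rw [integral_add, integral_const_mul, integral_const_mul, ga_sin_zero, mul_zero, zero_add]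
  · rfl
  · exact (ga_mul_int n hn _ (by fun_prop) 1 fun x => Real.abs_sin_le_one _).const_mul _
  · exact (ga_mul_int n hn _ (by fun_prop) 1 fun x => Real.abs_cos_le_one _).const_mul _

lemma int_cos (n : ℝ) (hn : 3 ≤ n) (φ : ℝ) :
    Integrable fun x => ga n x * (2 * Real.pi * Real.cos (2 * Real.pi * x + φ)) := by
  refine ga_mul_int n hn _ (by fun_prop) (2 * Real.pi) fun x => ?_
  rw [abs_mul, abs_of_pos (by positivity : (0 : ℝ) < 2 * Real.pi)]
  have := Real.abs_cos_le_one (2 * Real.pi * x + φ)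
  have hp := Real.pi_pos
  nlinarith

lemma ga_ibp (n : ℝ) (hn : 3 ≤ n) (φ : ℝ) :
    ∫ x, ga n x * (2 * Real.pi * Real.cos (2 * Real.pi * x + φ)) =
      (2 * bb n) * ∫ x, ga n x * (x * Real.sin (2 * Real.pi * x + φ)) := by
  have hd : ∀ x, HasDerivAt (fun x => ga n x * Real.sin (2 * Real.pi * x + φ))
      (ga n x * (2 * Real.pi * Real.cos (2 * Real.pi * x + φ)) -
        (2 * bb n) * (ga n x * (x * Real.sin (2 * Real.pi * x + φ)))) x := by
    intro x
    have h1 : HasDerivAt (ga n) (ga n x * (-(bb n) * (2 * x))) x := by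
      unfold ga
      have : HasDerivAt (fun y : ℝ => -(bb n) * y ^ 2) (-(bb n) * (2 * x)) x := by
        simpa using (hasDerivAt_pow 2 x).const_mul (-(bb n) : ℝ)
      exact this.exp
    have h2 : HasDerivAt (fun y => Real.sin (2 * Real.pi * y + φ))
        (Real.cos (2 * Real.pi * x + φ) * (2 * Real.pi)) x := by
      have : HasDerivAt (fun y : ℝ => 2 * Real.pi * y + φ) (2 * Real.pi) x := by
        simpa using ((hasDerivAt_id x).const_mul (2 * Real.pi)).add_const φ
      exact this.sin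
    have h3 := (h1.mul h2)
    refine HasDerivAt.congr_deriv h3 ?_
    ring
  have i1 := int_cos n hn φ
  have i2 : Integrable fun x => ga n x * (x * Real.sin (2 * Real.pi * x + φ)) :=
    xga_mul_int n hn _ (by fun_prop) 1 fun x => Real.abs_sin_le_one _
  have i3 : Integrable fun x => ga n x * Real.sin (2 * Real.pi * x + φ) :=
    ga_mul_int n hn _ (by fun_prop) 1 fun x => Real.abs_sin_le_one _
  have h0 := integral_eq_zero_of_hasDerivAt_of_integrable hd (i1.sub (i2.const_mul _)) i3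
  rw [integral_sub i1 (i2.const_mul _), integral_const_mul] at h0
  linarith

/-- the main part -/
noncomputable def RM (n k η a : ℝ) : ℝ :=
  E0 n k a * (1 + η * ((k - a) * Real.sin (2 * Real.pi * a) / (n - 1) +
    2 * Real.pi * Real.cos (2 * Real.pi * a) / n))

lemma RM_shift (n k η x : ℝ) (hn : 3 ≤ n) : RM n k η (x + k / n) =
    Real.exp (-(k ^ 2 / (2 * n))) *
    (ga n x * 1 + η * ((k / n) * (ga n x * Real.sin (2 * Real.pi * x + 2 * Real.pi * k / n)) -
      (1 / (n - 1)) * (ga n x * (x * Real.sin (2 * Real.pi * x + 2 * Real.pi * k / n))) +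
      (1 / n) * (ga n x * (2 * Real.pi * Real.cos (2 * Real.pi * x + 2 * Real.pi * k / n))))) := by
  unfold RM E0 ga bb
  have hn0 : n ≠ 0 := by linarith
  have hn1 : n - 1 ≠ 0 := by intro h; linarith
  have h1 : Real.exp (-((x + k / n) ^ 2 / 2) - (k - (x + k / n)) ^ 2 / (2 * (n - 1))) =
      Real.exp (-(k ^ 2 / (2 * n))) * Real.exp (-(n / (2 * (n - 1))) * x ^ 2) := by
    rw [← Real.exp_add]; congr 1
    field_simp
    ring
  rw [h1, show 2 * Real.pi * (x + k / n) = 2 * Real.pi * x + 2 * Real.pi * k / n by ring]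
  field_simp
  ring

lemma RM_integral (n k η : ℝ) (hn : 3 ≤ n) : Integrable (RM n k η) ∧ ∫ a, RM n k η a =
    Real.exp (-(k ^ 2 / (2 * n))) * (√(Real.pi / bb n) +
      η * ((k / n) * (Real.sin (2 * Real.pi * k / n) * GG n))) := by
  set φ := 2 * Real.pi * k / n with hφ
  have i1 := int_cos n hn φ
  have i2 : Integrable fun x => ga n x * (x * Real.sin (2 * Real.pi * x + φ)) :=
    xga_mul_int n hn _ (by fun_prop) 1 fun x => Real.abs_sin_le_one _
  have i3 : Integrable fun x => ga n x * Real.sin (2 * Real.pi * x + φ) :=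
    ga_mul_int n hn _ (by fun_prop) 1 fun x => Real.abs_sin_le_one _
  have i0 : Integrable fun x => ga n x * (1 : ℝ) := by simpa using ga_integrable n hn
  have i4 : Integrable fun x => (k / n) * (ga n x * Real.sin (2 * Real.pi * x + φ)) -
      (1 / (n - 1)) * (ga n x * (x * Real.sin (2 * Real.pi * x + φ))) +
      (1 / n) * (ga n x * (2 * Real.pi * Real.cos (2 * Real.pi * x + φ))) :=
    (((i3.const_mul (k / n)).sub (i2.const_mul (1 / (n - 1)))).add (i1.const_mul (1 / n)))
  have i5 := (i0.add (i4.const_mul η)).const_mul (Real.exp (-(k ^ 2 / (2 * n))))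
  have hs : (fun x => RM n k η (x + k / n)) = fun x => Real.exp (-(k ^ 2 / (2 * n))) *
    (ga n x * 1 + η * ((k / n) * (ga n x * Real.sin (2 * Real.pi * x + φ)) -
      (1 / (n - 1)) * (ga n x * (x * Real.sin (2 * Real.pi * x + φ))) +
      (1 / n) * (ga n x * (2 * Real.pi * Real.cos (2 * Real.pi * x + φ))))) := by
    funext x
    exact RM_shift n k η x hn
  constructor
  · have h1 : Integrable (fun x => RM n k η (x + k / n)) := by
      rw [hs]; exact i5
    have h2 := h1.comp_sub_right (k / n)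
    refine h2.congr (Eventually.of_forall fun x => ?_)
    simp
  · rw [← integral_add_right_eq_self (RM n k η) (k / n), hs, integral_const_mul]
    congr 1
    have hg : ∫ x, ga n x * 1 = √(Real.pi / bb n) := by
      simp only [mul_one]
      exact integral_gaussian (bb n)
    rw [integral_add (f := fun x => ga n x * 1) i0 (i4.const_mul η), integral_const_mul, hg]
    congr 2
    have e1 : ∫ x, ((k / n) * (ga n x * Real.sin (2 * Real.pi * x + φ)) -
      (1 / (n - 1)) * (ga n x * (x * Real.sin (2 * Real.pi * x + φ))) +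
      (1 / n) * (ga n x * (2 * Real.pi * Real.cos (2 * Real.pi * x + φ)))) =
        (k / n) * (∫ x, ga n x * Real.sin (2 * Real.pi * x + φ)) -
        (1 / (n - 1)) * (∫ x, ga n x * (x * Real.sin (2 * Real.pi * x + φ))) +
        (1 / n) * ∫ x, ga n x * (2 * Real.pi * Real.cos (2 * Real.pi * x + φ)) := by
      have i6 : Integrable fun x => (k / n) * (ga n x * Real.sin (2 * Real.pi * x + φ)) -
        (1 / (n - 1)) * (ga n x * (x * Real.sin (2 * Real.pi * x + φ))) :=
        ((i3.const_mul (k / n)).sub (i2.const_mul (1 / (n - 1))))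
      rw [integral_add i6 (i1.const_mul (1 / n)),
        integral_sub (i3.const_mul (k / n)) (i2.const_mul (1 / (n - 1))), integral_const_mul,
        integral_const_mul, integral_const_mul]
    rw [e1, ga_ibp n hn, ga_sin_shift n hn]
    generalize (∫ x, ga n x * (x * Real.sin (2 * Real.pi * x + φ))) = I
    have hn0 : n ≠ 0 := by linarith
    have hn1 : n - 1 ≠ 0 := by intro h; linarith
    unfold bb
    field_simp
    ring

/-- the remainder -/
lemma RE_integral (n k : ℝ) :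
    Integrable (fun a : ℝ => Real.exp (2 - 3 * a ^ 2 / 8 - k ^ 2 / (8 * (n - 1)))) ∧
    ∫ a : ℝ, Real.exp (2 - 3 * a ^ 2 / 8 - k ^ 2 / (8 * (n - 1))) =
      Real.exp 2 * Real.exp (-(1 / (8 * (n - 1)) * k ^ 2)) * √(Real.pi / (3 / 8)) := by
  have h : (fun a : ℝ => Real.exp (2 - 3 * a ^ 2 / 8 - k ^ 2 / (8 * (n - 1)))) = fun a : ℝ =>
      Real.exp 2 * Real.exp (-(1 / (8 * (n - 1)) * k ^ 2)) * Real.exp (-(3 / 8) * a ^ 2) := by
    funext a
    rw [← Real.exp_add, ← Real.exp_add]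
    congr 1
    ring
  rw [h]
  refine ⟨(integrable_exp_neg_mul_sq (by norm_num)).const_mul _, ?_⟩
  rw [integral_const_mul, integral_gaussian]

/-- the constants -/
noncomputable def alphaK (n k : ℝ) : ℝ := Real.exp (-(k ^ 2 / (2 * n))) * √(Real.pi / bb n)
noncomputable def MM : ℝ := 20 * (Real.exp 2 * √(Real.pi / (3 / 8)))

lemma RR_integral (n k η : ℝ) (hn : 3 ≤ n) : Integrable (RR n k η) ∧ ∫ a, RR n k η a =
    alphaK n k + η * (GG n / n) *
      (k * Real.sin (2 * Real.pi * k / n) * Real.exp (-(k ^ 2 / (2 * n)))) +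
      η ^ 2 * (MM * Real.exp (-(1 / (8 * (n - 1)) * k ^ 2))) := by
  obtain ⟨h1, h2⟩ := RM_integral n k η hn
  obtain ⟨h3, h4⟩ := RE_integral n k
  have hr : RR n k η = fun a => RM n k η a +
      η ^ 2 * (20 * Real.exp (2 - 3 * a ^ 2 / 8 - k ^ 2 / (8 * (n - 1)))) := by
    funext a
    rfl
  rw [hr]
  have h5 : Integrable fun a : ℝ =>
      η ^ 2 * (20 * Real.exp (2 - 3 * a ^ 2 / 8 - k ^ 2 / (8 * (n - 1)))) :=
    (h3.const_mul 20).const_mul _
  refine ⟨h1.add h5, ?_⟩
  rw [integral_add h1 h5, integral_const_mul, integral_const_mul, h2, h4]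
  unfold alphaK MM
  ring

end Pool.Agent.Y479.PG
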