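import Pool.Agent.Y479.PG.Plane

/-!
# Measure theory in dimension two
-/

set_option autoImplicit false

open MeasureTheory Set Filter Topology

open scoped ENNReal NNReal

namespace Pool.Agent.Y479.PG

open Pool.Agent.H655R3.Per

lemma unitCube_one : (μH[((2 - 1 : ℕ) : ℝ)] : Measure (E (2 - 1))) (unitCube (2 - 1)) = 1 := by
  have h1 : (((2 - 1 : ℕ) : ℝ)) = 1 := by norm_num
  rw [h1]
  change (μH[1] : Measure (E 1)) (unitCube 1) = 1
  have hi : Isometry (fun t : ℝ => (EuclideanSpace.single (0 : Fin 1) t : E 1)) := by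
    refine Isometry.of_dist_eq fun s t => ?_
    exact EuclideanSpace.dist_single_same _ _ _
  have hc : unitCube 1 = (fun t : ℝ => (EuclideanSpace.single (0 : Fin 1) t : E 1)) '' Icc 0 1 := by
    ext x
    constructor
    · intro hx
      refine ⟨x 0, hx 0, ?_⟩
      ext i
      have : i = 0 := Subsingleton.elim _ _
      subst this
      simp
    · rintro ⟨t, ht, rfl⟩ i
      have : i = 0 := Subsingleton.elim _ _
      subst this
      simpa using ht
  rw [hc, hi.hausdorffMeasure_image (Or.inl (by norm_num)), hausdorffMeasure_real]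
  simp

lemma surface_two : surfaceMeasure 2 = (μH[1] : Measure (E 2)) := by
  unfold surfaceMeasure
  rw [unitCube_one, inv_one, one_smul]
  norm_num

lemma vol_image_le (f : E 2 → ℝ) (K : ℝ≥0) (B : Set (E 2)) (hf : LipschitzOnWith K f B) :
    volume (f '' B) ≤ K * (surfaceMeasure 2) B := by
  rw [surface_two, ← hausdorffMeasure_real]
  have := hf.hausdorffMeasure_image_le (d := 1) (by norm_num)
  simpa using this

/-- weighted Eilenberg inequality -/
lemma vol_image_weighted (A : Set (E 2)) (hA : MeasurableSet A) (S W : E 2 → ℝ)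
    (hW : ∀ z, 0 ≤ W z)
    (h : ∀ ε : ℝ, 0 < ε → ∃ δ : ℝ, 0 < δ ∧ ∀ z ∈ A, ∀ z' ∈ A, |z 0 - z' 0| ≤ δ →
      |z 1 - z' 1| ≤ δ → S z - S z' ≤ (1 + ε) * W z * dist z z' ∧ W z ≤ (1 + ε) * W z') :
    volume (S '' A) ≤ ∫⁻ z in A, ENNReal.ofReal (W z) ∂(surfaceMeasure 2) := by
  set Y := ∫⁻ z in A, ENNReal.ofReal (W z) ∂(surfaceMeasure 2) with hY
  have main : ∀ ε : ℝ, 0 < ε → volume (S '' A) ≤ ENNReal.ofReal ((1 + ε) ^ 3) * Y := by
    intro ε hε
    obtain ⟨δ, hδ, hloc⟩ := h ε hε
    -- the pieces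
    set B : ℤ × ℤ → Set (E 2) := fun ij =>
      A ∩ {z | ⌊z 0 / δ⌋ = ij.1 ∧ ⌊z 1 / δ⌋ = ij.2} with hB
    have hBm : ∀ ij, MeasurableSet (B ij) := by
      intro ij
      apply hA.inter
      have m0 : Measurable fun z : E 2 => ⌊z 0 / δ⌋ := by fun_prop
      have m1 : Measurable fun z : E 2 => ⌊z 1 / δ⌋ := by fun_prop
      exact (m0 (measurableSet_singleton ij.1)).inter (m1 (measurableSet_singleton ij.2))
    have hBd : Pairwise (Function.onFun Disjoint B) := by
      intro a b hab
      rw [Function.onFun, Set.disjoint_left]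
      rintro z ⟨-, h1, h2⟩ ⟨-, h3, h4⟩
      apply hab
      ext
      · rw [← h1, ← h3]
      · rw [← h2, ← h4]
    have hBU : A = ⋃ ij, B ij := by
      ext z
      simp only [mem_iUnion, hB, mem_inter_iff, mem_ofPred_eq]
      constructor
      · intro hz
        exact ⟨(⌊z 0 / δ⌋, ⌊z 1 / δ⌋), hz, rfl, rfl⟩
      · rintro ⟨-, hz, -⟩
        exact hz
    have hclose : ∀ s t : ℝ, ⌊s / δ⌋ = ⌊t / δ⌋ → |s - t| ≤ δ := by
      intro s t hst
      have := Int.abs_sub_lt_one_of_floor_eq_floor hst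
      rw [← sub_div, abs_div, abs_of_pos hδ, div_lt_one hδ] at this
      exact this.le
    have hpiece : ∀ ij, volume (S '' (B ij)) ≤
        ENNReal.ofReal ((1 + ε) ^ 3) * ∫⁻ z in B ij, ENNReal.ofReal (W z) ∂(surfaceMeasure 2) := by
      intro ij
      rcases (B ij).eq_empty_or_nonempty with he | ⟨z0, hz0⟩
      · rw [he]; simp
      have hc : ∀ z ∈ B ij, ∀ z' ∈ B ij, |z 0 - z' 0| ≤ δ ∧ |z 1 - z' 1| ≤ δ := by
        rintro z ⟨-, h1, h2⟩ z' ⟨-, h3, h4⟩
        exact ⟨hclose _ _ (h1.trans h3.symm), hclose _ _ (h2.trans h4.symm)⟩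
      set K : ℝ≥0 := Real.toNNReal ((1 + ε) ^ 2 * W z0) with hK
      have hK0 : 0 ≤ (1 + ε) ^ 2 * W z0 := mul_nonneg (by positivity) (hW z0)
      have hKc : (K : ℝ) = (1 + ε) ^ 2 * W z0 := Real.coe_toNNReal _ hK0
      have one : ∀ z ∈ B ij, ∀ z' ∈ B ij, S z - S z' ≤ K * dist z z' := by
        intro z hz z' hz'
        obtain ⟨c0, c1⟩ := hc z hz z' hz'
        obtain ⟨d0, d1⟩ := hc z hz z0 hz0
        have h1 := (hloc z hz.1 z' hz'.1 c0 c1).1
        have h2 := (hloc z hz.1 z0 hz0.1 d0 d1).2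
        refine h1.trans ?_
        rw [hKc]
        have : (1 + ε) * W z ≤ (1 + ε) ^ 2 * W z0 := by
          have := mul_le_mul_of_nonneg_left h2 (by positivity : 0 ≤ 1 + ε)
          calc (1 + ε) * W z ≤ _ := this
            _ = _ := by ring
        exact mul_le_mul_of_nonneg_right this dist_nonneg
      have hLip : LipschitzOnWith K S (B ij) := by
        refine LipschitzOnWith.of_dist_le_mul fun z hz z' hz' => ?_
        rw [Real.dist_eq, abs_le]
        constructor
        · have := one z' hz' z hz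
          rw [dist_comm] at this
          linarith
        · exact one z hz z' hz'
      calc volume (S '' (B ij)) ≤ K * (surfaceMeasure 2) (B ij) := vol_image_le S K _ hLip
        _ = ∫⁻ _ in B ij, (K : ℝ≥0∞) ∂(surfaceMeasure 2) := by
            rw [setLIntegral_const]
        _ ≤ ∫⁻ z in B ij, ENNReal.ofReal ((1 + ε) ^ 3) * ENNReal.ofReal (W z)
              ∂(surfaceMeasure 2) := by
            apply setLIntegral_mono' (hBm ij)
            intro z hz
            rw [← ENNReal.ofReal_mul (by positivity)]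
            change ENNReal.ofReal ((1 + ε) ^ 2 * W z0) ≤ _
            apply ENNReal.ofReal_le_ofReal
            obtain ⟨d0, d1⟩ := hc z0 hz0 z hz
            have h2 := (hloc z0 hz0.1 z hz.1 d0 d1).2
            calc (1 + ε) ^ 2 * W z0 ≤ (1 + ε) ^ 2 * ((1 + ε) * W z) := by gcongr
              _ = _ := by ring
        _ = _ := by
            rw [lintegral_const_mul' _ _ ENNReal.ofReal_ne_top]
    calc volume (S '' A) = volume (⋃ ij, S '' (B ij)) := by
          rw [← image_iUnion, ← hBU]
      _ ≤ ∑' ij, volume (S '' (B ij)) := measure_iUnion_le _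
      _ ≤ ∑' ij, ENNReal.ofReal ((1 + ε) ^ 3) *
            ∫⁻ z in B ij, ENNReal.ofReal (W z) ∂(surfaceMeasure 2) :=
          ENNReal.tsum_le_tsum hpiece
      _ = ENNReal.ofReal ((1 + ε) ^ 3) * Y := by
          rw [ENNReal.tsum_mul_left, hY]
          congr 1
          conv_rhs => rw [hBU]
          rw [lintegral_iUnion hBm hBd]
  rcases eq_or_ne Y ∞ with hT | hT
  · rw [hT]; exact le_top
  have hlim : Tendsto (fun ε : ℝ => ENNReal.ofReal ((1 + ε) ^ 3) * Y) (𝓝[>] 0) (𝓝 (1 * Y)) := by
    apply ENNReal.Tendsto.mul_const _ (Or.inr hT)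
    have : Tendsto (fun ε : ℝ => ENNReal.ofReal ((1 + ε) ^ 3)) (𝓝 0)
        (𝓝 (ENNReal.ofReal ((1 + 0) ^ 3))) := by
      apply (ENNReal.continuous_ofReal.comp (by fun_prop : Continuous fun ε : ℝ => (1 + ε) ^ 3)).tendsto
    have h1 : ENNReal.ofReal ((1 + 0) ^ 3) = 1 := by norm_num
    rw [h1] at this
    exact this.mono_left nhdsWithin_le_nhds
  rw [one_mul] at hlim
  refine ge_of_tendsto hlim ?_
  filter_upwards [self_mem_nhdsWithin] with ε hε
  exact main ε hε

/-- translations preserve the surface measure -/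
lemma surface_translate (w : E 2) (f : E 2 → ℝ≥0∞) :
    ∫⁻ z, f (z + w) ∂(surfaceMeasure 2) = ∫⁻ z, f z ∂(surfaceMeasure 2) := by
  rw [surface_two]
  exact ((IsometryEquiv.addRight w).measurePreserving_hausdorffMeasure 1).lintegral_comp_emb
    (IsometryEquiv.addRight w).toHomeomorph.measurableEmbedding f

/-- unfolding over the lattice -/
lemma unfold_lattice (F D : Set (E 2)) (hF : MeasurableSet F) (hD : MeasurableSet D)
    (lam : ℤ × ℤ → E 2) (hFl : ∀ m z, z + lam m ∈ F ↔ z ∈ F)
    (hDl : ∀ m m' z, z - lam m ∈ D → z - lam m' ∈ D → m = m')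
    (g : E 2 → ℝ≥0∞) (hg : Measurable g) :
    ∫⁻ z in F ∩ D, ∑' m, g (z + lam m) ∂(surfaceMeasure 2) ≤
      ∫⁻ z in F, g z ∂(surfaceMeasure 2) := by
  rw [← lintegral_indicator (hF.inter hD), ← lintegral_indicator hF]
  have e1 : ∀ z, (F ∩ D).indicator (fun z => ∑' m, g (z + lam m)) z =
      ∑' m, (F.indicator g (z + lam m)) * D.indicator 1 (z + lam m - lam m) := by
    intro z
    by_cases hz : z ∈ F ∩ D
    · rw [indicator_of_mem hz]
      apply tsum_congr
      intro m
      rw [add_sub_cancel_right, indicator_of_mem hz.2, indicator_of_mem ((hFl m z).2 hz.1)]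
      simp
    · rw [indicator_of_notMem hz]
      symm
      rw [ENNReal.tsum_eq_zero]
      intro m
      rw [add_sub_cancel_right]
      by_cases hzD : z ∈ D
      · have : z + lam m ∉ F := fun h => hz ⟨(hFl m z).1 h, hzD⟩
        rw [indicator_of_notMem this, zero_mul]
      · rw [indicator_of_notMem hzD, mul_zero]
  simp_rw [e1]
  have hm : ∀ m, Measurable fun z => (F.indicator g z) * D.indicator 1 (z - lam m) := by
    intro m
    have h1 : Measurable (D.indicator (1 : E 2 → ℝ≥0∞)) := measurable_one.indicator hD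
    exact (hg.indicator hF).mul (h1.comp (by fun_prop))
  have hm' : ∀ m, Measurable fun z =>
      (F.indicator g (z + lam m)) * D.indicator 1 (z + lam m - lam m) := fun m =>
    (hm m).comp (by fun_prop : Measurable fun z : E 2 => z + lam m)
  rw [lintegral_tsum (fun m => (hm' m).aemeasurable)]
  have e2 : ∀ m, ∫⁻ z, (F.indicator g (z + lam m)) * D.indicator 1 (z + lam m - lam m)
      ∂(surfaceMeasure 2) = ∫⁻ z, (F.indicator g z) * D.indicator 1 (z - lam m)
      ∂(surfaceMeasure 2) := fun m =>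
    surface_translate (lam m) (fun z => (F.indicator g z) * D.indicator 1 (z - lam m))
  simp_rw [e2]
  rw [← lintegral_tsum (fun m => (hm m).aemeasurable)]
  apply lintegral_mono
  intro z
  change ∑' m, F.indicator g z * D.indicator 1 (z - lam m) ≤ F.indicator g z
  rw [ENNReal.tsum_mul_left]
  have : ∑' m, D.indicator (1 : E 2 → ℝ≥0∞) (z - lam m) ≤ 1 := by
    by_cases hex : ∃ m, z - lam m ∈ D
    · obtain ⟨m, hm⟩ := hex
      rw [tsum_eq_single m]
      · rw [indicator_of_mem hm]; simp
      · intro m' hm'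
        apply indicator_of_notMem
        intro h
        exact hm' (hDl m' m z h hm)
    · push Not at hex
      have : ∀ m, D.indicator (1 : E 2 → ℝ≥0∞) (z - lam m) = 0 :=
        fun m => indicator_of_notMem (hex m) _
      simp [this]
  calc F.indicator g z * _ ≤ F.indicator g z * 1 := by gcongr
    _ = _ := mul_one _

end Pool.Agent.Y479.PG
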