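import Pool.Agent.H655R3.PerMeas
import Pool.Agent.H655R3.PerTop

/-!
# Surface measure in every dimension: isometric and 1-Lipschitz parametrisations

Generalises `Pool/Agent/H655R3/PerMeas.lean` (the case `n = 3`).
-/

set_option autoImplicit false

open MeasureTheory Set Filter Topology

open scoped ENNReal NNReal

namespace Pool.Agent.Y479.PG

open Pool.Agent.H655R3.Per

lemma hausdorff_E (p : ℕ) : ∃ κ : ℝ≥0∞, κ ≠ 0 ∧ κ ≠ ∞ ∧
    (μH[((p + 1 - 1 : ℕ) : ℝ)] : Measure (E p)) = κ • volume ∧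
    (μH[((p + 1 - 1 : ℕ) : ℝ)] : Measure (E (p + 1 - 1))) (unitCube (p + 1 - 1)) = κ := by
  have h2 : (((p + 1 - 1 : ℕ) : ℝ)) = (Module.finrank ℝ (E p) : ℝ) := by simp
  have hH : (μH[((p + 1 - 1 : ℕ) : ℝ)] : Measure (E p)).IsAddHaarMeasure := by
    rw [h2]
    infer_instance
  have hκ := Measure.isAddLeftInvariant_eq_smul
    (μH[((p + 1 - 1 : ℕ) : ℝ)] : Measure (E p)) volume
  have hpos := Measure.addHaarScalarFactor_pos_of_isAddHaarMeasure
    (μH[((p + 1 - 1 : ℕ) : ℝ)] : Measure (E p)) volume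
  set κ : ℝ≥0 := Measure.addHaarScalarFactor
    (μH[((p + 1 - 1 : ℕ) : ℝ)] : Measure (E p)) volume with hκdef
  refine ⟨(κ : ℝ≥0∞), by simpa using hpos.ne', ENNReal.coe_ne_top, ?_, ?_⟩
  · rw [hκ]
    rfl
  · change (μH[((p + 1 - 1 : ℕ) : ℝ)] : Measure (E p)) (unitCube p) = κ
    rw [hκ, Measure.smul_apply, volume_unitCube]
    simp [ENNReal.smul_def]

/-- The surface measure of a parametrised isometric hyperplane. -/
lemma surf_isometry (p : ℕ) (T : E p → E (p + 1)) (hT : Isometry T) (G : E (p + 1) → ℝ≥0∞)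
    (hG : Measurable G) :
    ∫⁻ x in range T, G x ∂(surfaceMeasure (p + 1)) = ∫⁻ y, G (T y) := by
  obtain ⟨κ, h0, htop, hκ, hc⟩ := hausdorff_E p
  unfold surfaceMeasure
  rw [hc, Measure.restrict_smul, lintegral_smul_measure,
    ← hT.map_hausdorffMeasure (Or.inl (by positivity)), hκ,
    lintegral_map hG hT.continuous.measurable, lintegral_smul_measure, smul_eq_mul, smul_eq_mul,
    ← mul_assoc, ENNReal.inv_mul_cancel h0 htop, one_mul]

/-- The surface measure of the image of a 1-Lipschitz parametrisation. -/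
lemma surf_lipschitz (p : ℕ) (f : E p → E (p + 1)) (hf : LipschitzWith 1 f)
    (G : E (p + 1) → ℝ≥0∞) (hG : Measurable G) :
    ∫⁻ x in range f, G x ∂(surfaceMeasure (p + 1)) ≤ ∫⁻ y, G (f y) := by
  obtain ⟨κ, h0, htop, hκ, hc⟩ := hausdorff_E p
  have hle : (μH[((p + 1 - 1 : ℕ) : ℝ)] : Measure (E (p + 1))).restrict (range f) ≤
      (μH[((p + 1 - 1 : ℕ) : ℝ)] : Measure (E p)).map f := by
    rw [Measure.le_iff]
    intro A hA
    rw [Measure.restrict_apply hA, Measure.map_apply hf.continuous.measurable hA]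
    have : A ∩ range f = f '' (f ⁻¹' A) := by
      rw [image_preimage_eq_inter_range]
    rw [this]
    calc _ ≤ ((1 : ℝ≥0) : ℝ≥0∞) ^ (((p + 1 - 1 : ℕ) : ℝ)) *
          (μH[((p + 1 - 1 : ℕ) : ℝ)] : Measure (E p)) (f ⁻¹' A) :=
            hf.hausdorffMeasure_image_le (by positivity) _
      _ = _ := by simp
  unfold surfaceMeasure
  rw [hc, Measure.restrict_smul, lintegral_smul_measure]
  calc κ⁻¹ • ∫⁻ x in range f, G x ∂(μH[((p + 1 - 1 : ℕ) : ℝ)] : Measure (E (p + 1)))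
      ≤ κ⁻¹ • ∫⁻ x, G x ∂((μH[((p + 1 - 1 : ℕ) : ℝ)] : Measure (E p)).map f) := by
        simp only [smul_eq_mul]
        gcongr
    _ = ∫⁻ y, G (f y) := by
        rw [lintegral_map hG hf.continuous.measurable, hκ, lintegral_smul_measure, smul_eq_mul,
          smul_eq_mul, ← mul_assoc, ENNReal.inv_mul_cancel h0 htop, one_mul]

/-- all coordinates but the first -/
noncomputable def tl {q : ℕ} (y : E (q + 1)) : E q := WithLp.toLp 2 (fun j => y j.succ)

lemma tl_apply {q : ℕ} (y : E (q + 1)) (j : Fin q) : tl y j = y j.succ := rfl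

lemma tl_sub {q : ℕ} (y z : E (q + 1)) : tl (y - z) = tl y - tl z := by
  ext j; simp [tl_apply]

lemma normsq_succ {q : ℕ} (y : E (q + 1)) : ‖y‖ ^ 2 = (y 0) ^ 2 + ‖tl y‖ ^ 2 := by
  rw [EuclideanSpace.norm_sq_eq, EuclideanSpace.norm_sq_eq, Fin.sum_univ_succ]
  simp only [Real.norm_eq_abs, sq_abs, tl_apply]

/-- `∫ f(y₀) g(y₁, …, y_q) dy = (∫ f) (∫ g)` -/
lemma lintegral_split {q : ℕ} (f : ℝ → ℝ≥0∞) (g : E q → ℝ≥0∞) (hf : Measurable f)
    (hg : Measurable g) :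
    ∫⁻ y : E (q + 1), f (y 0) * g (tl y) = (∫⁻ s, f s) * ∫⁻ z, g z := by
  have hg' : Measurable fun z : Fin q → ℝ => g (WithLp.toLp 2 z) :=
    hg.comp (PiLp.volume_preserving_toLp (Fin q)).measurable
  have hF : Measurable fun p : ℝ × (Fin q → ℝ) => f p.1 * g (WithLp.toLp 2 p.2) :=
    (hf.comp measurable_fst).mul (hg'.comp measurable_snd)
  have h2 := volume_preserving_piFinSuccAbove (fun _ : Fin (q + 1) => ℝ) 0
  have h1 := PiLp.volume_preserving_ofLp (Fin (q + 1))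
  have h3 := (h2.comp h1).lintegral_comp hF
  have h4 : ∫⁻ z : Fin q → ℝ, g (WithLp.toLp 2 z) = ∫⁻ z : E q, g z :=
    (PiLp.volume_preserving_toLp (Fin q)).lintegral_comp hg
  rw [← h4, ← lintegral_prod_mul hf.aemeasurable hg'.aemeasurable]
  exact h3

lemma lintegral_gauss (q : ℕ) : ∫⁻ z : E q, ENNReal.ofReal (Real.exp (-(‖z‖ ^ 2 / 2))) =
    ENNReal.ofReal ((2 * Real.pi) ^ ((q : ℝ) / 2)) := by
  have hpi := Real.pi_pos
  have h : ∀ z : E q, Real.exp (-(‖z‖ ^ 2 / 2)) = Real.exp (-(1 / 2) * ‖z‖ ^ 2) := by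
    intro z; congr 1; ring
  have hv := GaussianFourier.integral_rexp_neg_mul_sq_norm (V := E q) (b := 1 / 2) (by norm_num)
  have hv' : (Real.pi / (1 / 2)) ^ ((Module.finrank ℝ (E q) : ℝ) / 2) =
      (2 * Real.pi) ^ ((q : ℝ) / 2) := by
    rw [finrank_euclideanSpace_fin]
    congr 1
    ring
  rw [hv'] at hv
  have hi : Integrable fun z : E q => Real.exp (-(1 / 2) * ‖z‖ ^ 2) := by
    by_contra hni
    rw [integral_undef hni] at hv
    have : 0 < (2 * Real.pi) ^ ((q : ℝ) / 2) := by positivity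
    linarith
  simp_rw [h]
  rw [← ofReal_integral_eq_lintegral_ofReal hi (Eventually.of_forall fun t => (Real.exp_pos _).le),
    hv]

lemma exists_isom (p : ℕ) (w : E (p + 1)) (hw : w ≠ 0) :
    ∃ L : E p →ₗᵢ[ℝ] E (p + 1), ∀ x, x ∈ range L ↔ inner ℝ w x = 0 := by
  have : Fact (Module.finrank ℝ (E (p + 1)) = p + 1) := ⟨finrank_euclideanSpace_fin⟩
  let b := OrthonormalBasis.fromOrthogonalSpanSingleton (𝕜 := ℝ) p hw
  refine ⟨(Submodule.subtypeₗᵢ _).comp b.repr.symm.toLinearIsometry, fun x => ?_⟩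
  rw [← Submodule.mem_orthogonal_singleton_iff_inner_right]
  constructor
  · rintro ⟨y, rfl⟩
    exact (b.repr.symm y).2
  · intro hx
    refine ⟨b.repr ⟨x, hx⟩, ?_⟩
    simp

end Pool.Agent.Y479.PG
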