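import Pool.Agent.Y479.PG.Curve
import Pool.Agent.Y479.PG.Meas

/-!
# The Gaussian surface area of the periodic half spaces in every dimension
-/

set_option autoImplicit false

open MeasureTheory Set Filter Topology

open scoped ENNReal NNReal

namespace Pool.Agent.Y479.PG

open Pool.Agent.H655R3.Per

/-- the dimension `n = q + 2` as a real number -/
noncomputable def nr (q : ℕ) : ℝ := (q : ℝ) + 2

lemma nr_ge (q : ℕ) (hq : 1 ≤ q) : 3 ≤ nr q := by
  have : (1 : ℝ) ≤ q := by exact_mod_cast hq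
  unfold nr
  linarith

/-- the constant -/
noncomputable def Cn (q : ℕ) : ℝ := (2 * Real.pi) ^ (-((q + 1 + 1 : ℕ) : ℝ) / 2)

lemma Cn_pos (q : ℕ) : 0 < Cn q := by unfold Cn; positivity

noncomputable def c0 (q : ℕ) : ℝ :=
  Cn q * (2 * Real.pi) ^ ((q : ℝ) / 2) * √(nr q / (nr q - 1))

lemma c0_pos (q : ℕ) : 0 < c0 q := by
  unfold c0
  have h1 := Cn_pos q
  have h2 : 0 < nr q - 1 := by unfold nr; have : (0 : ℝ) ≤ q := by positivity
                               linarith
  have h3 : 0 < nr q := by linarith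
  positivity

lemma gauss_meas (p : ℕ) : Measurable fun x : E p => ENNReal.ofReal (gaussDensity p x) := by
  unfold gaussDensity
  fun_prop

lemma sq_sign {s : ℝ} (h : s = 1 ∨ s = -1) : s ^ 2 = 1 := by
  rcases h with h | h <;> rw [h] <;> norm_num

lemma inner_toLp {p : ℕ} (ε : Fin p → ℝ) (x : E p) :
    inner ℝ (WithLp.toLp 2 ε : E p) x = ∑ i, ε i * x i := by
  rw [PiLp.inner_apply]
  apply Finset.sum_congr rfl
  intro i _
  simp [mul_comm]

lemma sign_normsq {p : ℕ} (ε : Fin p → ℝ) (hε : ∀ i, ε i = 1 ∨ ε i = -1) :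
    ‖(WithLp.toLp 2 ε : E p)‖ ^ 2 = (p : ℝ) := by
  rw [EuclideanSpace.norm_sq_eq]
  have : ∀ i, ‖(WithLp.toLp 2 ε : E p) i‖ ^ 2 = 1 := by
    intro i
    rw [Real.norm_eq_abs, sq_abs]
    exact sq_sign (hε i)
  rw [Finset.sum_congr rfl (fun i _ => this i)]
  simp

/-- isometric parametrisation of a hyperplane -/
lemma plane_param (p : ℕ) (ε : Fin (p + 1) → ℝ) (hε : ∀ i, ε i = 1 ∨ ε i = -1) (k : ℝ) :
    ∃ T : E p → E (p + 1), Isometry T ∧ range T = {x : E (p + 1) | ∑ i, ε i * x i = k} ∧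
      ∀ y, ‖T y‖ ^ 2 = k ^ 2 / (p + 1) + ‖y‖ ^ 2 := by
  set w : E (p + 1) := WithLp.toLp 2 ε with hw
  have hwn : ‖w‖ ^ 2 = (p : ℝ) + 1 := by
    have := sign_normsq ε hε
    push_cast at this
    exact this
  have hp : (0 : ℝ) < p + 1 := by positivity
  have hw0 : w ≠ 0 := by
    intro h
    rw [h, norm_zero] at hwn
    norm_num at hwn
    linarith
  obtain ⟨L, hL⟩ := exists_isom p w hw0
  refine ⟨fun y => (k / (p + 1)) • w + L y, ?_, ?_, ?_⟩
  · refine Isometry.of_dist_eq fun y z => ?_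
    rw [dist_add_left, L.dist_map]
  · ext x
    rw [mem_ofPred_eq, ← inner_toLp, ← hw]
    have key : x ∈ range (fun y => (k / (p + 1)) • w + L y) ↔ x - (k / (p + 1)) • w ∈ range L := by
      constructor
      · rintro ⟨y, rfl⟩
        exact ⟨y, by simp⟩
      · rintro ⟨y, hy⟩
        exact ⟨y, by simp [hy]⟩
    rw [key, hL, inner_sub_right, inner_smul_right, real_inner_self_eq_norm_sq, hwn,
      div_mul_cancel₀ _ hp.ne', sub_eq_zero]
  · intro y
    have h1 : inner ℝ w (L y) = 0 := (hL _).1 ⟨y, rfl⟩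
    have h2 := norm_add_sq_real ((k / (p + 1)) • w) (L y)
    rw [h2, inner_smul_left, h1, norm_smul, mul_pow, hwn, L.norm_map, Real.norm_eq_abs, sq_abs]
    field_simp
    simp

lemma plane_area_eq (q : ℕ) (ε : Fin (q + 1 + 1) → ℝ) (hε : ∀ i, ε i = 1 ∨ ε i = -1) (k : ℝ) :
    ∫⁻ x in {x : E (q + 1 + 1) | ∑ i, ε i * x i = k},
      ENNReal.ofReal (gaussDensity (q + 1 + 1) x) ∂(surfaceMeasure (q + 1 + 1)) =
        ENNReal.ofReal (c0 q * alphaK (nr q) k) := by
  obtain ⟨T, hT, hr, hn⟩ := plane_param (q + 1) ε hε k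
  rw [← hr, surf_isometry (q + 1) T hT _ (gauss_meas _)]
  have hC := Cn_pos q
  have hnr : ((q + 1 : ℕ) : ℝ) + 1 = nr q := by unfold nr; push_cast; ring
  have hq0 : (0 : ℝ) ≤ q := by positivity
  have hn0 : 0 < nr q := by unfold nr; positivity
  have hn1 : 0 < nr q - 1 := by unfold nr; linarith
  have h : ∀ y : E (q + 1), ENNReal.ofReal (gaussDensity (q + 1 + 1) (T y)) =
      ENNReal.ofReal (Cn q * Real.exp (-(k ^ 2 / (2 * nr q)))) *
      ENNReal.ofReal (Real.exp (-(‖y‖ ^ 2 / 2))) := by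
    intro y
    rw [← ENNReal.ofReal_mul (by positivity)]
    congr 1
    unfold gaussDensity
    rw [hn, mul_assoc, ← Real.exp_add, hnr]
    unfold Cn
    congr 2
    field_simp
    ring
  simp_rw [h]
  rw [lintegral_const_mul _ (by fun_prop), lintegral_gauss, ← ENNReal.ofReal_mul (by positivity)]
  congr 1
  unfold c0 alphaK bb
  have hpi := Real.pi_pos
  have e : √(nr q / (nr q - 1)) * √(Real.pi / (nr q / (2 * (nr q - 1)))) = √(2 * Real.pi) := by
    rw [← Real.sqrt_mul (by positivity)]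
    congr 1
    field_simp
  have e2 : (2 * Real.pi) ^ (((q + 1 : ℕ) : ℝ) / 2) = (2 * Real.pi) ^ ((q : ℝ) / 2) *
      √(2 * Real.pi) := by
    rw [Real.sqrt_eq_rpow, ← Real.rpow_add (by positivity)]
    congr 1
    push_cast
    ring
  rw [e2, ← e]
  ring

/-- the direction in which the linear form has slope one -/
lemma lin_dir {p : ℕ} (ε : Fin (p + 1) → ℝ) (hε : ∀ i, ε i = 1 ∨ ε i = -1)
    (x : E (p + 1)) (t : ℝ) :
    ∑ i, ε i * (x + t • (ε 0 • v 0 : E (p + 1))) i = ∑ i, ε i * x i + t := by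
  have h0 := sq_sign (hε 0)
  simp only [v, PiLp.add_apply, PiLp.smul_apply, smul_eq_mul, mul_add, Finset.sum_add_distrib]
  congr 1
  rw [Finset.sum_eq_single 0]
  · simp
    linear_combination t * h0
  · intro j _ hj
    simp [hj]
  · simp

lemma halfSpace_frontier {p : ℕ} (ε : Fin (p + 1) → ℝ) (hε : ∀ i, ε i = 1 ∨ ε i = -1) :
    frontier (halfSpace ε) = {x : E (p + 1) | ∃ k : ℤ, ∑ i, ε i * x i = k} := by
  unfold halfSpace
  exact frontier_eq (fun x : E (p + 1) => ∑ i, ε i * x i) (by fun_prop) (ε 0 • v 0)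
    (lin_dir ε hε)

lemma halfSpace_periodic {p : ℕ} (ε : Fin (p + 1) → ℝ) (hε : ∀ i, ε i = 1 ∨ ε i = -1) :
    IsPeriodic (halfSpace ε) := by
  unfold halfSpace
  refine isPeriodic_of (fun x : E (p + 1) => ∑ i, ε i * x i) (by fun_prop) (ε 0 • v 0)
    (lin_dir ε hε) ?_ ?_
  · intro x
    simp
  · intro x i
    have : ∑ j, ε j * (x - v i) j = ∑ j, ε j * x j - ε i := by
      simp only [PiLp.sub_apply, mul_sub, Finset.sum_sub_distrib]
      congr 1
      rw [Finset.sum_eq_single i]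
      · simp [v]
      · intro j _ hj
        simp [v, hj]
      · simp
    simp only [this]
    rcases hε i with h | h <;> rw [h]
    · left; rfl
    · right; ring

lemma halfSpace_area (q : ℕ) (ε : Fin (q + 1 + 1) → ℝ) (hε : ∀ i, ε i = 1 ∨ ε i = -1) :
    gaussianSurfaceArea (halfSpace ε) =
      ∑' k : ℤ, ENNReal.ofReal (c0 q * alphaK (nr q) k) := by
  unfold gaussianSurfaceArea
  rw [halfSpace_frontier ε hε]
  have hU : {x : E (q + 1 + 1) | ∃ k : ℤ, ∑ i, ε i * x i = k} =
      ⋃ k : ℤ, {x : E (q + 1 + 1) | ∑ i, ε i * x i = k} := by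
    ext x; simp
  rw [hU, lintegral_iUnion]
  · exact tsum_congr fun k => plane_area_eq q ε hε k
  · intro k
    exact (isClosed_eq (by fun_prop) continuous_const).measurableSet
  · intro k l hkl
    rw [Function.onFun, Set.disjoint_left]
    intro x hx hy
    apply hkl
    have : (k : ℝ) = l := by
      rw [mem_ofPred_eq] at hx hy
      rw [← hx, ← hy]
    exact_mod_cast this

lemma summable_exp_sq (c : ℝ) (hc : 0 < c) :
    Summable fun k : ℤ => Real.exp (-(c * (k : ℝ) ^ 2)) := by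
  have h1 : Summable fun k : ℤ => Real.exp (-(c * |(k : ℝ)|)) := by
    have h2 : Summable fun k : ℕ => Real.exp (-(c * |((k : ℤ) : ℝ)|)) := by
      have h3 : Summable fun k : ℕ => Real.exp ((k : ℝ) * (-c)) :=
        Real.summable_exp_nat_mul_iff.2 (by linarith)
      refine h3.congr fun k => ?_
      congr 1
      push_cast
      rw [abs_of_nonneg (by positivity : (0 : ℝ) ≤ k)]
      ring
    refine Summable.of_nat_of_neg h2 ?_
    refine h2.congr fun k => ?_
    congr 3
    push_cast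
    rw [abs_neg]
  refine Summable.of_nonneg_of_le (fun k => (Real.exp_pos _).le) (fun k => ?_) h1
  apply Real.exp_le_exp.2
  have h4 : |(k : ℝ)| ≤ (k : ℝ) ^ 2 := by
    rw [← Int.cast_abs]
    have : |k| ≤ k ^ 2 := by
      rw [← sq_abs]
      exact Int.le_self_sq _
    exact_mod_cast this
  have := mul_le_mul_of_nonneg_left h4 hc.le
  linarith

lemma summable_alpha (n : ℝ) (hn : 0 < n) : Summable fun k : ℤ => alphaK n k := by
  have := (summable_exp_sq (1 / (2 * n)) (by positivity)).mul_right √(Real.pi / bb n)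
  refine this.congr fun k => ?_
  unfold alphaK
  congr 2
  ring

lemma halfSpace_area_lt_top (q : ℕ) (ε : Fin (q + 1 + 1) → ℝ) (hε : ∀ i, ε i = 1 ∨ ε i = -1) :
    gaussianSurfaceArea (halfSpace ε) < ∞ := by
  rw [halfSpace_area q ε hε]
  have hc0 := c0_pos q
  have sα := summable_alpha (nr q) (by unfold nr; positivity)
  have hαnn : ∀ k : ℤ, 0 ≤ alphaK (nr q) k := fun k => by unfold alphaK; positivity
  rw [← ENNReal.ofReal_tsum_of_nonneg (fun k : ℤ => mul_nonneg hc0.le (hαnn k)) (sα.mul_left _)]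
  exact ENNReal.ofReal_lt_top

end Pool.Agent.Y479.PG
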