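import Mathlib

/-!
# The distance-like function in dimension two
-/

set_option autoImplicit false

open MeasureTheory Set Filter Topology

namespace Pool.Agent.Y479.PG

/-- hypotheses on the one dimensional weight -/
structure Wt (ω : ℝ → ℝ) : Prop where
  even : ∀ x, ω (-x) = ω x
  lo : ∀ x, 99 / 100 ≤ ω x
  hi : ∀ x, ω x ≤ 101 / 100
  lip : ∀ x y, |ω x - ω y| ≤ 1 / 100 * |x - y|

/-- the primitive of the squared weight -/
noncomputable def PP (ω : ℝ → ℝ) (x : ℝ) : ℝ := ∫ s in (0 : ℝ)..x, ω s ^ 2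

variable {ω : ℝ → ℝ} (hω : Wt ω)
include hω

lemma Wt.cont : Continuous ω := by
  have : LipschitzWith (1 / 100) ω := by
    refine LipschitzWith.of_dist_le_mul fun x y => ?_
    rw [Real.dist_eq, Real.dist_eq]
    simpa using hω.lip x y
  exact this.continuous

lemma Wt.sq_lo (x : ℝ) : 98 / 100 ≤ ω x ^ 2 := by
  nlinarith [hω.lo x]

lemma Wt.sq_hi (x : ℝ) : ω x ^ 2 ≤ 103 / 100 := by
  nlinarith [hω.lo x, hω.hi x]

lemma Wt.sq_lip (x y : ℝ) : |ω x ^ 2 - ω y ^ 2| ≤ 3 / 100 * |x - y| := by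
  have h1 := hω.lip x y
  have h2 : ω x ^ 2 - ω y ^ 2 = (ω x + ω y) * (ω x - ω y) := by ring
  have h3 : |ω x + ω y| ≤ 202 / 100 := by
    rw [abs_le]
    constructor <;> linarith [hω.lo x, hω.hi x, hω.lo y, hω.hi y]
  rw [h2, abs_mul]
  have := abs_nonneg (x - y)
  calc |ω x + ω y| * |ω x - ω y| ≤ 202 / 100 * (1 / 100 * |x - y|) := by gcongr
    _ ≤ _ := by nlinarith

lemma PP_sub (a b : ℝ) : PP ω b - PP ω a = ∫ s in a..b, ω s ^ 2 := by
  have hc := hω.cont
  have hi : ∀ u w : ℝ, IntervalIntegrable (fun s => ω s ^ 2) volume u w :=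
    fun u w => (by fun_prop : Continuous fun s => ω s ^ 2).intervalIntegrable u w
  unfold PP
  exact intervalIntegral.integral_interval_sub_left (hi 0 b) (hi 0 a)

lemma PP_bd (a b lo hi : ℝ) (hab : a ≤ b) (h : ∀ s ∈ Icc a b, lo ≤ ω s ^ 2 ∧ ω s ^ 2 ≤ hi) :
    lo * (b - a) ≤ PP ω b - PP ω a ∧ PP ω b - PP ω a ≤ hi * (b - a) := by
  have hc := hω.cont
  have hii : IntervalIntegrable (fun s => ω s ^ 2) volume a b :=
    (by fun_prop : Continuous fun s => ω s ^ 2).intervalIntegrable a b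
  rw [PP_sub hω]
  constructor
  · have := intervalIntegral.integral_mono_on hab (by simp) hii (fun s hs => (h s hs).1)
    simpa [mul_comm] using this
  · have := intervalIntegral.integral_mono_on hab hii (by simp) (fun s hs => (h s hs).2)
    simpa [mul_comm] using this

lemma PP_growth (a b : ℝ) (hab : a ≤ b) :
    98 / 100 * (b - a) ≤ PP ω b - PP ω a ∧ PP ω b - PP ω a ≤ 103 / 100 * (b - a) :=
  PP_bd hω a b _ _ hab fun s _ => ⟨hω.sq_lo s, hω.sq_hi s⟩

omit hω in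
lemma PP_zero' : PP ω 0 = 0 := by simp [PP]

lemma PP_neg (x : ℝ) : PP ω (-x) = - PP ω x := by
  unfold PP
  have h := intervalIntegral.integral_comp_neg (fun s => ω s ^ 2) (a := 0) (b := x)
  simp only [hω.even, neg_zero] at h
  rw [h, intervalIntegral.integral_symm]

lemma PP_strictMono : StrictMono (PP ω) := by
  intro a b hab
  have := (PP_growth hω a b hab.le).1
  nlinarith

lemma PP_abs (x : ℝ) : |PP ω x| = PP ω |x| := by
  have hm := (PP_strictMono hω).monotone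
  have h0 := PP_zero' (ω := ω)
  rcases le_total 0 x with h | h
  · rw [abs_of_nonneg h, abs_of_nonneg]
    rw [← h0]; exact hm h
  · rw [abs_of_nonpos h, PP_neg hω, abs_of_nonpos]
    rw [← h0]; exact hm h

lemma PP_cont : Continuous (PP ω) := by
  have hc := hω.cont
  exact intervalIntegral.continuous_primitive
    (fun a b => (by fun_prop : Continuous fun s => ω s ^ 2).intervalIntegrable a b) 0

lemma PP_surj : Function.Surjective (PP ω) := by
  have h0 := PP_zero' (ω := ω)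
  refine (PP_cont hω).surjective ?_ ?_
  · refine tendsto_atTop_mono' _ ?_
      ((tendsto_id (α := ℝ)).const_mul_atTop (by norm_num : (0 : ℝ) < 98 / 100))
    filter_upwards [eventually_ge_atTop 0] with x hx
    have := (PP_growth hω 0 x hx).1
    rw [h0] at this
    simp only [id]
    linarith
  · refine tendsto_atBot_mono' _ ?_
      ((tendsto_id (α := ℝ)).const_mul_atBot (by norm_num : (0 : ℝ) < 98 / 100))
    filter_upwards [eventually_le_atBot 0] with x hx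
    have := (PP_growth hω x 0 hx).1
    rw [h0] at this
    simp only [id]
    linarith

lemma PP_lip (x x' δ : ℝ) (hδ : |x - x'| ≤ δ) :
    |PP ω x - PP ω x'| ≤ (1 + δ) * (ω x ^ 2 * |x - x'|) := by
  have hb : ∀ s, |s - x| ≤ δ → 0 ≤ ω s ^ 2 ∧ ω s ^ 2 ≤ ω x ^ 2 + 3 / 100 * δ := by
    intro s hs
    have h1 := hω.sq_lip s x
    have h2 := (le_abs_self _).trans h1
    exact ⟨by positivity, by linarith⟩
  have hlo := hω.sq_lo x
  have hδ0 : 0 ≤ δ := (abs_nonneg _).trans hδ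
  have hfin : ∀ t : ℝ, 0 ≤ t → (ω x ^ 2 + 3 / 100 * δ) * t ≤ (1 + δ) * (ω x ^ 2 * t) := by
    intro t ht
    have h1 : 3 / 100 * δ ≤ δ * ω x ^ 2 := by nlinarith
    have h2 := mul_le_mul_of_nonneg_right h1 ht
    nlinarith
  rcases le_total x x' with h | h
  · obtain ⟨h1, h2⟩ := PP_bd hω x x' 0 (ω x ^ 2 + 3 / 100 * δ) h (fun s hs => hb s (by
      rw [abs_of_nonneg (by linarith [hs.1])]
      rw [abs_of_nonpos (by linarith)] at hδ
      linarith [hs.2]))
    rw [abs_sub_comm, abs_of_nonneg (by linarith), abs_sub_comm, abs_of_nonneg (by linarith)]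
    exact h2.trans (hfin _ (by linarith))
  · obtain ⟨h1, h2⟩ := PP_bd hω x' x 0 (ω x ^ 2 + 3 / 100 * δ) h (fun s hs => hb s (by
      rw [abs_of_nonpos (by linarith [hs.2])]
      rw [abs_of_nonneg (by linarith)] at hδ
      linarith [hs.1]))
    rw [abs_of_nonneg (by linarith), abs_of_nonneg (by linarith)]
    exact h2.trans (hfin _ (by linarith))

omit hω in
lemma key_ineq (s a b α β : ℝ) (hs : 0 ≤ s) (hs2 : s ^ 2 = 1 / 2) (ha : 98 / 100 ≤ a)
    (ha' : a ≤ 103 / 100) (hb : 98 / 100 ≤ b) (hb' : b ≤ 103 / 100) (hα : 0 ≤ α) (hβ : 0 ≤ β)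
    (hαβ : α ^ 2 + β ^ 2 = 1) (h : |a - b| ≤ 1 / 10 * |α - β|) :
    (α + s) ^ 2 * a ^ 2 + (β + s) ^ 2 * b ^ 2 ≤ 4 * (a * b) := by
  set d := α - β with hd
  have hαβ0 : 0 ≤ α * β := mul_nonneg hα hβ
  have hd2 : d ^ 2 ≤ 1 := by
    have : d ^ 2 = (α ^ 2 + β ^ 2) - 2 * (α * β) := by rw [hd]; ring
    rw [this, hαβ]; linarith
  have hsum : (α + β) ^ 2 = 2 - d ^ 2 := by
    have : (α + β) ^ 2 = 2 * (α ^ 2 + β ^ 2) - d ^ 2 := by rw [hd]; ring
    rw [this, hαβ]; ring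
  have hs1 : s ≤ 71 / 100 := by
    apply le_of_sq_le_sq _ (by norm_num)
    rw [hs2]; norm_num
  have hab1 : α + β ≤ 142 / 100 := by
    apply le_of_sq_le_sq _ (by norm_num)
    rw [hsum]; nlinarith [sq_nonneg d]
  have h1 : 2 * s * (α + β) ≤ 2 - d ^ 2 / 2 := by
    apply le_of_sq_le_sq _ (by linarith)
    have : (2 * s * (α + β)) ^ 2 = 4 * s ^ 2 * (α + β) ^ 2 := by ring
    rw [this, hs2, hsum]
    nlinarith [sq_nonneg (d ^ 2)]
  have h2 : (α + s) ^ 2 + (β + s) ^ 2 ≤ 4 - d ^ 2 / 2 := by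
    have : (α + s) ^ 2 + (β + s) ^ 2 = (α ^ 2 + β ^ 2) + 2 * s * (α + β) + 2 * s ^ 2 := by ring
    rw [this, hαβ, hs2]
    linarith
  have h3 : |(α + s) ^ 2 - (β + s) ^ 2| ≤ 3 * |d| := by
    have : (α + s) ^ 2 - (β + s) ^ 2 = (α + β + 2 * s) * d := by rw [hd]; ring
    rw [this, abs_mul]
    gcongr
    rw [abs_of_nonneg (by positivity)]
    linarith
  have h4 : |a ^ 2 - b ^ 2| ≤ 206 / 1000 * |d| := by
    have : a ^ 2 - b ^ 2 = (a + b) * (a - b) := by ring
    rw [this, abs_mul, abs_of_nonneg (by linarith)]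
    calc (a + b) * |a - b| ≤ 206 / 100 * (1 / 10 * |d|) := by gcongr; linarith
      _ = _ := by ring
  have h5 : ((α + s) ^ 2 - (β + s) ^ 2) * (a ^ 2 - b ^ 2) ≤ 618 / 1000 * d ^ 2 := by
    calc ((α + s) ^ 2 - (β + s) ^ 2) * (a ^ 2 - b ^ 2)
        ≤ |((α + s) ^ 2 - (β + s) ^ 2)| * |(a ^ 2 - b ^ 2)| := by
          rw [← abs_mul]; exact le_abs_self _
      _ ≤ (3 * |d|) * (206 / 1000 * |d|) := by gcongr
      _ = 618 / 1000 * |d| ^ 2 := by ring
      _ = _ := by rw [sq_abs]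
  have h6 : (a - b) ^ 2 ≤ 1 / 100 * d ^ 2 := by
    rw [← sq_abs (a - b), ← sq_abs d]
    calc |a - b| ^ 2 ≤ (1 / 10 * |d|) ^ 2 := by gcongr
      _ = _ := by ring
  have h7 : ((α + s) ^ 2 + (β + s) ^ 2) * (a ^ 2 + b ^ 2) ≤
      (4 - d ^ 2 / 2) * (a ^ 2 + b ^ 2) := by gcongr
  have h8 : 192 / 100 ≤ a ^ 2 + b ^ 2 := by nlinarith
  have h9 : d ^ 2 * (192 / 100) ≤ d ^ 2 * (a ^ 2 + b ^ 2) := by gcongr
  have e1 : (α + s) ^ 2 * a ^ 2 + (β + s) ^ 2 * b ^ 2 =
      (((α + s) ^ 2 + (β + s) ^ 2) * (a ^ 2 + b ^ 2) +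
        ((α + s) ^ 2 - (β + s) ^ 2) * (a ^ 2 - b ^ 2)) / 2 := by ring
  have e2 : 4 * (a * b) = 2 * (a ^ 2 + b ^ 2) - 2 * (a - b) ^ 2 := by ring
  have e3 : (4 - d ^ 2 / 2) * (a ^ 2 + b ^ 2) =
      4 * (a ^ 2 + b ^ 2) - (d ^ 2 * (a ^ 2 + b ^ 2)) / 2 := by ring
  rw [e1, e2]
  rw [e3] at h7
  have := sq_nonneg d
  linarith

/-- the distance-like function -/
noncomputable def Sf (ω : ℝ → ℝ) (x y : ℝ) : ℝ :=
  (√(PP ω x ^ 2 + PP ω y ^ 2) + (|PP ω x| + |PP ω y|) / √2) / 2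

omit hω in
lemma Sf_nonneg (x y : ℝ) : 0 ≤ Sf ω x y := by unfold Sf; positivity

lemma ratio_bound (x y : ℝ) (hx : |x| ≤ 1 / 2) (hy : |y| ≤ 1 / 2)
    (hR : 0 < √(PP ω x ^ 2 + PP ω y ^ 2)) :
    |ω x ^ 2 - ω y ^ 2| ≤ 1 / 10 * |(|PP ω x| / √(PP ω x ^ 2 + PP ω y ^ 2)) -
      (|PP ω y| / √(PP ω x ^ 2 + PP ω y ^ 2))| := by
  have h0 := PP_zero' (ω := ω)
  have habs : ∀ t, ω |t| = ω t := by
    intro t
    rcases abs_choice t with h | h <;> rw [h]
    exact hω.even t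
  have h1 : |ω x ^ 2 - ω y ^ 2| ≤ 3 / 100 * |(|x| - |y|)| := by
    rw [← habs x, ← habs y]
    exact hω.sq_lip _ _
  have hX := PP_growth hω 0 |x| (abs_nonneg _)
  have hY := PP_growth hω 0 |y| (abs_nonneg _)
  rw [h0] at hX hY
  have h2 : 98 / 100 * |(|x| - |y|)| ≤ |(|PP ω x| - |PP ω y|)| := by
    rw [PP_abs hω, PP_abs hω]
    rcases le_total |x| |y| with h | h
    · have := (PP_growth hω _ _ h).1
      rw [abs_sub_comm, abs_of_nonneg (by linarith)]
      refine this.trans ?_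
      rw [abs_sub_comm]
      exact le_abs_self _
    · have := (PP_growth hω _ _ h).1
      rw [abs_of_nonneg (by linarith)]
      exact this.trans (le_abs_self _)
  have h3 : √(PP ω x ^ 2 + PP ω y ^ 2) ≤ 1 := by
    rw [← sq_abs (PP ω x), ← sq_abs (PP ω y), PP_abs hω, PP_abs hω]
    have j1 : PP ω |x| ≤ 52 / 100 := by linarith [hX.2]
    have j2 : PP ω |y| ≤ 52 / 100 := by linarith [hY.2]
    have j3 : 0 ≤ PP ω |x| := by linarith [hX.1, abs_nonneg x]
    have j4 : 0 ≤ PP ω |y| := by linarith [hY.1, abs_nonneg y]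
    have j5 := pow_le_pow_left₀ j3 j1 2
    have j6 := pow_le_pow_left₀ j4 j2 2
    rw [Real.sqrt_le_left (by norm_num)]
    linarith
  rw [← sub_div, abs_div, abs_of_pos hR]
  have h4 : |(|PP ω x| - |PP ω y|)| ≤ |(|PP ω x| - |PP ω y|)| / √(PP ω x ^ 2 + PP ω y ^ 2) := by
    rw [le_div_iff₀ hR]
    have := abs_nonneg (|PP ω x| - |PP ω y|)
    nlinarith
  have := abs_nonneg (|x| - |y|)
  linarith

lemma Sf_lip (x y x' y' δ : ℝ) (hx : |x| ≤ 1 / 2) (hy : |y| ≤ 1 / 2)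
    (hxx : |x - x'| ≤ δ) (hyy : |y - y'| ≤ δ) :
    Sf ω x y - Sf ω x' y' ≤
      (1 + δ) * (ω x * ω y) * √((x - x') ^ 2 + (y - y') ^ 2) := by
  have hδ0 : 0 ≤ δ := (abs_nonneg _).trans hxx
  have hωx := hω.lo x
  have hωy := hω.lo y
  have hRnn := Real.sqrt_nonneg (PP ω x ^ 2 + PP ω y ^ 2)
  rcases hRnn.eq_or_lt with hR | hR
  · -- R = 0
    have h1 : PP ω x ^ 2 + PP ω y ^ 2 = 0 := by
      rw [eq_comm, Real.sqrt_eq_zero (by positivity)] at hR
      exact hR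
    have h2 : PP ω x = 0 := by nlinarith [sq_nonneg (PP ω x), sq_nonneg (PP ω y)]
    have h3 : PP ω y = 0 := by nlinarith [sq_nonneg (PP ω x), sq_nonneg (PP ω y)]
    have h4 : Sf ω x y = 0 := by unfold Sf; rw [h2, h3]; simp
    rw [h4]
    have h5 : 0 ≤ Sf ω x' y' := Sf_nonneg x' y'
    have h6 : 0 ≤ (1 + δ) * (ω x * ω y) * √((x - x') ^ 2 + (y - y') ^ 2) := by positivity
    linarith
  · have hrb := ratio_bound hω x y hx hy hR
    set R := √(PP ω x ^ 2 + PP ω y ^ 2) with hRdef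
    have hR2 : R ^ 2 = PP ω x ^ 2 + PP ω y ^ 2 := Real.sq_sqrt (by positivity)
    set R' := √(PP ω x' ^ 2 + PP ω y' ^ 2) with hRdef'
    set p := |PP ω x| with hp
    set q := |PP ω y| with hq
    set p' := |PP ω x'| with hp'
    set q' := |PP ω y'| with hq'
    set α := p / R with hα
    set β := q / R with hβ
    set s := 1 / √2 with hs
    have hs0 : 0 ≤ s := by positivity
    have hs2 : s ^ 2 = 1 / 2 := by
      rw [hs, div_pow, Real.sq_sqrt (by norm_num)]; norm_num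
    have hp0 : 0 ≤ p := abs_nonneg _
    have hq0 : 0 ≤ q := abs_nonneg _
    have hα0 : 0 ≤ α := by positivity
    have hβ0 : 0 ≤ β := by positivity
    have hpq : p ^ 2 + q ^ 2 = R ^ 2 := by rw [hp, hq, sq_abs, sq_abs, hR2]
    have hαβ : α ^ 2 + β ^ 2 = 1 := by
      rw [hα, hβ, div_pow, div_pow, ← add_div, hpq, div_self (by positivity)]
    have hkey := key_ineq s (ω x ^ 2) (ω y ^ 2) α β hs0 hs2 (hω.sq_lo x) (hω.sq_hi x)
      (hω.sq_lo y) (hω.sq_hi y) hα0 hβ0 hαβ hrb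
    have hCS : α * p' + β * q' ≤ R' := by
      refine (le_abs_self _).trans (Real.abs_le_sqrt ?_)
      rw [← sq_abs (PP ω x'), ← sq_abs (PP ω y')]
      have : (α * p' + β * q') ^ 2 + (α * q' - β * p') ^ 2 =
          (α ^ 2 + β ^ 2) * (p' ^ 2 + q' ^ 2) := by ring
      rw [hαβ, one_mul] at this
      have i0 := sq_nonneg (α * q' - β * p')
      linarith
    have hRR : α * p + β * q = R := by
      rw [hα, hβ]
      field_simp
      linarith
    have hpp : p - p' ≤ (1 + δ) * (ω x ^ 2 * |x - x'|) :=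
      (abs_sub_abs_le_abs_sub _ _).trans (PP_lip hω x x' δ hxx)
    have hqq : q - q' ≤ (1 + δ) * (ω y ^ 2 * |y - y'|) :=
      (abs_sub_abs_le_abs_sub _ _).trans (PP_lip hω y y' δ hyy)
    have hS : 2 * (Sf ω x y - Sf ω x' y') ≤ (α + s) * (p - p') + (β + s) * (q - q') := by
      have e1 : 2 * (Sf ω x y - Sf ω x' y') = (R - R') + s * ((p - p') + (q - q')) := by
        have eS : Sf ω x y = (R + (p + q) / √2) / 2 := rfl
        have eS' : Sf ω x' y' = (R' + (p' + q') / √2) / 2 := rfl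
        rw [eS, eS', hs]
        ring
      rw [e1]
      have e4 : (α + s) * (p - p') + (β + s) * (q - q') =
        (α * p + β * q) - (α * p' + β * q') + s * ((p - p') + (q - q')) := by ring
      rw [e4, hRR]
      linarith
    have hS2 : 2 * (Sf ω x y - Sf ω x' y') ≤
        (1 + δ) * ((α + s) * (ω x ^ 2 * |x - x'|) + (β + s) * (ω y ^ 2 * |y - y'|)) := by
      have i1 := mul_le_mul_of_nonneg_left hpp (by positivity : 0 ≤ α + s)
      have i2 := mul_le_mul_of_nonneg_left hqq (by positivity : 0 ≤ β + s)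
      have e3 : (1 + δ) * ((α + s) * (ω x ^ 2 * |x - x'|) + (β + s) * (ω y ^ 2 * |y - y'|)) =
        (α + s) * ((1 + δ) * (ω x ^ 2 * |x - x'|)) +
          (β + s) * ((1 + δ) * (ω y ^ 2 * |y - y'|)) := by ring
      rw [e3]
      linarith
    have hS3 : (α + s) * (ω x ^ 2 * |x - x'|) + (β + s) * (ω y ^ 2 * |y - y'|) ≤
        2 * (ω x * ω y) * √((x - x') ^ 2 + (y - y') ^ 2) := by
      apply le_of_sq_le_sq _ (by positivity)
      rw [mul_pow _ (√_), Real.sq_sqrt (by positivity), ← sq_abs (x - x'), ← sq_abs (y - y')]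
      set u := |x - x'|
      set w := |y - y'|
      have e : ((α + s) * (ω x ^ 2 * u) + (β + s) * (ω y ^ 2 * w)) ^ 2 +
          ((α + s) * ω x ^ 2 * w - (β + s) * ω y ^ 2 * u) ^ 2 =
          ((α + s) ^ 2 * (ω x ^ 2) ^ 2 + (β + s) ^ 2 * (ω y ^ 2) ^ 2) * (u ^ 2 + w ^ 2) := by ring
      have i1 := sq_nonneg ((α + s) * ω x ^ 2 * w - (β + s) * ω y ^ 2 * u)
      have i2 := mul_le_mul_of_nonneg_right hkey (by positivity : 0 ≤ u ^ 2 + w ^ 2)
      have e2 : (2 * (ω x * ω y)) ^ 2 = 4 * (ω x ^ 2 * ω y ^ 2) := by ring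
      rw [e2]
      linarith
    have hδ1 : 0 ≤ 1 + δ := by linarith
    have hfin := mul_le_mul_of_nonneg_left hS3 hδ1
    have e5 : (1 + δ) * (2 * (ω x * ω y) * √((x - x') ^ 2 + (y - y') ^ 2)) =
      2 * ((1 + δ) * (ω x * ω y) * √((x - x') ^ 2 + (y - y') ^ 2)) := by ring
    rw [e5] at hfin
    linarith

/-- the level sets of low level stay in the open diamond -/
lemma Sf_diamond (x y : ℝ) (h : Sf ω x y < √2 * PP ω (1 / 4)) : |x| + |y| < 1 / 2 := by
  by_contra hc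
  push Not at hc
  have hm := (PP_strictMono hω).monotone
  have h0 := PP_zero' (ω := ω)
  -- reduce to the boundary of the diamond
  obtain ⟨t, ht, htx, hty⟩ : ∃ t : ℝ, |t| ≤ 1 / 4 ∧ 1 / 4 + t ≤ |x| ∧ 1 / 4 - t ≤ |y| := by
    rcases le_total |x| (1 / 2) with hx | hx
    · refine ⟨|x| - 1 / 4, ?_, by linarith, by linarith⟩
      rw [abs_le]; constructor <;> linarith [abs_nonneg x]
    · refine ⟨1 / 4, ?_, by linarith, ?_⟩
      · rw [abs_of_nonneg] <;> norm_num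
      · linarith [abs_nonneg y]
  have htt := abs_le.1 ht
  set p := PP ω (1 / 4 + t) with hp
  set q := PP ω (1 / 4 - t) with hq
  set P4 := PP ω (1 / 4) with hP4
  have hp0 : 0 ≤ p := by rw [hp, ← h0]; exact hm (by linarith)
  have hq0 : 0 ≤ q := by rw [hq, ← h0]; exact hm (by linarith)
  have hpx : p ≤ |PP ω x| := by rw [PP_abs hω]; exact hm htx
  have hqy : q ≤ |PP ω y| := by rw [PP_abs hω]; exact hm hty
  have hP4' : P4 ≤ 103 / 400 := by
    have := (PP_growth hω 0 (1 / 4) (by norm_num)).2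
    rw [h0] at this
    linarith
  have hP40 : 0 ≤ P4 := by rw [hP4, ← h0]; exact hm (by norm_num)
  -- lower bound for `p + q`
  have hsq : ∀ s, ω (1 / 4) ^ 2 - 3 / 100 * |s - 1 / 4| ≤ ω s ^ 2 ∧
      ω s ^ 2 ≤ ω (1 / 4) ^ 2 + 3 / 100 * |s - 1 / 4| := by
    intro s
    have := abs_le.1 (hω.sq_lip s (1 / 4))
    constructor <;> linarith
  have hσ : 2 * P4 - 6 / 100 * t ^ 2 ≤ p + q := by
    rcases le_total 0 t with h | h
    · have i1 := (PP_bd hω (1 / 4) (1 / 4 + t) (ω (1 / 4) ^ 2 - 3 / 100 * t)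
        (103 / 100) (by linarith) (fun s hs => ⟨by
          have := (hsq s).1
          rw [abs_of_nonneg (by linarith [hs.1])] at this
          linarith [hs.2], hω.sq_hi s⟩)).1
      have i2 := (PP_bd hω (1 / 4 - t) (1 / 4) 0 (ω (1 / 4) ^ 2 + 3 / 100 * t)
        (by linarith) (fun s hs => ⟨by positivity, by
          have := (hsq s).2
          rw [abs_of_nonpos (by linarith [hs.2])] at this
          linarith [hs.1]⟩)).2
      nlinarith
    · have i1 := (PP_bd hω (1 / 4 + t) (1 / 4) 0 (ω (1 / 4) ^ 2 + 3 / 100 * (-t))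
        (by linarith) (fun s hs => ⟨by positivity, by
          have := (hsq s).2
          rw [abs_of_nonpos (by linarith [hs.2])] at this
          linarith [hs.1]⟩)).2
      have i2 := (PP_bd hω (1 / 4) (1 / 4 - t) (ω (1 / 4) ^ 2 - 3 / 100 * (-t))
        (103 / 100) (by linarith) (fun s hs => ⟨by
          have := (hsq s).1
          rw [abs_of_nonneg (by linarith [hs.1])] at this
          linarith [hs.2], hω.sq_hi s⟩)).1
      nlinarith
  have hd : (p - q) ^ 2 ≥ 3 * t ^ 2 := by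
    rcases le_total 0 t with h | h
    · have := (PP_growth hω (1 / 4 - t) (1 / 4 + t) (by linarith)).1
      nlinarith
    · have := (PP_growth hω (1 / 4 + t) (1 / 4 - t) (by linarith)).1
      nlinarith
  -- conclusion
  have hmain : 4 * P4 - (p + q) ≤ √((p + q) ^ 2 + (p - q) ^ 2) := by
    refine (le_abs_self _).trans (Real.abs_le_sqrt ?_)
    have e : (4 * P4 - (p + q)) ^ 2 = 8 * P4 * (2 * P4 - (p + q)) + (p + q) ^ 2 := by ring
    rw [e]
    have i1 : 8 * P4 * (2 * P4 - (p + q)) ≤ 8 * P4 * (6 / 100 * t ^ 2) := by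
      apply mul_le_mul_of_nonneg_left _ (by positivity)
      linarith
    have i2 : 8 * P4 * (6 / 100 * t ^ 2) ≤ 3 * t ^ 2 := by nlinarith [sq_nonneg t]
    linarith
  have hs2 : (√2 : ℝ) ^ 2 = 2 := Real.sq_sqrt (by norm_num)
  have hs20 : (0 : ℝ) < √2 := by positivity
  have e2 : √((p + q) ^ 2 + (p - q) ^ 2) = √2 * √(p ^ 2 + q ^ 2) := by
    rw [← Real.sqrt_mul (by norm_num)]
    congr 1
    ring
  rw [e2] at hmain
  have hS : √2 * P4 ≤ (√(p ^ 2 + q ^ 2) + (p + q) / √2) / 2 := by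
    have e3 : (√(p ^ 2 + q ^ 2) + (p + q) / √2) / 2 =
        (√2 * √(p ^ 2 + q ^ 2) + (p + q)) / (2 * √2) := by
      field_simp
    rw [e3, le_div_iff₀ (by positivity)]
    nlinarith
  have hmono : (√(p ^ 2 + q ^ 2) + (p + q) / √2) / 2 ≤ Sf ω x y := by
    unfold Sf
    rw [← sq_abs (PP ω x), ← sq_abs (PP ω y)]
    gcongr
  linarith

end Pool.Agent.Y479.PG
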