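import Pool.Agent.Y479.PG.S2
import Pool.Agent.Y479.PG.Plane

/-!
# The periodised Gaussian density
-/

set_option autoImplicit false

open MeasureTheory Set Filter Topology

open scoped ENNReal NNReal

namespace Pool.Agent.Y479.PG

/-- one dimensional Gaussian density -/
noncomputable def gg (x : ℝ) : ℝ := Real.exp (-(x ^ 2 / 2)) / √(2 * Real.pi)

lemma gg_nonneg (x : ℝ) : 0 ≤ gg x := by unfold gg; positivity

lemma gg_cont : Continuous gg := by unfold gg; fun_prop

/-- its periodisation -/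
noncomputable def th (x : ℝ) : ℝ := ∑' k : ℤ, gg (x + k)

lemma gg_summable (x : ℝ) : Summable fun k : ℤ => gg (x + k) := by
  have h1 := (summable_exp_sq (1 / 4) (by norm_num)).mul_left
    (Real.exp (x ^ 2 / 2) / √(2 * Real.pi))
  refine Summable.of_nonneg_of_le (fun k => gg_nonneg _) (fun k => ?_) h1
  unfold gg
  have : Real.exp (-((x + k) ^ 2 / 2)) ≤ Real.exp (x ^ 2 / 2) * Real.exp (-(1 / 4 * (k : ℝ) ^ 2)) := by
    rw [← Real.exp_add]
    apply Real.exp_le_exp.2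
    nlinarith [sq_nonneg (2 * x + (k : ℝ))]
  calc Real.exp (-((x + k) ^ 2 / 2)) / √(2 * Real.pi)
      ≤ (Real.exp (x ^ 2 / 2) * Real.exp (-(1 / 4 * (k : ℝ) ^ 2))) / √(2 * Real.pi) := by gcongr
    _ = _ := by ring

/-- Fourier coefficients -/
noncomputable def ec (n : ℤ) : ℝ := Real.exp (-(2 * Real.pi ^ 2 * (n : ℝ) ^ 2))

lemma ec_summable : Summable ec := by
  have := summable_exp_sq (2 * Real.pi ^ 2) (by positivity)
  exact this

lemma th_fourier (x : ℝ) : th x = ∑' n : ℤ, ec n * Real.cos (2 * Real.pi * n * x) := by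
  have hpi := Real.pi_pos
  have hpi' : (Real.pi : ℂ) ≠ 0 := by exact_mod_cast hpi.ne'
  have h := Complex.tsum_exp_neg_quadratic (a := ((2 * Real.pi : ℝ) : ℂ))
    (by rw [Complex.ofReal_re]; positivity) (Complex.I * x)
  have eL : ∀ n : ℤ, Complex.exp (-Real.pi * ((2 * Real.pi : ℝ) : ℂ) * n ^ 2 +
      2 * Real.pi * (Complex.I * x) * n) =
      ((ec n : ℝ) : ℂ) * Complex.exp (((2 * Real.pi * n * x : ℝ) : ℂ) * Complex.I) := by
    intro n
    unfold ec
    rw [Complex.ofReal_exp, ← Complex.exp_add]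
    congr 1
    push_cast
    ring
  have eR : ∀ n : ℤ, Complex.exp (-Real.pi / ((2 * Real.pi : ℝ) : ℂ) *
      (n + Complex.I * (Complex.I * x)) ^ 2) = ((Real.exp (-((x - n) ^ 2 / 2)) : ℝ) : ℂ) := by
    intro n
    rw [Complex.ofReal_exp]
    congr 1
    have h1 : (n : ℂ) + Complex.I * (Complex.I * x) = n - x := by
      linear_combination (x : ℂ) * Complex.I_sq
    rw [h1]
    push_cast
    field_simp
    ring
  simp_rw [eL, eR] at h
  have e2 : (((2 * Real.pi : ℝ) : ℂ)) ^ (1 / 2 : ℂ) = ((√(2 * Real.pi) : ℝ) : ℂ) := by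
    rw [Real.sqrt_eq_rpow, Complex.ofReal_cpow (by positivity)]
    push_cast
    rfl
  rw [e2, ← Complex.ofReal_tsum] at h
  have hs : Summable fun n : ℤ => ((ec n : ℝ) : ℂ) *
      Complex.exp (((2 * Real.pi * n * x : ℝ) : ℂ) * Complex.I) := by
    apply Summable.of_norm
    refine ec_summable.congr fun n => ?_
    rw [norm_mul, Complex.norm_exp_ofReal_mul_I, mul_one, Complex.norm_real, Real.norm_eq_abs,
      abs_of_pos]
    exact Real.exp_pos _
  have h3 := congrArg Complex.re h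
  rw [Complex.re_tsum hs] at h3
  have e3 : ∀ n : ℤ, (((ec n : ℝ) : ℂ) *
      Complex.exp (((2 * Real.pi * n * x : ℝ) : ℂ) * Complex.I)).re =
      ec n * Real.cos (2 * Real.pi * n * x) := by
    intro n
    rw [Complex.re_ofReal_mul, Complex.exp_ofReal_mul_I_re]
  simp_rw [e3] at h3
  rw [h3]
  have e4 : (1 / ((√(2 * Real.pi) : ℝ) : ℂ) * ((∑' n : ℤ, Real.exp (-((x - n) ^ 2 / 2)) : ℝ) : ℂ)) =
      ((1 / √(2 * Real.pi) * ∑' n : ℤ, Real.exp (-((x - n) ^ 2 / 2)) : ℝ) : ℂ) := by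
    push_cast
    ring
  rw [e4, Complex.ofReal_re, ← tsum_mul_left]
  unfold th
  rw [← (Equiv.neg ℤ).tsum_eq]
  apply tsum_congr
  intro n
  simp only [Equiv.neg_apply]
  unfold gg
  push_cast
  rw [← sub_eq_add_neg]
  ring

lemma half_sum : HasSum (fun n : ℤ => (1 / 2 : ℝ) ^ n.natAbs) 3 := by
  have h1 : HasSum (fun n : ℕ => (1 / 2 : ℝ) ^ n) 2 := hasSum_geometric_two
  have h2 : HasSum (fun n : ℕ => (1 / 2 : ℝ) ^ (n + 1)) 1 := by
    have e : (fun n : ℕ => (1 / 2 : ℝ) ^ (n + 1)) = fun n : ℕ => 1 / 2 * (1 / 2 : ℝ) ^ n := by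
      funext n; ring
    have h5 := h1.mul_left (1 / 2)
    have e2 : (1 / 2 : ℝ) * 2 = 1 := by norm_num
    rw [e2] at h5
    rw [e]
    exact h5
  have h4 : HasSum (fun n : ℕ => (fun n : ℤ => (1 / 2 : ℝ) ^ n.natAbs) (-((n : ℤ) + 1))) 1 := by
    have e : (fun n : ℕ => (fun n : ℤ => (1 / 2 : ℝ) ^ n.natAbs) (-((n : ℤ) + 1))) =
        fun n : ℕ => (1 / 2 : ℝ) ^ (n + 1) := by
      funext n
      change (1 / 2 : ℝ) ^ (-((n : ℤ) + 1)).natAbs = _
      have e6 : (-((n : ℤ) + 1)).natAbs = n + 1 := by omega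
      rw [e6]
    rw [e]
    exact h2
  have h3 := HasSum.of_nat_of_neg_add_one (f := fun n : ℤ => (1 / 2 : ℝ) ^ n.natAbs)
    (m := 2) (m' := 1) (by simpa using h1) h4
  have e : (2 : ℝ) + 1 = 3 := by norm_num
  rw [e] at h3
  exact h3

lemma coef_bd (n : ℤ) : 2 * Real.pi * |(n : ℝ)| * ec n ≤ 1 / 300 * (1 / 2) ^ n.natAbs := by
  have hpi := Real.pi_gt_three
  have hpi4 : Real.pi < 3.15 := Real.pi_lt_d2
  set k := n.natAbs with hk
  have hnk : |(n : ℝ)| = (k : ℝ) := by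
    rw [hk, Nat.cast_natAbs, Int.cast_abs]
  have hnk2 : (n : ℝ) ^ 2 = (k : ℝ) ^ 2 := by rw [← sq_abs, hnk]
  unfold ec
  rw [hnk, hnk2]
  rcases Nat.eq_zero_or_pos k with h0 | h0
  · rw [h0]; norm_num
  have hk1 : (1 : ℝ) ≤ k := by exact_mod_cast h0
  have h1 : Real.exp (-(2 * Real.pi ^ 2 * (k : ℝ) ^ 2)) ≤ (1 / 2 : ℝ) ^ (18 * k) := by
    have e1 : Real.exp (-1) ≤ 1 / 2 := by
      rw [Real.exp_neg, one_div]
      apply inv_anti₀ (by norm_num)
      have := Real.add_one_le_exp (1 : ℝ)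
      linarith
    calc Real.exp (-(2 * Real.pi ^ 2 * (k : ℝ) ^ 2)) ≤ Real.exp (((18 * k : ℕ) : ℝ) * (-1)) := by
          apply Real.exp_le_exp.2
          push_cast
          have a1 : 18 ≤ 2 * Real.pi ^ 2 := by nlinarith
          have a2 : (k : ℝ) ≤ (k : ℝ) ^ 2 := by nlinarith
          nlinarith
      _ = (Real.exp (-1)) ^ (18 * k) := by rw [Real.exp_nat_mul]
      _ ≤ _ := by gcongr
  have h2 : (k : ℝ) ≤ 2 ^ k := by exact_mod_cast (Nat.lt_two_pow_self).le
  calc 2 * Real.pi * (k : ℝ) * Real.exp (-(2 * Real.pi ^ 2 * (k : ℝ) ^ 2))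
      ≤ 7 * 2 ^ k * (1 / 2 : ℝ) ^ (18 * k) := by
        gcongr
        linarith
    _ = 7 * ((1 / 2) ^ (16 * k)) * (1 / 2) ^ k := by
        have e : (1 / 2 : ℝ) ^ (18 * k) = (1 / 2) ^ (16 * k) * (1 / 2) ^ k * (1 / 2) ^ k := by
          rw [← pow_add, ← pow_add]; congr 1; omega
        have e2 : (2 : ℝ) ^ k * (1 / 2) ^ k = 1 := by
          rw [← mul_pow]; norm_num
        rw [e]
        linear_combination (7 * (1 / 2 : ℝ) ^ (16 * k) * (1 / 2) ^ k) * e2
    _ ≤ 7 * ((1 / 2) ^ 16) * (1 / 2) ^ k := by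
        have : (1 / 2 : ℝ) ^ (16 * k) ≤ (1 / 2) ^ 16 :=
          pow_le_pow_of_le_one (by norm_num) (by norm_num) (by omega)
        gcongr
    _ ≤ 1 / 300 * (1 / 2) ^ k := by
        have : (7 : ℝ) * ((1 / 2) ^ 16) ≤ 1 / 300 := by norm_num
        gcongr

lemma ec_pos (n : ℤ) : 0 < ec n := Real.exp_pos _

lemma ec_cos_summable (x : ℝ) : Summable fun n : ℤ => ec n * Real.cos (2 * Real.pi * n * x) := by
  apply Summable.of_norm_bounded ec_summable
  intro n
  rw [Real.norm_eq_abs, abs_mul, abs_of_pos (ec_pos n)]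
  have := Real.abs_cos_le_one (2 * Real.pi * n * x)
  have := (ec_pos n).le
  nlinarith

lemma maj_sum : HasSum (fun n : ℤ => 1 / 300 * (1 / 2 : ℝ) ^ n.natAbs) (1 / 100) := by
  have := half_sum.mul_left (1 / 300)
  have e : (1 / 300 : ℝ) * 3 = 1 / 100 := by norm_num
  rw [e] at this
  exact this

lemma th_bound (x : ℝ) : |th x - 1| ≤ 1 / 100 := by
  rw [th_fourier, (ec_cos_summable x).tsum_eq_add_tsum_ite 0]
  have e0 : ec 0 * Real.cos (2 * Real.pi * (0 : ℤ) * x) = 1 := by simp [ec]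
  rw [e0, add_sub_cancel_left, ← Real.norm_eq_abs]
  apply tsum_of_norm_bounded maj_sum
  intro n
  split_ifs with h
  · simp
  · rw [Real.norm_eq_abs, abs_mul, abs_of_pos (ec_pos n)]
    have h1 := Real.abs_cos_le_one (2 * Real.pi * n * x)
    have h2 := (ec_pos n).le
    have h3 := coef_bd n
    have hpi := Real.pi_gt_three
    have h4 : (1 : ℝ) ≤ |(n : ℝ)| := by
      rw [← Int.cast_abs]
      exact_mod_cast Int.one_le_abs h
    have h5 : 1 ≤ 2 * Real.pi * |(n : ℝ)| := by nlinarith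
    calc ec n * |Real.cos (2 * Real.pi * n * x)| ≤ ec n * 1 := by gcongr
      _ ≤ (2 * Real.pi * |(n : ℝ)|) * ec n := by nlinarith
      _ ≤ _ := h3

lemma th_lip (x y : ℝ) : |th x - th y| ≤ 1 / 100 * |x - y| := by
  rw [th_fourier, th_fourier, ← (ec_cos_summable x).tsum_sub (ec_cos_summable y),
    ← Real.norm_eq_abs]
  apply tsum_of_norm_bounded (maj_sum.mul_right |x - y|)
  intro n
  rw [← mul_sub, Real.norm_eq_abs, abs_mul, abs_of_pos (ec_pos n)]
  have h1 := Real.abs_cos_sub_cos_le (2 * Real.pi * n * x) (2 * Real.pi * n * y)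
  have h2 := (ec_pos n).le
  have h3 := coef_bd n
  have h4 : |2 * Real.pi * n * x - 2 * Real.pi * n * y| = 2 * Real.pi * |(n : ℝ)| * |x - y| := by
    rw [← mul_sub, abs_mul, abs_mul, abs_of_pos (by positivity : 0 < 2 * Real.pi)]
  rw [h4] at h1
  calc ec n * |Real.cos (2 * Real.pi * n * x) - Real.cos (2 * Real.pi * n * y)|
      ≤ ec n * (2 * Real.pi * |(n : ℝ)| * |x - y|) := by gcongr
    _ = (2 * Real.pi * |(n : ℝ)| * ec n) * |x - y| := by ring
    _ ≤ _ := by gcongr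

lemma th_neg (x : ℝ) : th (-x) = th x := by
  rw [th_fourier, th_fourier]
  apply tsum_congr
  intro n
  rw [mul_neg, Real.cos_neg]

lemma th_add_one (x : ℝ) : th (x + 1) = th x := by
  rw [th_fourier, th_fourier]
  apply tsum_congr
  intro n
  rw [mul_add, mul_one]
  have : 2 * Real.pi * (n : ℝ) * x + 2 * Real.pi * n = 2 * Real.pi * n * x + n * (2 * Real.pi) := by
    ring
  rw [this, Real.cos_add_int_mul_two_pi]

lemma th_add_int (x : ℝ) (m : ℤ) : th (x + m) = th x := by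
  rw [th_fourier, th_fourier]
  apply tsum_congr
  intro n
  have : 2 * Real.pi * (n : ℝ) * (x + m) = 2 * Real.pi * n * x + ((n * m : ℤ) : ℝ) * (2 * Real.pi) := by
    push_cast
    ring
  rw [this, Real.cos_add_int_mul_two_pi]

lemma wt (c : ℝ) (hc : c = 0 ∨ c = 1 / 2) : Wt (fun x => th (c + x)) where
  even := by
    intro x
    rcases hc with rfl | rfl
    · simp only [zero_add, th_neg]
    · rw [← th_neg, ← th_add_one]
      congr 1
      ring
  lo := fun x => by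
    have := abs_le.1 (th_bound (c + x))
    change 99 / 100 ≤ th (c + x)
    linarith
  hi := fun x => by
    have := abs_le.1 (th_bound (c + x))
    change th (c + x) ≤ 101 / 100
    linarith
  lip := fun x y => by
    have := th_lip (c + x) (c + y)
    rw [add_sub_add_left_eq_sub] at this
    exact this

lemma th_pos (x : ℝ) : 0 < th x := by
  have := abs_le.1 (th_bound x)
  linarith

lemma th_cont : Continuous th := by
  have h := (wt 0 (Or.inl rfl)).cont
  simpa using h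

lemma ofReal_th (x : ℝ) : ENNReal.ofReal (th x) = ∑' k : ℤ, ENNReal.ofReal (gg (x + k)) :=
  ENNReal.ofReal_tsum_of_nonneg (fun _ => gg_nonneg _) (gg_summable x)

end Pool.Agent.Y479.PG
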