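import Mathlib

/-!
# A theta series with the sine

For `0 < z < 1/2` and `0 < t < π z` one has `∑ k sin(2 π k z) exp(-π t k²) > 0`, by the functional
equation of the derivative of the theta function.
-/

set_option autoImplicit false

open MeasureTheory Set Filter Topology

namespace Pool.Agent.Y479.PG

/-- the dual terms -/
noncomputable def dterm (t z : ℝ) (k : ℤ) : ℝ :=
  (z + k) * Real.exp (-(2 * Real.pi * k * z + Real.pi * k ^ 2) / t)

lemma dterm_pair (t z : ℝ) (ht : 0 < t) (hz : 0 < z) (hz2 : z < 1 / 2) (h : t < Real.pi * z)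
    (n : ℕ) : 0 < dterm t z n + dterm t z (-((n : ℤ) + 1)) := by
  have hpi := Real.pi_pos
  unfold dterm
  push_cast
  set u : ℝ := n + z with hu
  set w : ℝ := n + 1 - z with hw
  have hn : (0 : ℝ) ≤ n := Nat.cast_nonneg n
  have hu0 : 0 < u := by positivity
  have huw : u < w := by rw [hu, hw]; linarith
  have e1 : Real.exp (-(2 * Real.pi * n * z + Real.pi * (n : ℝ) ^ 2) / t) =
      Real.exp (Real.pi * (w ^ 2 - u ^ 2) / t) *
        Real.exp (-(2 * Real.pi * (-1 + -(n : ℝ)) * z + Real.pi * (-1 + -(n : ℝ)) ^ 2) / t) := by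
    rw [← Real.exp_add]
    congr 1
    rw [← add_div]
    congr 1
    rw [hu, hw]
    ring
  have e1' : (z + (n : ℝ)) = u := by rw [hu]; ring
  have e2 : (z + (-1 + -(n : ℝ))) = -w := by rw [hw]; ring
  have e3 : (-((n : ℝ) + 1)) = (-1 + -(n : ℝ)) := by ring
  rw [e3, e1, e1', e2]
  set X := Real.exp (-(2 * Real.pi * (-1 + -(n : ℝ)) * z + Real.pi * (-1 + -(n : ℝ)) ^ 2) / t)
  have hX : 0 < X := Real.exp_pos _
  have h1 : Real.pi * (w ^ 2 - u ^ 2) / t + 1 ≤ Real.exp (Real.pi * (w ^ 2 - u ^ 2) / t) :=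
    Real.add_one_le_exp _
  have h2 : w < u * Real.exp (Real.pi * (w ^ 2 - u ^ 2) / t) := by
    have h3 : w < u * (Real.pi * (w ^ 2 - u ^ 2) / t + 1) := by
      have h4 : w ^ 2 - u ^ 2 = (w - u) * (2 * n + 1) := by rw [hu, hw]; ring
      rw [h4]
      have h5 : 1 < u * (Real.pi / t) * (2 * n + 1) := by
        have h6 : 1 < u * (Real.pi / t) := by
          rw [← mul_div_assoc, lt_div_iff₀ ht]
          nlinarith
        nlinarith
      have h7 : 0 < w - u := by linarith
      have h8 : u * (Real.pi * ((w - u) * (2 * n + 1)) / t + 1) =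
          u + (w - u) * (u * (Real.pi / t) * (2 * n + 1)) := by
        field_simp
        ring
      rw [h8]
      nlinarith
    exact h3.trans_le (mul_le_mul_of_nonneg_left h1 hu0.le)
  nlinarith

lemma dual_pos (t z : ℝ) (ht : 0 < t) (hz : 0 < z) (hz2 : z < 1 / 2) (h : t < Real.pi * z)
    (hs : Summable (dterm t z)) : 0 < ∑' k, dterm t z k := by
  have h1 : Summable fun n : ℕ => dterm t z n :=
    hs.comp_injective Nat.cast_injective
  have h2 : Summable fun n : ℕ => dterm t z (-((n : ℤ) + 1)) :=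
    hs.comp_injective (fun a b hab => by simpa using hab)
  rw [tsum_of_nat_of_neg_add_one h1 h2, ← h1.tsum_add h2]
  exact (h1.add h2).tsum_pos (fun n => (dterm_pair t z ht hz hz2 h n).le) 0
    (dterm_pair t z ht hz hz2 h 0)

/-- the terms of the series -/
noncomputable def sterm (t z : ℝ) (k : ℤ) : ℝ :=
  k * Real.sin (2 * Real.pi * k * z) * Real.exp (-(Real.pi * t * k ^ 2))

lemma sterm_re (t z : ℝ) (k : ℤ) :
    (jacobiTheta₂'_term k (z : ℂ) (Complex.I * t)).re = -(2 * Real.pi) * sterm t z k := by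
  unfold jacobiTheta₂'_term jacobiTheta₂_term sterm
  have h : 2 * (Real.pi : ℂ) * Complex.I * k * z + Real.pi * Complex.I * (k : ℂ) ^ 2 * (Complex.I * t) =
      ((-(Real.pi * t * k ^ 2) : ℝ) : ℂ) + ((2 * Real.pi * k * z : ℝ) : ℂ) * Complex.I := by
    push_cast
    linear_combination ((Real.pi : ℂ) * k ^ 2 * t) * Complex.I_sq
  rw [h, Complex.exp_add, ← Complex.ofReal_exp, Complex.exp_mul_I, ← Complex.ofReal_cos,
    ← Complex.ofReal_sin]
  have h2 : 2 * (Real.pi : ℂ) * Complex.I * k = ((2 * Real.pi * k : ℝ) : ℂ) * Complex.I := by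
    push_cast; ring
  rw [h2]
  simp only [Complex.mul_re, Complex.add_re, Complex.ofReal_re, Complex.ofReal_im, Complex.I_re,
    Complex.I_im, Complex.mul_im, Complex.add_im]
  ring

lemma dual_term (t z : ℝ) (ht : 0 < t) (k : ℤ) :
    jacobiTheta₂'_term k ((z : ℂ) / (Complex.I * t)) (-1 / (Complex.I * t)) -
      2 * Real.pi * Complex.I * z * jacobiTheta₂_term k ((z : ℂ) / (Complex.I * t))
        (-1 / (Complex.I * t)) =
      ((-(2 * Real.pi) * dterm t z (-k) : ℝ) : ℂ) * Complex.I := by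
  unfold jacobiTheta₂'_term jacobiTheta₂_term dterm
  have ht' : (t : ℂ) ≠ 0 := by exact_mod_cast ht.ne'
  have hI : Complex.I ≠ 0 := Complex.I_ne_zero
  have h : 2 * (Real.pi : ℂ) * Complex.I * k * ((z : ℂ) / (Complex.I * t)) +
      Real.pi * Complex.I * (k : ℂ) ^ 2 * (-1 / (Complex.I * t)) =
      ((-(2 * Real.pi * (-k) * z + Real.pi * (-k) ^ 2) / t : ℝ) : ℂ) := by
    push_cast
    field_simp
    ring
  rw [h, ← Complex.ofReal_exp]
  push_cast
  ring

lemma summable_dterm (t z : ℝ) (ht : 0 < t) : Summable (dterm t z) := by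
  have him : 0 < (-1 / (Complex.I * t) : ℂ).im := by
    have : (-1 / (Complex.I * t) : ℂ) = ((1 / t : ℝ) : ℂ) * Complex.I := by
      have ht' : (t : ℂ) ≠ 0 := by exact_mod_cast ht.ne'
      have hI : Complex.I ≠ 0 := Complex.I_ne_zero
      push_cast
      field_simp
      linear_combination -Complex.I_sq
    rw [this]
    simp [ht]
  have h1 := (hasSum_jacobiTheta₂'_term ((z : ℂ) / (Complex.I * t)) him).sub
    ((hasSum_jacobiTheta₂_term ((z : ℂ) / (Complex.I * t)) him).mul_left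
      (2 * Real.pi * Complex.I * z))
  simp only [dual_term t z ht] at h1
  have h2 := (Complex.imCLM.hasSum h1).summable
  have h3 : Summable fun k : ℤ => dterm t z (-k) := by
    refine (h2.mul_left (-(2 * Real.pi))⁻¹).congr fun k => ?_
    have hp := Real.pi_pos
    simp only [Complex.imCLM_apply, Complex.mul_im, Complex.ofReal_re,
      Complex.ofReal_im, Complex.I_re, Complex.I_im]
    field_simp
    ring
  have h4 := h3.comp_injective neg_injective
  refine h4.congr fun k => ?_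
  simp [Function.comp]

lemma theta_pos (t z : ℝ) (ht : 0 < t) (hz : 0 < z) (hz2 : z < 1 / 2) (h : t < Real.pi * z) :
    Summable (sterm t z) ∧ 0 < ∑' k, sterm t z k := by
  have hpi := Real.pi_pos
  have ht' : (t : ℂ) ≠ 0 := by exact_mod_cast ht.ne'
  have hI : Complex.I ≠ 0 := Complex.I_ne_zero
  have him0 : 0 < (Complex.I * t : ℂ).im := by simp [ht]
  have him : 0 < (-1 / (Complex.I * t) : ℂ).im := by
    have : (-1 / (Complex.I * t) : ℂ) = ((1 / t : ℝ) : ℂ) * Complex.I := by
      push_cast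
      field_simp
      linear_combination -Complex.I_sq
    rw [this]
    simp [ht]
  -- left hand side
  have h1 := Complex.reCLM.hasSum (hasSum_jacobiTheta₂'_term (z : ℂ) him0)
  have h1' : HasSum (fun k => -(2 * Real.pi) * sterm t z k)
      (jacobiTheta₂' (z : ℂ) (Complex.I * t)).re := by
    have h := h1
    simp only [Function.comp_def, Complex.reCLM_apply, sterm_re] at h
    exact h
  have hsum : Summable (sterm t z) := by
    refine (h1'.summable.mul_left (-(2 * Real.pi))⁻¹).congr fun k => ?_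
    field_simp
  refine ⟨hsum, ?_⟩
  -- right hand side
  have h2 := (hasSum_jacobiTheta₂'_term ((z : ℂ) / (Complex.I * t)) him).sub
    ((hasSum_jacobiTheta₂_term ((z : ℂ) / (Complex.I * t)) him).mul_left
      (2 * Real.pi * Complex.I * z))
  simp only [dual_term t z ht] at h2
  have hd := summable_dterm t z ht
  have hR := dual_pos t z ht hz hz2 h hd
  set R : ℝ := ∑' k, dterm t z k with hRdef
  have hd' : HasSum (fun k : ℤ => dterm t z (-k)) R := by
    have h3 := hd.hasSum
    exact (Equiv.neg ℤ).hasSum_iff.2 h3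
  have h4 : HasSum (fun k : ℤ => ((-(2 * Real.pi) * dterm t z (-k) : ℝ) : ℂ) * Complex.I)
      (((-(2 * Real.pi) * R : ℝ) : ℂ) * Complex.I) :=
    (Complex.hasSum_ofReal.2 (hd'.mul_left (-(2 * Real.pi)))).mul_right _
  have h5 := h2.unique h4
  have hJ := jacobiTheta₂'_functional_equation (z : ℂ) (Complex.I * t)
  rw [h5] at hJ
  have e1 : (-Complex.I * (Complex.I * t) : ℂ) = ((t : ℝ) : ℂ) := by
    linear_combination -(t : ℂ) * Complex.I_sq
  have e2 : (((t : ℝ) : ℂ)) ^ (1 / 2 : ℂ) = ((t ^ (1 / 2 : ℝ) : ℝ) : ℂ) := by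
    rw [Complex.ofReal_cpow ht.le]
    push_cast
    rfl
  have e3 : Complex.exp (-Real.pi * Complex.I * (z : ℂ) ^ 2 / (Complex.I * t)) =
      ((Real.exp (-(Real.pi * z ^ 2 / t)) : ℝ) : ℂ) := by
    rw [Complex.ofReal_exp]
    congr 1
    push_cast
    field_simp
  rw [e1, e2, e3] at hJ
  have e4 : (1 / ((t ^ (1 / 2 : ℝ) : ℝ) : ℂ) * ((Real.exp (-(Real.pi * z ^ 2 / t)) : ℝ) : ℂ) /
      (Complex.I * t) * (((-(2 * Real.pi) * R : ℝ) : ℂ) * Complex.I)) =
      ((1 / t ^ (1 / 2 : ℝ) * Real.exp (-(Real.pi * z ^ 2 / t)) / t * (-(2 * Real.pi) * R) : ℝ) : ℂ) := by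
    push_cast
    field_simp
  rw [e4] at hJ
  rw [hJ, Complex.ofReal_re] at h1'
  have h6 := h1'.unique (hsum.hasSum.mul_left (-(2 * Real.pi)))
  have h7 : ∑' k, sterm t z k =
      1 / t ^ (1 / 2 : ℝ) * Real.exp (-(Real.pi * z ^ 2 / t)) / t * R := by
    have h8 : -(2 * Real.pi) * ∑' k, sterm t z k =
        -(2 * Real.pi) * (1 / t ^ (1 / 2 : ℝ) * Real.exp (-(Real.pi * z ^ 2 / t)) / t * R) := by
      rw [← h6]; ring
    exact mul_left_cancel₀ (by simp [Real.pi_ne_zero]) h8
  rw [h7]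
  positivity

/-- The form used below: `∑ k sin(2πk/n) exp(-k²/(2n)) > 0` for real `n > 2`. -/
noncomputable def sTerm (n : ℝ) (k : ℤ) : ℝ :=
  (k : ℝ) * Real.sin (2 * Real.pi * k / n) * Real.exp (-((k : ℝ) ^ 2 / (2 * n)))

lemma sTerm_sum (n : ℝ) (hn : 2 < n) : Summable (sTerm n) ∧ 0 < ∑' k, sTerm n k := by
  have hpi := Real.pi_pos
  have hpi3 := Real.pi_gt_three
  have hn0 : 0 < n := by linarith
  have h := theta_pos (1 / (2 * n * Real.pi)) (1 / n) (by positivity) (by positivity)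
    (by rw [div_lt_div_iff₀ hn0 (by norm_num)]; linarith)
    (by
      rw [mul_one_div, div_lt_div_iff₀ (by positivity) hn0]
      have h1 : 1 < Real.pi * 2 * Real.pi := by nlinarith
      nlinarith [mul_lt_mul_of_pos_left h1 hn0])
  have e : sterm (1 / (2 * n * Real.pi)) (1 / n) = sTerm n := by
    funext k
    unfold sterm sTerm
    have e1 : 2 * Real.pi * (k : ℝ) * (1 / n) = 2 * Real.pi * k / n := by ring
    have e2 : Real.pi * (1 / (2 * n * Real.pi)) * (k : ℝ) ^ 2 = (k : ℝ) ^ 2 / (2 * n) := by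
      field_simp
    rw [e1, e2]
  rw [e] at h
  exact h

end Pool.Agent.Y479.PG
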